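import Pool.Agent.H577.Kim.Rank2
import Pool.Agent.H577.Kim.Done.RAT
import Pool.Agent.H577.Kim.Done.LIFT
import Pool.Agent.H577.Kim.Done.DISC
import Pool.Agent.H577.Kim.Done.KCHAR

/-!
If the class of a rational point is, at the prime `l`, the class of a point `z` over the field of
`l`-adic numbers, then the function `(t - a) / (t - b)` has the same absolute value at both points.
-/

open scoped Pointwise TensorProduct Topology Polynomial NNReal

noncomputable section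

namespace Pool.Agent.H577.Kim

open Y680 Y680.V Polynomial
open Y680.W (GG Gam Qb map_Qb)
open Y680.W.K3 (Cg nu_sub nu_mul Qb_zero)

theorem mem_of_pow {v : ValuationSubring Om} {x : Om} {n : ℕ} (hn : 0 < n) (h : x ^ n ∈ v) :
    x ∈ v := by
  rw [← v.valuation_le_one_iff] at h ⊢
  rw [map_pow] at h
  exact (pow_le_one_iff hn.ne').1 h

/-- residues of roots -/
theorem resid {v : ValuationSubring Om} {a : Option Qb} (hv : W.IsPlace a v) {n : ℕ} (hn : 0 < n)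
    {y F : Om} {E : Qb} (hy : y ^ n = F) (hF : Cg v F (E : Om)) :
    ∃ e : Qb, y - (e : Om) ∈ v.nonunits ∧ e ^ n = E := by
  have hy1 : y ∈ v := mem_of_pow hn (by rw [hy]; exact hF.ha)
  obtain ⟨e, he⟩ := W.t_VAL a v hv y hy1
  refine ⟨e, he, ?_⟩
  have hev : (e : Om) ∈ v := W.K3.Qb_le hv.1 e.2
  have h2 : y ^ n - (e : Om) ^ n ∈ v.nonunits := by
    obtain ⟨m, hm⟩ : ∃ m ∈ v, y ^ n - (e : Om) ^ n = m * (y - e) := by
      refine ⟨∑ i ∈ Finset.range n, y ^ i * (e : Om) ^ (n - 1 - i), ?_, ?_⟩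
      · exact sum_mem fun i _ => mul_mem (pow_mem hy1 _) (pow_mem hev _)
      · exact (Commute.all y (e : Om)).geom_sum₂_mul n |>.symm
    rw [hm.2]
    exact nu_mul hm.1 he
  have h4 : (e : Om) ^ n - E ∈ v.nonunits := by
    have : (e : Om) ^ n - E = (F - E) - (y ^ n - (e : Om) ^ n) := by rw [hy]; ring
    rw [this]
    exact nu_sub hF.hab h2
  have h5 := sub_eq_zero.1 (Qb_zero hv.1 (sub_mem (pow_mem e.2 n) E.2) h4)
  apply Subtype.ext
  exact h5

/-- the residue is moved as the function -/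
theorem resid_move {v : ValuationSubring Om} {a : Option Qb} (hv : W.IsPlace a v) {y : Om}
    {e ζ η : Qb} (he : y - (e : Om) ∈ v.nonunits) {g : GG} {δ : Gam}
    (hgd : (δ : GG) • v = g • v) {m : ℕ} (hδ : (δ : GG) y = (ζ : Om) ^ m * y)
    (hg : g y = (η : Om) * y) :
    ζ ^ m * (⟨g e, map_Qb g e.2⟩ : Qb) = η * e := by
  have h1 : g (y - (e : Om)) ∈ (g • v).nonunits := (W.smul_mem_nonunits g).2 he
  have h2 : (δ : GG) (y - (e : Om)) ∈ ((δ : GG) • v).nonunits := (W.smul_mem_nonunits _).2 he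
  rw [map_sub, δ.2 _ e.2, hδ] at h2
  rw [map_sub, hg, ← hgd] at h1
  have hq : ∀ q : ℚ, algebraMap ℚ Om q ∈ (δ : GG) • v := (W.isPlace_smul (δ : GG) hv).1
  have h3 : (ζ : Om) ^ m * g e - (η : Om) * e ∈ ((δ : GG) • v).nonunits := by
    have : (ζ : Om) ^ m * g e - (η : Om) * e =
        (η : Om) * ((ζ : Om) ^ m * y - e) - (ζ : Om) ^ m * ((η : Om) * y - g e) := by ring
    rw [this]
    exact nu_sub (nu_mul (W.K3.Qb_le hq η.2) h2)
      (nu_mul (pow_mem (W.K3.Qb_le hq ζ.2) m) h1)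
  have h4 := Qb_zero hq (sub_mem (mul_mem (pow_mem ζ.2 m) (map_Qb g e.2)) (mul_mem η.2 e.2)) h3
  apply Subtype.ext
  exact sub_eq_zero.1 h4

theorem move_val {C : Type} [Field C] {w w2 : Place Om C} {g : GG} {σ : C →+* C}
    (h : w.move g σ = w2) {x : Om} (hx : x ∈ w.O) :
    ∃ h2 : g x ∈ w2.O, w2.φ ⟨g x, h2⟩ = σ (w.φ ⟨x, hx⟩) := by
  subst h
  have h0 : g⁻¹ (g x) = x := by
    rw [← AlgEquiv.mul_apply, inv_mul_cancel]
    rfl
  have h2 : g x ∈ (w.move g σ).O := by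
    change g x ∈ g • w.O
    rw [ValuationSubring.mem_pointwise_smul_iff_inv_smul_mem]
    change g⁻¹ (g x) ∈ w.O
    rw [h0]
    exact hx
  refine ⟨h2, ?_⟩
  change σ (w.φ (back g w.O ⟨g x, h2⟩)) = σ (w.φ ⟨x, hx⟩)
  congr 2
  exact Subtype.ext h0

theorem move_above {C : Type} [Field C] {ι : Qb →+* C} {z : Option C} {w : Place Om C}
    (hw : w ∈ above (Om := Om) ι z) {g : GG} {σ : C →+* C}
    (hσ : ∀ a b : Qb, (b : Om) = g (a : Om) → σ (ι a) = ι b) (hz : ∀ a, z = some a → σ a = a) :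
    w.move g σ ∈ above (Om := Om) ι z := by
  refine ⟨?_, ?_, ?_⟩
  · intro x
    exact D263.move_ext hw.1 g σ hσ x
  · intro h
    have h1 := hw.2.1 h
    have h2 : g (tt Om)⁻¹ ∈ (g • w.O).nonunits := (W.smul_mem_nonunits g).2 h1
    have h3 : g (tt Om) = tt Om := g.commutes _
    rw [map_inv₀, h3] at h2
    exact h2
  · intro a ha
    obtain ⟨h1, h2⟩ := hw.2.2 a ha
    obtain ⟨h3, h4⟩ := move_val (g := g) (σ := σ) (w2 := w.move g σ) rfl h1
    have h5 : g (tt Om) = tt Om := g.commutes _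
    have h6 : tt Om ∈ (w.move g σ).O := by
      rw [← h5]
      exact h3
    refine ⟨h6, ?_⟩
    have h7 : (⟨g (tt Om), h3⟩ : (w.move g σ).O) = ⟨tt Om, h6⟩ := Subtype.ext h5
    rw [← h7, h4, h2, hz a ha]

/-- the function (t - a) / (t - b) -/
def FF (a b : Qb) : Om := (W.tt - (a : Om)) / (W.tt - (b : Om))

theorem cg_FF {v : ValuationSubring Om} {q : ℚ} (hv : W.IsPlace (some (q : Qb)) v) {a b : Qb}
    (ha : (q : Qb) ≠ a) (hb : (q : Qb) ≠ b) :
    Cg v (FF a b) ((((q : Qb) - a) / ((q : Qb) - b) : Qb) : Om) := by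
  have key : ∀ c : Qb, (q : Qb) ≠ c → Cg v (W.tt - (c : Om)) (((q : Qb) - c : Qb) : Om) := by
    intro c hc
    refine Cg.mk' hv.1 (((q : Qb) - c).2) ?_ ?_
    · intro h
      exact hc (sub_eq_zero.1 (Subtype.ext h))
    · have h1 := hv.2
      have h2 : W.tt - (c : Om) - (((q : Qb) - c : Qb) : Om) = W.loc (some (q : Qb)) := by
        change W.tt - (c : Om) - (((q : Qb) - c : Qb) : Om) = W.tt - ((q : Qb) : Om)
        rw [AddSubgroupClass.coe_sub]
        ring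
      rw [h2]
      exact h1
  have h3 := (key a ha).mul (key b hb).inv
  have h4 : ((((q : Qb) - a) / ((q : Qb) - b) : Qb) : Om) =
      (((q : Qb) - a : Qb) : Om) * ((((q : Qb) - b : Qb)) : Om)⁻¹ := by
    push_cast
    rw [div_eq_mul_inv]
  rw [h4]
  unfold FF
  rw [div_eq_mul_inv]
  exact h3

theorem g_FF {g : GG} {a b : Qb} (ha : g (a : Om) = a) (hb : g (b : Om) = b) :
    g (FF a b) = FF a b := by
  have h : g W.tt = W.tt := g.commutes _
  unfold FF
  rw [map_div₀, map_sub, map_sub, ha, hb, h]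

variable {p l : ℕ} [Fact p.Prime] [Fact l.Prime] {f : ℤ[X]}

/-- the Galois group acts on the Kummer torsor through a coboundary -/
theorem claimA {lam : Gam → ℤ_[p]} (H : Unr p f lam) {n : ℕ} (hn : 1 ≤ n)
    {c : GG → Trans p (geo Om) (inert Om f) (ValuationSubring Om) (ValuationSubring Om)}
    (hc : IsCocycle n (infPlaces Om) c) {q : ℚ} {z : Option ℚ_[l]}
    (L0 : Lies (p := p) (f := f) (C := AlgebraicClosure ℚ) ℚ n c (some q))
    (L1 : Lies (p := p) (f := f) (C := AlgebraicClosure ℚ_[l]) ℚ_[l] n c z)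
    (ι : Qb →+* AlgebraicClosure ℚ_[l]) :
    ∃ (v : ValuationSubring Om) (w' : Place Om (AlgebraicClosure ℚ_[l])) (D : ℚ_[p]),
      W.IsPlace (some (q : Qb)) v ∧
      w' ∈ above (Om := Om) ι (z.map (algebraMap ℚ_[l] (AlgebraicClosure ℚ_[l]))) ∧
      ∀ σ : AlgebraicClosure ℚ_[l] ≃ₐ[ℚ_[l]] AlgebraicClosure ℚ_[l],
        (∀ r : Qb, W.IsRoot (f0 f) (some r) → σ (ι r) = ι r) → ∃ (g : GG) (δ : Gam),
        (∀ a b : Qb, (b : Om) = g (a : Om) → σ (ι a) = ι b) ∧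
        w'.move g (σ : AlgebraicClosure ℚ_[l] →+* AlgebraicClosure ℚ_[l]) = w' ∧
        (δ : GG) • v = g • v ∧ (∀ r : Qb, W.IsRoot (f0 f) (some r) → g (r : Om) = r) ∧
        ((lam δ : ℤ_[p]) : ℚ_[p]) = (((W.chi p g : ℤ_[p]) : ℚ_[p]) - 1) * D := by
  have : Algebra.IsAlgebraic ℚ Qb := algebraicClosure.isAlgebraic ℚ Om
  let j0 : Qb →ₐ[ℚ] AlgebraicClosure ℚ := IsAlgClosed.lift
  let ι0 : Qb →+* AlgebraicClosure ℚ := j0
  obtain ⟨h0, hP0, R0⟩ := L0 ι0
  obtain ⟨h1, hP1, R1⟩ := L1 ι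
  obtain ⟨w, hw, hwp, hwg⟩ := D263.rat ι0 q
  obtain ⟨w', hw', hwg'⟩ := D215.lift l ι z
  obtain ⟨v0, hv0⟩ := W.t_EX none
  have hv0' : v0 ∈ infPlaces Om := hv0
  refine ⟨w.O, w', ent H h0 v0 w - ent H h1 v0 w', hwp, hw', ?_⟩
  intro σ hσ
  obtain ⟨g, hg1, hg2⟩ := hwg' σ
  obtain ⟨σ0, δ, hs1, hs2, hs3⟩ := hwg g
  have hroot : ∀ r : Qb, W.IsRoot (f0 f) (some r) → g (r : Om) = r := by
    intro r hr
    have e1 := hg1 r ⟨g r, map_Qb g r.2⟩ rfl
    rw [hσ r hr] at e1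
    have e2 := ι.injective e1
    exact (congrArg Subtype.val e2).symm
  have hK : ∀ γ : Gam, lam (W.cj g γ) = (W.chi p g : ℤ_[p]) * lam γ := by
    intro γ
    have e1 := W.f_K2 p (f0 f) (fun γ => ((lam γ : ℤ_[p]) : ℚ_[p]))
      ⟨fun γ δ => by rw [H.add, PadicInt.coe_add],
        continuous_subtype_val.comp H.cont,
        fun a ha v hv γ hγ => by rw [H.unr a ha v hv γ hγ, PadicInt.coe_zero]⟩ g hroot γ
    apply Subtype.ext
    rw [PadicInt.coe_mul]
    exact e1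
  have hgv0 : g • v0 ∈ infPlaces Om := W.isPlace_smul g (a := none) hv0
  have hlv := ksys_level H hn
  have hsemi := semi_ss H hK
  have rel0 := ent_rel H hn hc hP0 (g := g) (σ := (σ0 : AlgebraicClosure ℚ →+* AlgebraicClosure ℚ))
    (x := (W.chi p g : ℤ_[p])) hv0' hgv0 hv0' hw
    (move_above hw hs1 (fun a ha => by
      have ha' : algebraMap ℚ (AlgebraicClosure ℚ) q = a := Option.some.inj ha
      rw [← ha']
      exact σ0.commutes q))
    (R0 g σ0 hs1 (ksys H) (ksys H) hlv hlv (ss _) hsemi v0 hv0' v0 hv0' w hw)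
  have rel1 := ent_rel H hn hc hP1 (g := g)
    (σ := (σ : AlgebraicClosure ℚ_[l] →+* AlgebraicClosure ℚ_[l]))
    (x := (W.chi p g : ℤ_[p])) hv0' hgv0 hv0' hw' (by rw [hg2]; exact hw')
    (R1 g σ hg1 (ksys H) (ksys H) hlv hlv (ss _) hsemi v0 hv0' v0 hv0' w' hw')
  rw [hg2] at rel1
  have e1 := ent_equiv H hn hP0 hv0' hw 1 (jj δ) (by
    change ((1 : geo Om) : GG) • v0 ∈ infPlaces Om
    rw [Subgroup.coe_one, one_smul]
    exact hv0') (move_above hw (fun a b hab => by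
      have h3 : (b : Om) = a := by
        rw [hab]
        exact δ.2 _ a.2
      rw [RingHom.id_apply, Subtype.ext h3]) (fun _ _ => rfl))
  have e2 : ent H h0 (((1 : geo Om) : GG) • v0) (w.move (δ : GG) (RingHom.id _)) +
      ((lam (ii 1) : ℤ_[p]) : ℚ_[p]) = ((lam δ : ℤ_[p]) : ℚ_[p]) + ent H h0 v0 w := e1
  have e3 : lam (ii 1) = 0 := H.one
  rw [e3, PadicInt.coe_zero, add_zero, Subgroup.coe_one, one_smul] at e2
  rw [hs3, e2] at rel0
  refine ⟨g, δ, hg1, hg2, hs2, hroot, ?_⟩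
  linear_combination rel0 - rel1

end Pool.Agent.H577.Kim
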