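import Pool.Agent.H577.Kim.Core

/-!
If the class of a rational point is, at the prime `l`, the class of a point `z` over the field of
`l`-adic numbers, then the function `(t - a) / (t - b)` has the same absolute value at both points.
-/

open scoped Pointwise TensorProduct Topology Polynomial NNReal

noncomputable section

namespace Pool.Agent.H577.Kim

open Y680 Y680.V Polynomial
open Y680.W (GG Gam Qb map_Qb)
open Y680.W.K3 (Cg nu_sub nu_mul Qb_zero)

theorem zeta_pow_eq {K : Type} [Field K] {ζ : K} {m : ℕ} (hζ : ζ ^ m = 1) {a b : ℕ}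
    (h : (a : ZMod m) = (b : ZMod m)) : ζ ^ a = ζ ^ b := by
  rw [ZMod.natCast_eq_natCast_iff] at h
  have h1 : ∀ a : ℕ, ζ ^ a = ζ ^ (a % m) := by
    intro a
    conv_lhs => rw [← Nat.mod_add_div a m, pow_add, pow_mul, hζ, one_pow, mul_one]
  rw [h1 a, h1 b]
  congr 1

variable {p l : ℕ} [Fact p.Prime] [Fact l.Prime] {f : ℤ[X]}

theorem core (hf0 : f0 f ≠ 0) {n : ℕ} (hn : 1 ≤ n)
    {c : GG → Trans p (geo Om) (inert Om f) (ValuationSubring Om) (ValuationSubring Om)}
    (hc : IsCocycle n (infPlaces Om) c) {q : ℚ} {z : Option ℚ_[l]}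
    (L0 : Lies (p := p) (f := f) (C := AlgebraicClosure ℚ) ℚ n c (some q))
    (L1 : Lies (p := p) (f := f) (C := AlgebraicClosure ℚ_[l]) ℚ_[l] n c z)
    (ι : Qb →+* AlgebraicClosure ℚ_[l]) {a b : Qb} (ha : W.IsRoot (f0 f) (some a))
    (hb : W.IsRoot (f0 f) (some b)) (hqa : (q : Qb) ≠ a) (hqb : (q : Qb) ≠ b)
    (E' : AlgebraicClosure ℚ_[l]) (hE' : E' ≠ 0)
    (hval : ∀ w ∈ above (Om := Om) ι (z.map (algebraMap ℚ_[l] (AlgebraicClosure ℚ_[l]))),
      ∃ h : FF a b ∈ w.O, w.φ ⟨_, h⟩ = E') :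
    (Valued.v : Valuation (PadicAlgCl l) ℝ≥0) (ι (((q : Qb) - a) / ((q : Qb) - b))) =
      (Valued.v : Valuation (PadicAlgCl l) ℝ≥0) E' := by
  classical
  have hp : p.Prime := Fact.out
  obtain ⟨lam, y, ζ, hadd, hcont, hunr, hy, hζ, hact⟩ := D79.kchar p a b
  have H : Unr p f lam := by
    refine ⟨hadd, hcont, fun c hc v hv γ hγ => hunr c ?_ ?_ v hv γ hγ⟩
    · rintro rfl
      exact hc ha
    · rintro rfl
      exact hc hb
  obtain ⟨v, w', D, hv, hw', hA⟩ := claimA H hn hc L0 L1 ι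
  obtain ⟨hF', hφF⟩ := hval w' hw'
  -- scale D
  obtain ⟨N, hN⟩ : ∃ N : ℕ, ‖(p : ℚ_[p]) ^ N * D‖ ≤ 1 := by
    obtain ⟨N, hN⟩ := pow_unbounded_of_one_lt ‖D‖ (by exact_mod_cast hp.one_lt : (1 : ℝ) < p)
    refine ⟨N, ?_⟩
    have hp0 : (0 : ℝ) < p := by exact_mod_cast hp.pos
    rw [norm_mul, norm_pow, Padic.norm_p, inv_pow]
    rw [inv_mul_le_iff₀ (by positivity), mul_one]
    exact hN.le
  set D' : ℤ_[p] := ⟨(p : ℚ_[p]) ^ N * D, hN⟩ with hD'
  set E : Qb := ((q : Qb) - a) / ((q : Qb) - b) with hE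
  have hE0 : E ≠ 0 := div_ne_zero (sub_ne_zero.2 hqa) (sub_ne_zero.2 hqb)
  have hιE0 : ι E ≠ 0 := (map_ne_zero ι).2 hE0
  set W0 : AlgebraicClosure ℚ_[l] := (ι E / E') ^ (p ^ N) with hW0
  have hW00 : W0 ≠ 0 := pow_ne_zero _ (div_ne_zero hιE0 hE')
  set S : Finset (AlgebraicClosure ℚ_[l]) := ((f0 f).aroots Qb).toFinset.image ι with hS
  have hSr : ∀ σ : AlgebraicClosure ℚ_[l] ≃ₐ[ℚ_[l]] AlgebraicClosure ℚ_[l],
      (∀ s ∈ S, σ s = s) → ∀ r : Qb, W.IsRoot (f0 f) (some r) → σ (ι r) = ι r := by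
    intro σ hσ r hr
    apply hσ
    rw [hS, Finset.mem_image]
    refine ⟨r, ?_, rfl⟩
    rw [Multiset.mem_toFinset, Polynomial.mem_aroots]
    exact ⟨hf0, hr⟩
  have key := D161.disc l p S W0 hW00 ?_
  · rw [hW0, map_pow, map_div₀] at key
    have h1 := (pow_eq_one_iff.1 key).resolve_right (pow_ne_zero N hp.ne_zero)
    have h2 : (Valued.v : Valuation (PadicAlgCl l) ℝ≥0) E' ≠ 0 := by
      rw [ne_eq, Valuation.zero_iff]
      exact hE'
    exact (div_eq_one_iff_eq h2).1 h1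
  · intro k
    have hpk : 0 < p ^ k := pow_pos hp.pos k
    have hpk0 : p ^ k ≠ 0 := hpk.ne'
    set yk := y k with hyk
    have hyF : yk ^ (p ^ k) = FF a b := hy k
    have hCg := cg_FF hv hqa hqb
    have hy0 : yk ≠ 0 := by
      intro h
      rw [h, zero_pow hpk0] at hyF
      exact hCg.a0 hyF.symm
    have hζQ : ζ k ∈ Qb := by
      rw [mem_algebraicClosure_iff]
      refine IsAlgebraic.of_pow hpk ?_
      rw [(hζ k).pow_eq_one]
      exact isAlgebraic_one
    set ζk : Qb := ⟨ζ k, hζQ⟩ with hζk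
    have hζk1 : ζk ^ (p ^ k) = 1 := by
      apply Subtype.ext
      change (ζ k) ^ (p ^ k) = 1
      exact (hζ k).pow_eq_one
    have hζk0 : ι ζk ≠ 0 := by
      intro h
      have h1 := congrArg ι hζk1
      rw [map_pow, h, zero_pow hpk0, map_one] at h1
      exact zero_ne_one h1
    obtain ⟨ε, hε, hεE⟩ := resid hv hpk hyF hCg
    have hyw' : yk ∈ w'.O := mem_of_pow hpk (by rw [hyF]; exact hF')
    set e' : AlgebraicClosure ℚ_[l] := w'.φ ⟨yk, hyw'⟩ with he'
    have he'E : e' ^ (p ^ k) = E' := by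
      rw [he', ← map_pow, ← hφF]
      congr 1
      apply Subtype.ext
      exact hyF
    have he'0 : e' ≠ 0 := by
      intro h
      rw [h, zero_pow hpk0] at he'E
      exact hE' he'E.symm
    have hιε : (ι ε) ^ (p ^ k) = ι E := by rw [← map_pow, hεE]
    set R : AlgebraicClosure ℚ_[l] := ι ε / e' with hR
    set dk := (PadicInt.toZModPow k D').val with hdk
    refine ⟨R ^ (p ^ N) * (ι ζk) ^ dk, ?_, ?_⟩
    · rw [mul_pow, ← pow_mul, ← pow_mul, mul_comm dk, pow_mul (ι ζk), ← map_pow ι ζk, hζk1,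
        map_one, one_pow, mul_one, mul_comm (p ^ N), pow_mul, hR, div_pow, hιε, he'E, hW0]
    · intro σ hσ
      obtain ⟨g, δ, hg1, hg2, hg3, hg4, hg5⟩ := hA σ (hSr σ hσ)
      -- the root of unity
      set η0 : Om := g yk / yk with hη0
      have hgy : g yk = η0 * yk := by rw [hη0, div_mul_cancel₀ _ hy0]
      have hη1 : η0 ^ (p ^ k) = 1 := by
        rw [hη0, div_pow, ← map_pow, hyF, g_FF (hg4 a ha) (hg4 b hb), div_self hCg.a0]
      have hηQ : η0 ∈ Qb := by
        rw [mem_algebraicClosure_iff]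
        refine IsAlgebraic.of_pow hpk ?_
        rw [hη1]
        exact isAlgebraic_one
      set η : Qb := ⟨η0, hηQ⟩ with hη
      have hη0' : ι η ≠ 0 := by
        have h1 : η ^ (p ^ k) = 1 := Subtype.ext hη1
        intro h
        have h2 := congrArg ι h1
        rw [map_pow, h, zero_pow hpk0, map_one] at h2
        exact zero_ne_one h2
      set m := (PadicInt.toZModPow k (lam δ)).val with hm
      have r1 := resid_move hv (e := ε) (ζ := ζk) (η := η) hε hg3 (m := m) (hact δ k) hgy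
      have r2 : (ι ζk) ^ m * ι (⟨g ε, map_Qb g ε.2⟩ : Qb) = ι η * ι ε := by
        rw [← map_pow, ← map_mul, r1, map_mul]
      have r3 : σ (ι ε) = ι (⟨g ε, map_Qb g ε.2⟩ : Qb) := hg1 ε _ rfl
      have r4 : σ e' = ι η * e' := by
        obtain ⟨h2, h3⟩ := move_val (g := g)
          (σ := (σ : AlgebraicClosure ℚ_[l] →+* AlgebraicClosure ℚ_[l])) hg2 hyw'
        have h4 : w'.φ ⟨g yk, h2⟩ = ι η * e' := by
          obtain ⟨m1, m2⟩ := hw'.1 η
          rw [← m2, he', ← map_mul]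
          congr 1
          apply Subtype.ext
          exact hgy
        rw [h4] at h3
        exact h3.symm
      have r5 : (ι ζk) ^ m * σ R = R := by
        rw [hR, map_div₀, r3, r4]
        rw [mul_div_assoc', r2, mul_div_mul_left _ _ hη0']
      have r6 : σ (ι ζk) = (ι ζk) ^ (PadicInt.toZModPow k (W.chi p g : ℤ_[p])).val := by
        rw [hg1 ζk (ζk ^ (PadicInt.toZModPow k (W.chi p g : ℤ_[p])).val) ?_, map_pow]
        have h1 := cyclotomicCharacter.spec p (g : Om ≃+* Om) (ζ k) (n := k) (hζ k).pow_eq_one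
        change (ζ k) ^ _ = g (ζ k)
        exact h1.symm
      -- the exponents
      have r7 : ((dk + m * p ^ N : ℕ) : ZMod (p ^ k)) =
          (((PadicInt.toZModPow k (W.chi p g : ℤ_[p])).val * dk : ℕ) : ZMod (p ^ k)) := by
        have : NeZero (p ^ k) := ⟨hpk0⟩
        have h1 : D' + lam δ * (p : ℤ_[p]) ^ N = (W.chi p g : ℤ_[p]) * D' := by
          apply Subtype.ext
          change (p : ℚ_[p]) ^ N * D + ((lam δ : ℤ_[p]) : ℚ_[p]) * (((p : ℤ_[p]) ^ N : ℤ_[p]) : ℚ_[p])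
            = ((W.chi p g : ℤ_[p]) : ℚ_[p]) * ((p : ℚ_[p]) ^ N * D)
          rw [hg5]
          push_cast
          ring
        have h2 := congrArg (PadicInt.toZModPow k) h1
        rw [map_add, map_mul, map_mul, map_pow, map_natCast] at h2
        push_cast
        rw [ZMod.natCast_zmod_val, ZMod.natCast_zmod_val, ZMod.natCast_zmod_val]
        exact h2
      have r8 := zeta_pow_eq (ζ := ι ζk) (m := p ^ k) (by rw [← map_pow, hζk1, map_one]) r7
      have r9 : (ι ζk) ^ (m * p ^ N) ≠ 0 := pow_ne_zero _ hζk0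
      apply mul_left_cancel₀ r9
      calc (ι ζk) ^ (m * p ^ N) * σ (R ^ (p ^ N) * (ι ζk) ^ dk)
          = ((ι ζk) ^ m * σ R) ^ (p ^ N) * (σ (ι ζk)) ^ dk := by
            rw [map_mul, map_pow, map_pow, mul_pow, ← pow_mul]
            ring
        _ = R ^ (p ^ N) * (ι ζk) ^ ((PadicInt.toZModPow k (W.chi p g : ℤ_[p])).val * dk) := by
            rw [r5, r6, ← pow_mul]
        _ = R ^ (p ^ N) * (ι ζk) ^ (dk + m * p ^ N) := by rw [r8]
        _ = (ι ζk) ^ (m * p ^ N) * (R ^ (p ^ N) * (ι ζk) ^ dk) := by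
            rw [pow_add]
            ring

end Pool.Agent.H577.Kim
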