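import Pool.Agent.H577.Kim.Final

/-!
If `f` is modulo no prime a power of a linear polynomial, then only the integral points are in the
Selmer scheme.
-/

open scoped Polynomial

noncomputable section

namespace Pool.Agent.H577.Kim

open Y680 Y680.V Polynomial

theorem form_root' {R : Type} [CommRing R] (f : ℤ[X]) (a y : R) :
    form f (a * y) y = y ^ f.natDegree * Polynomial.eval₂ (Int.castRingHom R) a f := by
  rw [Polynomial.eval₂_eq_sum_range, Finset.mul_sum]
  unfold form
  refine Finset.sum_congr rfl fun i hi => ?_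
  have hi' : i ≤ f.natDegree := Nat.lt_succ_iff.1 (Finset.mem_range.1 hi)
  have e : y ^ f.natDegree = y ^ (f.natDegree - i) * y ^ i := by
    rw [← pow_add, Nat.sub_add_cancel hi']
  rw [e, mul_pow, eq_intCast]
  ring

theorem form_y_zero {R : Type} [CommRing R] {f : ℤ[X]} (hf : f.Monic) (x : R) :
    form f x 0 = x ^ f.natDegree := by
  unfold form
  rw [Finset.sum_range_succ, Finset.sum_eq_zero, zero_add, Nat.sub_self, pow_zero, mul_one,
    hf.coeff_natDegree]
  · simp
  · intro i hi
    rw [Finset.mem_range] at hi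
    rw [zero_pow (by omega), mul_zero]

theorem power_of_crit {f : ℤ[X]} (hf : f.Monic) {l : ℕ} (hl : l.Prime) {x y : ℤ}
    (hxy : IsCoprime x y) (hd : 0 < f.natDegree) (hlF : (l : ℤ) ∣ form f x y)
    (h : ∀ j ≤ f.natDegree,
      form f x y ^ j ∣ (form f (C x + X) (C y)).coeff (f.natDegree - j) ^ f.natDegree) :
    ∃ a : ZMod l, f.map (Int.castRingHom (ZMod l)) = (X - C a) ^ f.natDegree := by
  have : Fact l.Prime := ⟨hl⟩
  set G := GG' f x y with hG
  have hGi : ∀ i < f.natDegree, ((G.coeff i : ℤ) : ZMod l) = 0 := by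
    intro i hi
    rw [ZMod.intCast_zmod_eq_zero_iff_dvd]
    have h2 := h (f.natDegree - i) (Nat.sub_le _ _)
    rw [Nat.sub_sub_self hi.le] at h2
    have h3 : (l : ℤ) ∣ G.coeff i ^ f.natDegree :=
      ((dvd_pow_self _ (by omega)).trans (pow_dvd_pow_of_dvd hlF _)).trans h2
    exact (Nat.prime_iff_prime_int.1 hl).dvd_of_dvd_pow h3
  have hGX : G.map (Int.castRingHom (ZMod l)) = X ^ f.natDegree := by
    ext i
    rw [Polynomial.coeff_map, Polynomial.coeff_X_pow, eq_intCast]
    split_ifs with hi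
    · rw [hi, hG, GG'_lead hf, Int.cast_one]
    · rcases lt_or_gt_of_ne hi with h3 | h3
      · exact hGi i h3
      · rw [Polynomial.coeff_eq_zero_of_natDegree_lt
          ((GG'_natDegree f x y).trans_lt h3), Int.cast_zero]
  set K := ZMod l with hK
  set x0 : K := (x : K) with hx0
  set y0 : K := (y : K) with hy0
  -- the image of G under a substitution
  have hsub : ∀ u : K[X], form f (C x0 + u) (C y0) = u ^ f.natDegree := by
    intro u
    have h1 := form_map (Polynomial.eval₂RingHom ((C : K →+* K[X]).comp (Int.castRingHom K)) u) f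
      (C x + X) (C y)
    simp only [Polynomial.coe_eval₂RingHom, Polynomial.eval₂_add, Polynomial.eval₂_C,
      Polynomial.eval₂_X, RingHom.comp_apply] at h1
    have h2 : Polynomial.eval₂ ((C : K →+* K[X]).comp (Int.castRingHom K)) u G =
        u ^ f.natDegree := by
      rw [← Polynomial.eval₂_map, hGX, Polynomial.eval₂_pow, Polynomial.eval₂_X]
    have h3 : Polynomial.eval₂ ((C : K →+* K[X]).comp (Int.castRingHom K)) u G =
        form f (C (Int.castRingHom K x) + u) (C (Int.castRingHom K y)) := h1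
    rw [h2] at h3
    exact h3.symm
  have hyne : y0 ≠ 0 := by
    intro h0
    have h1 := hsub 0
    rw [h0, C_0, add_zero, form_y_zero hf, zero_pow hd.ne', ← C_pow, C_eq_zero] at h1
    have h2 : x0 = 0 := pow_eq_zero_iff hd.ne' |>.1 h1
    obtain ⟨a, b, hab⟩ := hxy
    have h3 : (1 : K) = 0 := by
      have h5 : (((a * x + b * y : ℤ)) : K) = ((1 : ℤ) : K) := by rw [hab]
      rw [Int.cast_add, Int.cast_mul, Int.cast_mul, Int.cast_one] at h5
      have h6 : (a : K) * x0 + (b : K) * y0 = 1 := h5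
      rw [h2, h0, mul_zero, mul_zero, add_zero] at h6
      exact h6.symm
    exact one_ne_zero h3
  refine ⟨x0 / y0, ?_⟩
  have h1 := hsub (C y0 * X - C x0)
  have h2 : (C x0 + (C y0 * X - C x0) : K[X]) = X * C y0 := by ring
  rw [h2, form_root'] at h1
  have h3 : Polynomial.eval₂ (Int.castRingHom K[X]) X f = f.map (Int.castRingHom K) := by
    have e1 : (Int.castRingHom K[X]) = (C : K →+* K[X]).comp (Int.castRingHom K) :=
      RingHom.ext_int _ _
    rw [e1, ← Polynomial.eval₂_map]
    exact Polynomial.eval₂_C_X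
  have h4 : (C y0 * X - C x0 : K[X]) = C y0 * (X - C (x0 / y0)) := by
    rw [mul_sub, ← C_mul, mul_div_cancel₀ _ hyne]
  rw [h3, h4, mul_pow] at h1
  have h5 : (C y0 : K[X]) ^ f.natDegree ≠ 0 := pow_ne_zero _ (C_ne_zero.2 hyne)
  exact mul_left_cancel₀ h5 h1

theorem inSelmer_iff_unit {f : ℤ[X]} {p : ℕ} [Fact p.Prime] (hf : Admissible f p)
    (h : ∀ l : ℕ, l.Prime → l ≠ p → ∀ a : ZMod l,
      f.map (Int.castRingHom (ZMod l)) ≠ (X - C a) ^ f.natDegree) {n : ℕ} (hn : 1 ≤ n)
    {x y : ℤ} (hxy : IsCoprime x y) (hF : ¬ (p : ℤ) ∣ form f x y) {z : Option ℚ}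
    (hz : IsPt z (x : ℚ) (y : ℚ)) : InSelmer f p n z ↔ IsUnit (form f x y) := by
  have hd := hf.deg
  constructor
  · intro h1
    have h2 := crit_of_inSelmer hf hn hF hz h1
    by_contra hu
    have h3 : (form f x y).natAbs ≠ 1 := by
      rwa [Ne, ← Int.isUnit_iff_natAbs_eq]
    obtain ⟨l, hl, hlF⟩ := Nat.exists_prime_and_dvd h3
    have hlF' : (l : ℤ) ∣ form f x y := Int.natCast_dvd.2 hlF
    have hlp : l ≠ p := by
      rintro rfl
      exact hF hlF'
    obtain ⟨a, ha⟩ := power_of_crit hf.monic hl hxy (by omega) hlF' h2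
    exact h l hl hlp a ha
  · intro hu
    refine inSelmer_of_crit hf n hF hz ?_
    intro j _
    exact (hu.pow j).dvd

end Pool.Agent.H577.Kim
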