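import Pool.Agent.H577.Kim.Main

/-!
An elementary criterion for unit ratios, and failure of the conjecture.
-/

open scoped Polynomial

noncomputable section

namespace Pool.Agent.H577.Kim

open Y680 Y680.V Polynomial

theorem form_root {K : Type} [Field K] (f : ℤ[X]) (a y : K) :
    form f (a * y) y = y ^ f.natDegree * Polynomial.eval₂ (Int.castRingHom K) a f := by
  rw [Polynomial.eval₂_eq_sum_range, Finset.mul_sum]
  unfold form
  refine Finset.sum_congr rfl fun i hi => ?_
  have hi' : i ≤ f.natDegree := Nat.lt_succ_iff.1 (Finset.mem_range.1 hi)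
  have e : y ^ f.natDegree = y ^ (f.natDegree - i) * y ^ i := by
    rw [← pow_add, Nat.sub_add_cancel hi']
  rw [e, mul_pow, eq_intCast]
  ring

/-- the polynomial F(x + T, y) -/
def GG' (f : ℤ[X]) (x y : ℤ) : ℤ[X] := form f (C x + X) (C y)

theorem term_natDegree (c x y : ℤ) (i k : ℕ) :
    (((c : ℤ) : ℤ[X]) * (C x + X) ^ i * (C y) ^ k).natDegree ≤ i := by
  have h1 : (((c : ℤ) : ℤ[X])).natDegree = 0 := Polynomial.natDegree_intCast c
  have h2 : ((C x + X : ℤ[X]) ^ i).natDegree ≤ i := by
    refine Polynomial.natDegree_pow_le.trans ?_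
    have : (C x + X : ℤ[X]).natDegree = 1 := by
      rw [add_comm]; exact Polynomial.natDegree_X_add_C x
    rw [this, mul_one]
  have h3 : ((C y : ℤ[X]) ^ k).natDegree = 0 := by
    rw [← C_pow]; exact Polynomial.natDegree_C _
  calc _ ≤ (((c : ℤ) : ℤ[X]) * (C x + X) ^ i).natDegree + ((C y : ℤ[X]) ^ k).natDegree :=
        Polynomial.natDegree_mul_le
    _ ≤ (((c : ℤ) : ℤ[X])).natDegree + ((C x + X : ℤ[X]) ^ i).natDegree + 0 := by
        rw [h3]; exact Nat.add_le_add_right Polynomial.natDegree_mul_le _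
    _ ≤ i := by rw [h1]; omega

theorem GG'_natDegree (f : ℤ[X]) (x y : ℤ) : (GG' f x y).natDegree ≤ f.natDegree := by
  unfold GG' form
  refine Polynomial.natDegree_sum_le_of_forall_le _ _ fun i hi => ?_
  exact (term_natDegree _ _ _ _ _).trans (Nat.lt_succ_iff.1 (Finset.mem_range.1 hi))

theorem GG'_lead {f : ℤ[X]} (hf : f.Monic) (x y : ℤ) : (GG' f x y).coeff f.natDegree = 1 := by
  unfold GG' form
  rw [Finset.sum_range_succ, Polynomial.coeff_add, Polynomial.finsetSum_coeff,
    Finset.sum_eq_zero, zero_add, Nat.sub_self, pow_zero, mul_one, hf.coeff_natDegree]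
  · have h1 : (C x + X : ℤ[X]) ^ f.natDegree = (X + C x) ^ f.natDegree := by rw [add_comm]
    rw [Int.cast_one, one_mul, h1]
    have h2 : ((X + C x : ℤ[X]) ^ f.natDegree).Monic := (Polynomial.monic_X_add_C x).pow _
    have h3 : ((X + C x : ℤ[X]) ^ f.natDegree).natDegree = f.natDegree := by
      rw [(Polynomial.monic_X_add_C x).natDegree_pow, Polynomial.natDegree_X_add_C, mul_one]
    have := h2.coeff_natDegree
    rwa [h3] at this
  · intro i hi
    rw [Finset.mem_range] at hi
    exact Polynomial.coeff_eq_zero_of_natDegree_lt ((term_natDegree _ _ _ _ _).trans_lt hi)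

theorem GG'_zero (f : ℤ[X]) (x y : ℤ) : (GG' f x y).coeff 0 = form f x y := by
  rw [Polynomial.coeff_zero_eq_eval_zero]
  have h1 := form_map (Polynomial.evalRingHom (0 : ℤ)) f (C x + X) (C y)
  simp only [Polynomial.coe_evalRingHom, Polynomial.eval_add, Polynomial.eval_C,
    Polynomial.eval_X, add_zero] at h1
  exact h1

theorem GG'_root {f : ℤ[X]} {x y : ℤ} {a : ℂ} (ha : Polynomial.aeval a f = 0) :
    Polynomial.eval₂ (Int.castRingHom ℂ) (-((x : ℂ) - a * y)) (GG' f x y) = 0 := by
  have h1 := form_map (Polynomial.eval₂RingHom (Int.castRingHom ℂ) (-((x : ℂ) - a * y))) f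
    (C x + X) (C y)
  simp only [Polynomial.coe_eval₂RingHom, Polynomial.eval₂_add, Polynomial.eval₂_C,
    Polynomial.eval₂_X] at h1
  have h2 : (Int.castRingHom ℂ) x + -((x : ℂ) - a * y) = a * (Int.castRingHom ℂ) y := by
    rw [eq_intCast, eq_intCast]
    ring
  rw [h2, form_root] at h1
  have h3 : Polynomial.eval₂ (Int.castRingHom ℂ) a f = 0 := ha
  rw [h3, mul_zero] at h1
  exact h1

/-- An elementary criterion: if, for all `j`, the `d`-th power of the coefficient of `T ^ (d - j)`
in the polynomial F(x + T, y) is divisible by the `j`-th power of F(x, y), then all ratios of the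
`x - a * y` are units. -/
theorem unitRatios_of {f : ℤ[X]} (hf : f.Monic) {x y : ℤ} (hF : form f x y ≠ 0)
    (h : ∀ j ≤ f.natDegree,
      form f x y ^ j ∣ (form f (C x + X) (C y)).coeff (f.natDegree - j) ^ f.natDegree) :
    UnitRatios f x y := by
  intro a b ha hb
  have hd : 0 < f.natDegree := by
    rcases Nat.eq_zero_or_pos f.natDegree with h0 | h0
    · exfalso
      rw [hf.natDegree_eq_zero.1 h0] at ha
      simp at ha
    · exact h0
  set d := f.natDegree with hdd
  set m := form f x y with hm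
  have hm0 : (m : ℂ) ≠ 0 := by exact_mod_cast hF
  obtain ⟨μ, hμ⟩ := IsAlgClosed.exists_pow_nat_eq (m : ℂ) hd
  have hμ0 : μ ≠ 0 := by
    rintro rfl
    rw [zero_pow hd.ne'] at hμ
    exact hm0 hμ.symm
  set G := GG' f x y with hG
  have hGd : G.natDegree < d + 1 := Nat.lt_succ_of_le (GG'_natDegree f x y)
  -- the coefficients
  have hc : ∀ i ≤ d, IsIntegral ℤ ((G.coeff i : ℂ) / μ ^ (d - i)) := by
    intro i hi
    apply IsIntegral.of_pow hd
    obtain ⟨k, hk⟩ := h (d - i) (Nat.sub_le _ _)
    rw [Nat.sub_sub_self hi] at hk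
    have e1 : ((G.coeff i : ℂ) / μ ^ (d - i)) ^ d = (k : ℂ) := by
      rw [div_pow, ← pow_mul, mul_comm (d - i) d, pow_mul, hμ,
        div_eq_iff (pow_ne_zero _ hm0), mul_comm]
      exact_mod_cast hk
    rw [e1]
    exact isIntegral_algebraMap (A := ℂ) (x := k)
  have key : ∀ a : ℂ, Polynomial.aeval a f = 0 →
      ∑ i ∈ Finset.range (d + 1), (G.coeff i : ℂ) / μ ^ (d - i) *
        (-((x : ℂ) - a * y) / μ) ^ i = 0 := by
    intro a ha
    have h1 := GG'_root (x := x) (y := y) ha
    rw [Polynomial.eval₂_eq_sum_range' _ hGd] at h1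
    have h2 : ∀ i ∈ Finset.range (d + 1), (G.coeff i : ℂ) / μ ^ (d - i) *
        (-((x : ℂ) - a * y) / μ) ^ i =
        (Int.castRingHom ℂ (G.coeff i) * (-((x : ℂ) - a * y)) ^ i) / μ ^ d := by
      intro i hi
      have hi' : i ≤ d := Nat.lt_succ_iff.1 (Finset.mem_range.1 hi)
      have e : μ ^ d = μ ^ (d - i) * μ ^ i := by rw [← pow_add, Nat.sub_add_cancel hi']
      rw [e, div_pow, div_mul_div_comm]
      rfl
    rw [Finset.sum_congr rfl h2, ← Finset.sum_div, h1, zero_div]
  have hint : ∀ a : ℂ, Polynomial.aeval a f = 0 → IsIntegral ℤ (-((x : ℂ) - a * y) / μ) := by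
    intro a ha
    have h1 := key a ha
    set w := -((x : ℂ) - a * y) / μ with hw
    -- a monic polynomial over the integral closure
    let B := integralClosure ℤ ℂ
    have h2 : IsIntegral B w := by
      let P : B[X] := X ^ d + ∑ i : Fin d, C (⟨(G.coeff i : ℂ) / μ ^ (d - i), hc i i.2.le⟩ : B) *
        X ^ (i : ℕ)
      refine ⟨P, ?_, ?_⟩
      · apply Polynomial.monic_X_pow_add
        exact Polynomial.degree_sum_fin_lt _
      · rw [Polynomial.eval₂_add, Polynomial.eval₂_pow, Polynomial.eval₂_X,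
          Polynomial.eval₂_finsetSum]
        have h3 : ∀ i : Fin d, Polynomial.eval₂ (algebraMap B ℂ) w
            (C (⟨(G.coeff i : ℂ) / μ ^ (d - i), hc i i.2.le⟩ : B) * X ^ (i : ℕ)) =
            (G.coeff i : ℂ) / μ ^ (d - i) * w ^ (i : ℕ) := by
          intro i
          rw [Polynomial.eval₂_mul, Polynomial.eval₂_C, Polynomial.eval₂_pow,
            Polynomial.eval₂_X]
          rfl
        rw [Finset.sum_congr rfl fun i _ => h3 i,
          Fin.sum_univ_eq_sum_range (fun i => (G.coeff i : ℂ) / μ ^ (d - i) * w ^ i) d]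
        rw [Finset.sum_range_succ, GG'_lead hf, Nat.sub_self, pow_zero, Int.cast_one, div_one,
          one_mul] at h1
        rw [add_comm]
        exact h1
    exact isIntegral_trans w h2
  have hinv : ∀ a : ℂ, Polynomial.aeval a f = 0 → IsIntegral ℤ (-((x : ℂ) - a * y) / μ)⁻¹ := by
    intro a ha
    have h1 := key a ha
    have hw' := hint a ha
    set w := -((x : ℂ) - a * y) / μ with hw
    rw [Finset.sum_range_succ', Nat.sub_zero, pow_zero, mul_one, hG, GG'_zero, ← hG, ← hm, hμ,
      div_self hm0] at h1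
    have h2 : (∑ i ∈ Finset.range d, (G.coeff (i + 1) : ℂ) / μ ^ (d - (i + 1)) * w ^ i) * w =
        -1 := by
      rw [Finset.sum_mul]
      have : ∀ i ∈ Finset.range d, (G.coeff (i + 1) : ℂ) / μ ^ (d - (i + 1)) * w ^ i * w =
          (G.coeff (i + 1) : ℂ) / μ ^ (d - (i + 1)) * w ^ (i + 1) := by
        intro i _
        rw [pow_succ]
        ring
      rw [Finset.sum_congr rfl this]
      linear_combination h1
    have h3 : w⁻¹ = -(∑ i ∈ Finset.range d, (G.coeff (i + 1) : ℂ) / μ ^ (d - (i + 1)) * w ^ i) := by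
      apply inv_eq_of_mul_eq_one_left
      linear_combination -h2
    rw [h3]
    apply IsIntegral.neg
    apply IsIntegral.sum
    intro i hi
    exact (hc (i + 1) (Finset.mem_range.1 hi)).mul (hw'.pow i)
  have e : ((x : ℂ) - a * y) / ((x : ℂ) - b * y) =
      (-((x : ℂ) - a * y) / μ) * (-((x : ℂ) - b * y) / μ)⁻¹ := by
    rw [inv_div, div_mul_div_comm, mul_comm μ, mul_div_mul_right _ _ hμ0, neg_div_neg_eq]
  rw [e]
  exact (hint a ha).mul (hinv b hb)

/-- The conjecture fails for `f` and `p` if there is a rational point which is not integral,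
which is integral at `p`, and which has unit ratios. -/
theorem failure {f : ℤ[X]} {p : ℕ} [Fact p.Prime] (hf : Admissible f p) {x y : ℤ}
    (hxy : IsCoprime x y) (hF : ¬ (p : ℤ) ∣ form f x y) (hU : UnitRatios f x y)
    (hN : ¬ IsUnit (form f x y)) (n : ℕ) :
    intPts f p ⊂ weaklyGlobal (AlgebraicClosure (RatFunc ℚ)) f p n := by
  rw [Set.ssubset_iff_of_subset (intPts_subset n)]
  have hy : y ≠ 0 := by
    rintro rfl
    apply hN
    have h1 : IsUnit x := isCoprime_zero_right.1 hxy
    have h2 := form_root f (0 : ℚ) 0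
    have : form f x 0 = x ^ f.natDegree := by
      unfold form
      rw [Finset.sum_range_succ, Finset.sum_eq_zero, zero_add, Nat.sub_self, pow_zero, mul_one,
        hf.monic.coeff_natDegree]
      · simp
      · intro i hi
        rw [Finset.mem_range] at hi
        rw [zero_pow (by omega), mul_zero]
    rw [this]
    exact h1.pow _
  have hy' : (y : ℚ_[p]) ≠ 0 := by exact_mod_cast hy
  refine ⟨some ((x : ℚ_[p]) / (y : ℚ_[p])), inclusion hf hF hU n _ (Or.inr ⟨hy', rfl⟩), ?_⟩
  rintro ⟨x', y', hu, hz⟩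
  rcases hz with ⟨_, h⟩ | ⟨hy1, h⟩
  · exact absurd h (by simp)
  · have h1 := Option.some.inj h
    rw [div_eq_div_iff hy' hy1] at h1
    have h2 : x * y' = x' * y := by exact_mod_cast h1
    have h3 : y ∣ y' := by
      have : y ∣ x * y' := ⟨x', by rw [h2]; ring⟩
      exact hxy.symm.dvd_of_dvd_mul_left this
    obtain ⟨k, rfl⟩ := h3
    have h4 : x' = k * x := by
      have : y * (x' - k * x) = 0 := by linear_combination -h2
      rcases mul_eq_zero.1 this with h5 | h5
      · exact absurd h5 hy
      · linarith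
    subst h4
    apply hN
    have h5 : form f (k * x) (y * k) = k ^ f.natDegree * form f x y := by
      unfold form
      rw [Finset.mul_sum]
      refine Finset.sum_congr rfl fun i hi => ?_
      have hi' : i ≤ f.natDegree := Nat.lt_succ_iff.1 (Finset.mem_range.1 hi)
      have e : k ^ f.natDegree = k ^ (f.natDegree - i) * k ^ i := by
        rw [← pow_add, Nat.sub_add_cancel hi']
      rw [e, mul_pow, mul_pow]
      ring
    rw [h5] at hu
    exact isUnit_of_mul_isUnit_right hu

theorem GG'_zero_one {f : ℤ[X]} : form f (C (0 : ℤ) + X) (C (1 : ℤ)) = f := by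
  unfold form
  rw [C_0, zero_add, C_1]
  conv_rhs => rw [f.as_sum_range_C_mul_X_pow]
  refine Finset.sum_congr rfl fun i _ => ?_
  rw [one_pow, mul_one]
  rfl

theorem form_zero_one (f : ℤ[X]) : form f (0 : ℤ) 1 = f.coeff 0 := by
  have := GG'_zero f 0 1
  unfold GG' at this
  rw [GG'_zero_one] at this
  exact this.symm

/-- The conjecture fails if the constant coefficient `m` of `f` is not a unit and, for all `j`, the
`d`-th power of the coefficient of `X ^ (d - j)` in `f` is divisible by `m ^ j`; in particular, if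
all coefficients of `f` but the leading one are divisible by `m`. -/
theorem failure_zero {f : ℤ[X]} {p : ℕ} [Fact p.Prime] (hf : Admissible f p)
    (h0 : 2 ≤ |f.coeff 0|)
    (h : ∀ j ≤ f.natDegree, f.coeff 0 ^ j ∣ f.coeff (f.natDegree - j) ^ f.natDegree) (n : ℕ) :
    intPts f p ⊂ weaklyGlobal (AlgebraicClosure (RatFunc ℚ)) f p n := by
  have hp : p.Prime := Fact.out
  have hd := hf.deg
  have hm0 : f.coeff 0 ≠ 0 := by
    intro h1
    rw [h1] at h0
    simp at h0
  have hF : form f (0 : ℤ) 1 = f.coeff 0 := form_zero_one f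
  refine failure hf (x := 0) (y := 1) isCoprime_one_right ?_ ?_ ?_ n
  · rw [hF]
    intro hp0
    have h1 : ∀ i < f.natDegree, ((f.coeff i : ℤ) : ZMod p) = 0 := by
      intro i hi
      rw [ZMod.intCast_zmod_eq_zero_iff_dvd]
      have h2 := h (f.natDegree - i) (Nat.sub_le _ _)
      rw [Nat.sub_sub_self hi.le] at h2
      have h3 : (p : ℤ) ∣ f.coeff i ^ f.natDegree :=
        ((dvd_pow_self _ (by omega)).trans (pow_dvd_pow_of_dvd hp0 _)).trans h2
      exact (Nat.prime_iff_prime_int.1 hp).dvd_of_dvd_pow h3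
    have h2 : f.map (Int.castRingHom (ZMod p)) = X ^ f.natDegree := by
      ext i
      rw [Polynomial.coeff_map, Polynomial.coeff_X_pow, eq_intCast]
      split_ifs with hi
      · rw [hi, hf.monic.coeff_natDegree, Int.cast_one]
      · rcases lt_or_gt_of_ne hi with h3 | h3
        · exact h1 i h3
        · rw [Polynomial.coeff_eq_zero_of_natDegree_lt h3, Int.cast_zero]
    have h3 := hf.good
    rw [h2] at h3
    have h4 := h3.squarefree X ⟨X ^ (f.natDegree - 2), by
      rw [← sq, ← pow_add]
      congr 1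
      omega⟩
    exact Polynomial.not_isUnit_X h4
  · refine unitRatios_of hf.monic ?_ ?_
    · rw [hF]
      exact hm0
    · intro j hj
      rw [hF, GG'_zero_one]
      exact h j hj
  · rw [hF]
    intro h1
    rcases Int.isUnit_iff.1 h1 with h2 | h2 <;> rw [h2] at h0 <;> norm_num at h0

end Pool.Agent.H577.Kim
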