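import Pool.Agent.H577.Kim.Core2
import Pool.Agent.H577.Kim.Crit
import Pool.Agent.H577.Kim.Done.NORM
import Pool.Agent.H577.Kim.Done.INT

/-!
The exact criterion for rational points.
-/

open scoped Pointwise TensorProduct Topology Polynomial NNReal

noncomputable section

namespace Pool.Agent.H577.Kim

open Y680 Y680.V Polynomial
open Y680.W (GG Gam Qb map_Qb)

/-- The class of the rational point `z` (over the rationals) in the unipotent fundamental group of
level `n` belongs to the Selmer scheme: at every prime `l` other than `p` it is the class of an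
integral point over the `l`-adic integers. -/
def InSelmer (f : ℤ[X]) (p : ℕ) [Fact p.Prime] (n : ℕ) (z : Option ℚ) : Prop :=
  ∃ c : (AlgebraicClosure (RatFunc ℚ) ≃ₐ[RatFunc ℚ] AlgebraicClosure (RatFunc ℚ)) →
      Trans p (geo (AlgebraicClosure (RatFunc ℚ))) (inert (AlgebraicClosure (RatFunc ℚ)) f)
        (ValuationSubring (AlgebraicClosure (RatFunc ℚ)))
        (ValuationSubring (AlgebraicClosure (RatFunc ℚ))),
    IsCocycle n (infPlaces (AlgebraicClosure (RatFunc ℚ))) c ∧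
    Lies (C := AlgebraicClosure ℚ) ℚ n c z ∧
    ∀ (l : ℕ) [Fact l.Prime], l ≠ p → ∃ z' ∈ intPtsAt f l,
      Lies (C := AlgebraicClosure ℚ_[l]) ℚ_[l] n c z'

theorem phi_div {C : Type} [Field C] (w : Place Om C) {u d : Om} {U D : C}
    (hu : ∃ h : u ∈ w.O, w.φ ⟨u, h⟩ = U) (hd : ∃ h : d ∈ w.O, w.φ ⟨d, h⟩ = D) (hD : D ≠ 0) :
    ∃ h : u / d ∈ w.O, w.φ ⟨u / d, h⟩ = U / D := by
  obtain ⟨hu, hu'⟩ := hu
  obtain ⟨hd, hd'⟩ := hd
  have h1 : d ∉ w.O.nonunits := by
    intro h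
    apply hD
    rw [← hd']
    exact (w.ker ⟨d, hd⟩).2 h
  rw [ValuationSubring.mem_nonunits_iff_or] at h1
  push Not at h1
  have h2 : d⁻¹ ∈ w.O := h1.2
  have h3 : u / d ∈ w.O := by
    rw [div_eq_mul_inv]
    exact mul_mem hu h2
  refine ⟨h3, ?_⟩
  rw [eq_div_iff hD, ← hd', ← map_mul, ← hu']
  congr 1
  apply Subtype.ext
  change u / d * d = u
  exact div_mul_cancel₀ _ h1.1

/-- the value of (t - a) / (t - b) at an integral point is a unit -/
theorem int_val {l : ℕ} [Fact l.Prime] {f : ℤ[X]} (hf : f.Monic) {z : Option ℚ_[l]}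
    (hz : z ∈ intPtsAt f l) (ι : Qb →+* AlgebraicClosure ℚ_[l]) {a b : Qb}
    (ha : W.IsRoot (f0 f) (some a)) (hb : W.IsRoot (f0 f) (some b)) :
    ∃ E' : AlgebraicClosure ℚ_[l], E' ≠ 0 ∧ (Valued.v : Valuation (PadicAlgCl l) ℝ≥0) E' = 1 ∧
      ∀ w ∈ above (Om := Om) ι (z.map (algebraMap ℚ_[l] (AlgebraicClosure ℚ_[l]))),
      ∃ h : FF a b ∈ w.O, w.φ ⟨_, h⟩ = E' := by
  obtain ⟨x, y, hu, hxy⟩ := hz
  have hroot : ∀ c : Qb, W.IsRoot (f0 f) (some c) →
      Polynomial.eval₂ (Int.castRingHom (AlgebraicClosure ℚ_[l])) (ι c) f = 0 := by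
    intro c hc
    have h1 : Polynomial.aeval c (f0 f) = 0 := hc
    rw [eval₂_f0] at h1
    have h2 := congrArg ι h1
    rw [map_zero, Polynomial.hom_eval₂] at h2
    have h3 : ι.comp (Int.castRingHom Qb) = Int.castRingHom (AlgebraicClosure ℚ_[l]) :=
      RingHom.ext_int _ _
    rwa [h3] at h2
  have i1 := D687.int l f hf x y hu (ι a) (hroot a ha)
  have i2 := D687.int l f hf x y hu (ι b) (hroot b hb)
  rcases hxy with ⟨hy, rfl⟩ | ⟨hy, rfl⟩
  · refine ⟨1, one_ne_zero, map_one _, ?_⟩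
    intro w hw
    have h1 : (tt Om)⁻¹ ∈ w.O.nonunits := hw.2.1 rfl
    have h2 : (tt Om)⁻¹ ∈ w.O := ValuationSubring.nonunits_subset h1
    have key : ∀ c : Qb, ∃ h : 1 - (c : Om) * (tt Om)⁻¹ ∈ w.O, w.φ ⟨_, h⟩ = 1 := by
      intro c
      obtain ⟨hc, _⟩ := hw.1 c
      refine ⟨sub_mem (one_mem _) (mul_mem hc h2), ?_⟩
      have e1 : w.φ ⟨(tt Om)⁻¹, h2⟩ = 0 := (w.ker _).2 h1
      have e2 : (⟨1 - (c : Om) * (tt Om)⁻¹, sub_mem (one_mem _) (mul_mem hc h2)⟩ : w.O) =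
          1 - ⟨(c : Om), hc⟩ * ⟨(tt Om)⁻¹, h2⟩ := rfl
      rw [e2, map_sub, map_one, map_mul, e1, mul_zero, sub_zero]
    obtain ⟨h3, h4⟩ := phi_div w (key a) (key b) one_ne_zero
    have htt : tt Om ≠ 0 := by
      intro h0
      have h1 := (map_eq_zero (algebraMap (RatFunc ℚ) Om)).1 h0
      exact RatFunc.X_ne_zero h1
    have e : FF a b = (1 - (a : Om) * (tt Om)⁻¹) / (1 - (b : Om) * (tt Om)⁻¹) := by
      unfold FF
      change (tt Om - (a : Om)) / (tt Om - (b : Om)) = _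
      have e3 : ∀ c : Om, 1 - c * (tt Om)⁻¹ = (tt Om - c) / tt Om := by
        intro c
        rw [sub_div, div_self htt, div_eq_mul_inv c]
      rw [e3, e3, div_div_div_cancel_right₀ htt]
    rw [div_one] at h4
    rw [e]
    exact ⟨h3, h4⟩
  · set A := algebraMap ℚ_[l] (AlgebraicClosure ℚ_[l]) with hA
    have hAy : A (y : ℚ_[l]) ≠ 0 := (map_ne_zero A).2 hy
    have e1 : ∀ c : AlgebraicClosure ℚ_[l],
        A ((x : ℚ_[l]) / (y : ℚ_[l])) - c = (A x - c * A y) / A y := by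
      intro c
      rw [map_div₀]
      field_simp
    have hne : ∀ c : Qb, (Valued.v : Valuation (PadicAlgCl l) ℝ≥0) (A x - ι c * A y) = 1 →
        A ((x : ℚ_[l]) / (y : ℚ_[l])) - ι c ≠ 0 := by
      intro c hc h0
      rw [e1, div_eq_zero_iff] at h0
      rcases h0 with h0 | h0
      · have : (Valued.v : Valuation (PadicAlgCl l) ℝ≥0) (A x - ι c * A y) = 0 := by
          rw [h0]
          exact map_zero _
        rw [this] at hc
        exact zero_ne_one hc
      · exact hAy h0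
    refine ⟨(A ((x : ℚ_[l]) / (y : ℚ_[l])) - ι a) / (A ((x : ℚ_[l]) / (y : ℚ_[l])) - ι b),
      div_ne_zero (hne a i1) (hne b i2), ?_, ?_⟩
    · rw [e1, e1, div_div_div_cancel_right₀ hAy, map_div₀]
      have j1 : (Valued.v : Valuation (PadicAlgCl l) ℝ≥0) (A x - ι a * A y) = 1 := i1
      have j2 : (Valued.v : Valuation (PadicAlgCl l) ℝ≥0) (A x - ι b * A y) = 1 := i2
      rw [j1, j2, div_one]
    · intro w hw
      obtain ⟨ht, ht'⟩ := hw.2.2 _ rfl
      have key : ∀ c : Qb, ∃ h : tt Om - (c : Om) ∈ w.O,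
          w.φ ⟨_, h⟩ = A ((x : ℚ_[l]) / (y : ℚ_[l])) - ι c := by
        intro c
        obtain ⟨hc, hc'⟩ := hw.1 c
        refine ⟨sub_mem ht hc, ?_⟩
        have e2 : (⟨tt Om - (c : Om), sub_mem ht hc⟩ : w.O) =
          ⟨tt Om, ht⟩ - ⟨(c : Om), hc⟩ := rfl
        rw [e2, map_sub, ht', hc']
      exact phi_div w (key a) (key b) (hne b i2)

/-- the roots of `f` in an algebraic closure come from the algebraic numbers -/
theorem root_lift {l : ℕ} [Fact l.Prime] {f : ℤ[X]} (hf : f.Monic)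
    (ι : Qb →+* AlgebraicClosure ℚ_[l]) {a : AlgebraicClosure ℚ_[l]}
    (ha : Polynomial.eval₂ (Int.castRingHom (AlgebraicClosure ℚ_[l])) a f = 0) :
    ∃ r : Qb, W.IsRoot (f0 f) (some r) ∧ ι r = a := by
  have hac : IsAlgClosed Qb := W.T1G.isAlgClosed_Qb
  have h1 := (IsAlgClosed.splits (f.map (Int.castRingHom Qb)))
  have h2 := h1.eq_prod_roots_of_monic (hf.map _)
  have h3 : Polynomial.eval a ((f.map (Int.castRingHom Qb)).map ι) = 0 := by
    rw [Polynomial.map_map, Polynomial.eval_map]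
    have : ι.comp (Int.castRingHom Qb) = Int.castRingHom (AlgebraicClosure ℚ_[l]) :=
      RingHom.ext_int _ _
    rw [this]
    exact ha
  rw [h2, Polynomial.map_multiset_prod, Polynomial.eval_multiset_prod,
    Multiset.prod_eq_zero_iff] at h3
  rw [Multiset.map_map, Multiset.map_map, Multiset.mem_map] at h3
  obtain ⟨r, hr, hr'⟩ := h3
  refine ⟨r, ?_, ?_⟩
  · have h4 := Polynomial.isRoot_of_mem_roots hr
    change Polynomial.aeval r (f0 f) = 0
    rw [eval₂_f0, ← Polynomial.eval_map]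
    exact h4
  · simp only [Function.comp_apply, Polynomial.map_sub, Polynomial.map_X, Polynomial.map_C,
      Polynomial.eval_sub, Polynomial.eval_X, Polynomial.eval_C] at hr'
    exact (sub_eq_zero.1 hr').symm

/-- the converse -/
theorem crit_of_inSelmer {f : ℤ[X]} {p : ℕ} [Fact p.Prime] (hf : Admissible f p) {n : ℕ}
    (hn : 1 ≤ n) {x y : ℤ} (hF : ¬ (p : ℤ) ∣ form f x y) {z : Option ℚ}
    (hz : IsPt z (x : ℚ) (y : ℚ)) (h : InSelmer f p n z) :
    ∀ j ≤ f.natDegree,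
      form f x y ^ j ∣ (form f (C x + X) (C y)).coeff (f.natDegree - j) ^ f.natDegree := by
  refine D696.norm f p x y hf.monic Fact.out hF ?_
  intro l _ hlp a b ha hb
  rcases hz with ⟨hy, rfl⟩ | ⟨hy, rfl⟩
  · have hy' : y = 0 := by exact_mod_cast hy
    rw [hy', Int.cast_zero, mul_zero, mul_zero]
  · have hy' : y ≠ 0 := by
      rintro rfl
      exact hy (by simp)
    obtain ⟨c, hc, L0, hl⟩ := h
    obtain ⟨z', hz', L1⟩ := hl l hlp
    have : Algebra.IsAlgebraic ℚ Qb := algebraicClosure.isAlgebraic ℚ Om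
    let j0 : Qb →ₐ[ℚ] AlgebraicClosure ℚ_[l] := IsAlgClosed.lift
    let ι : Qb →+* AlgebraicClosure ℚ_[l] := j0
    obtain ⟨r, hr, hra⟩ := root_lift hf.monic ι ha
    obtain ⟨s, hs, hsb⟩ := root_lift hf.monic ι hb
    obtain ⟨E', hE', hE1, hval⟩ := int_val hf.monic hz' ι hr hs
    have hF0 : form f x y ≠ 0 := by
      intro h0
      exact hF (h0 ▸ dvd_zero _)
    have hq : (((x : ℚ) / (y : ℚ) : ℚ) : Qb) = (x : Qb) / (y : Qb) := by push_cast; rfl
    have hnr := not_isRoot hF0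
    unfold W.pt at hnr
    rw [if_neg hy'] at hnr
    have hne : ∀ r : Qb, W.IsRoot (f0 f) (some r) → (((x : ℚ) / (y : ℚ) : ℚ) : Qb) ≠ r := by
      rintro r hr h0
      rw [← h0, hq] at hr
      exact hnr hr
    have key := core (f0_ne_zero hf) hn hc L0 L1 ι hr hs (hne r hr) (hne s hs) E' hE' hval
    rw [hE1, hq] at key
    have hyC : (y : AlgebraicClosure ℚ_[l]) ≠ 0 := by exact_mod_cast hy'
    have e1 : ι (((x : Qb) / (y : Qb) - r) / ((x : Qb) / (y : Qb) - s)) =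
        ((x : AlgebraicClosure ℚ_[l]) - a * y) / ((x : AlgebraicClosure ℚ_[l]) - b * y) := by
      rw [map_div₀, map_sub, map_sub, map_div₀, map_intCast, map_intCast, hra, hsb]
      have : ∀ c : AlgebraicClosure ℚ_[l], (x : AlgebraicClosure ℚ_[l]) / y - c = (x - c * y) / y := by
        intro c
        field_simp
      rw [this, this, div_div_div_cancel_right₀ hyC]
    rw [e1, map_div₀] at key
    have hne2 : (Valued.v : Valuation (PadicAlgCl l) ℝ≥0)
        ((x : AlgebraicClosure ℚ_[l]) - b * y) ≠ 0 := by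
      intro h0
      rw [h0, div_zero] at key
      exact zero_ne_one key
    exact (div_eq_one_iff_eq hne2).1 key

theorem above_place' {C : Type} [Field C] [Algebra ℚ C] {ι : Qb →+* C} {x y : ℤ}
    {z : Option ℚ} (hz : IsPt z (x : ℚ) (y : ℚ))
    {w : Place Om C} (hw : w ∈ above (Om := Om) ι (z.map (algebraMap ℚ C))) :
    w.O ∈ Pl (W.pt x y) := by
  obtain ⟨h1, h2, h3⟩ := hw
  have hq : ∀ q : ℚ, algebraMap ℚ Om q ∈ w.O := by
    intro q
    obtain ⟨h, _⟩ := h1 (algebraMap ℚ Qb q)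
    exact h
  rcases hz with ⟨hy, rfl⟩ | ⟨hy, rfl⟩
  · have hy' : y = 0 := by exact_mod_cast hy
    rw [W.pt, if_pos hy']
    exact ⟨hq, h2 rfl⟩
  · have hy' : y ≠ 0 := by
      rintro rfl
      exact hy (by simp)
    rw [W.pt, if_neg hy']
    refine ⟨hq, ?_⟩
    obtain ⟨ht, ht'⟩ := h3 _ rfl
    obtain ⟨hc, hc'⟩ := h1 ((x : Qb) / (y : Qb))
    have h5 : w.φ (⟨tt Om, ht⟩ - ⟨(((x : Qb) / (y : Qb) : Qb) : Om), hc⟩) = 0 := by
      rw [map_sub, ht', hc', map_div₀, map_intCast, map_intCast, map_div₀, map_intCast,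
        map_intCast, sub_self]
    exact (w.ker _).1 h5

theorem lies_et' {p : ℕ} [Fact p.Prime] {f : ℤ[X]} {x y : ℤ} {v0 w0 : ValuationSubring Om}
    {cv cw : ValuationSubring Om → geo Om}
    (H : Pts (geo Om) (inert Om f) (infPlaces Om) (Pl (W.pt x y)) v0 w0 cv cw)
    (n : ℕ) {z : Option ℚ} (hz : IsPt z (x : ℚ) (y : ℚ)) :
    Lies (p := p) (f := f) (C := AlgebraicClosure ℚ) ℚ n (co v0 w0 cv cw) z := by
  intro ι
  refine ⟨fun S v w => et cv cw S v w.O, toPlace (isPath_et H n) fun w hw => above_place' hz hw, ?_⟩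
  intro g σ _ S T _ _ s hs u hu v _ w hw
  exact et_co H g S T s hs hu (above_place' hz hw)

theorem inSelmer_of_crit {f : ℤ[X]} {p : ℕ} [Fact p.Prime] (hf : Admissible f p) (n : ℕ)
    {x y : ℤ} (hF : ¬ (p : ℤ) ∣ form f x y) {z : Option ℚ}
    (hz : IsPt z (x : ℚ) (y : ℚ))
    (h : ∀ j ≤ f.natDegree,
      form f x y ^ j ∣ (form f (C x + X) (C y)).coeff (f.natDegree - j) ^ f.natDegree) :
    InSelmer f p n z := by
  have hF0 : form f x y ≠ 0 := by
    intro h
    exact hF (h ▸ dvd_zero _)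
  have hU := unitRatios_of hf.monic hF0 h
  obtain ⟨v0, w0, cv, cw, H⟩ := exists_Pts (f := f) x y (not_isRoot hF0)
  refine ⟨co v0 w0 cv cw, cocycle_main H n, lies_et' H n hz, ?_⟩
  intro l _ hlp
  refine ⟨none, ⟨1, 0, ?_, Or.inl ⟨by simp, rfl⟩⟩,
    lies_hl' (f0_ne_zero hf) hF0 hU H n l hlp (Or.inl ⟨by simp, rfl⟩)⟩
  rw [form_one_zero hf.monic]
  exact isUnit_one

end Pool.Agent.H577.Kim
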