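import Pool.Agent.H577.Kim.Loc2
import Pool.Agent.H577.Kim.Final
import Pool.Agent.H577.Kim.Done.KCHAR2
import Pool.Agent.H577.Kim.Done.TW
import Pool.Agent.H577.Kim.Done.ROOTU

/-!
The values of functions of degree two at weakly global points are roots of unity, if there are no
units of infinite order.
-/

open scoped Pointwise TensorProduct Topology Polynomial NNReal

noncomputable section

namespace Pool.Agent.H577.Kim

open Y680 Y680.V Polynomial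
open Y680.W (GG Gam Qb map_Qb)
open Y680.W.K3 (Cg nu_sub nu_mul nu_neg Qb_zero)

theorem tt_ne0 : (W.tt : Om) ≠ 0 := by
  intro h0
  have h1 := (map_eq_zero (algebraMap (RatFunc ℚ) Om)).1 h0
  exact RatFunc.X_ne_zero h1

theorem F2_eq (a1 a2 b1 b2 : Qb) : F2 a1 a2 b1 b2 = FF a1 b1 * FF a2 b2 := by
  unfold F2 FF
  rw [div_mul_div_comm]

theorem cg_FF_inf {v : ValuationSubring Om} (hv : W.IsPlace none v) (a b : Qb) :
    Cg v (FF a b) 1 := by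
  have key : ∀ c : Qb, Cg v (1 - (c : Om) * W.tt⁻¹) 1 := by
    intro c
    refine Cg.mk' hv.1 (one_mem _) one_ne_zero ?_
    have : 1 - (c : Om) * W.tt⁻¹ - 1 = -((c : Om) * W.tt⁻¹) := by ring
    rw [this]
    exact nu_neg (nu_mul (Y680.W.K3.Qb_le hv.1 c.2) hv.2)
  have e : FF a b = (1 - (a : Om) * W.tt⁻¹) * (1 - (b : Om) * W.tt⁻¹)⁻¹ := by
    unfold FF
    have e3 : ∀ c : Om, 1 - c * (W.tt)⁻¹ = (W.tt - c) / W.tt := by
      intro c
      rw [sub_div, div_self tt_ne0, div_eq_mul_inv c]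
    rw [e3, e3, ← div_eq_mul_inv, div_div_div_cancel_right₀ tt_ne0]
  rw [e]
  have h := (key a).mul (key b).inv
  rwa [inv_one, mul_one] at h

theorem cg_F2_inf {v : ValuationSubring Om} (hv : W.IsPlace none v) (a1 a2 b1 b2 : Qb) :
    Cg v (F2 a1 a2 b1 b2) ((1 : Qb) : Om) := by
  rw [F2_eq]
  have h := (cg_FF_inf hv a1 b1).mul (cg_FF_inf hv a2 b2)
  rwa [mul_one] at h

theorem phi_mul {C : Type} [Field C] (w : Place Om C) {u d : Om} {U D : C}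
    (hu : ∃ h : u ∈ w.O, w.φ ⟨u, h⟩ = U) (hd : ∃ h : d ∈ w.O, w.φ ⟨d, h⟩ = D) :
    ∃ h : u * d ∈ w.O, w.φ ⟨u * d, h⟩ = U * D := by
  obtain ⟨hu, hu'⟩ := hu
  obtain ⟨hd, hd'⟩ := hd
  refine ⟨mul_mem hu hd, ?_⟩
  rw [← hu', ← hd', ← map_mul]
  rfl

/-- the value of `F2` at an integral point is a unit -/
theorem int_val2 {l : ℕ} [Fact l.Prime] {f : ℤ[X]} (hf : f.Monic) {z : Option ℚ_[l]}
    (hz : z ∈ intPtsAt f l) (ι : Qb →+* AlgebraicClosure ℚ_[l]) {a1 a2 b1 b2 : Qb}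
    (ha1 : W.IsRoot (f0 f) (some a1)) (ha2 : W.IsRoot (f0 f) (some a2))
    (hb1 : W.IsRoot (f0 f) (some b1)) (hb2 : W.IsRoot (f0 f) (some b2)) :
    ∃ E' : AlgebraicClosure ℚ_[l], E' ≠ 0 ∧ (Valued.v : Valuation (PadicAlgCl l) ℝ≥0) E' = 1 ∧
      ∀ w ∈ above (Om := Om) ι (z.map (algebraMap ℚ_[l] (AlgebraicClosure ℚ_[l]))),
      ∃ h : F2 a1 a2 b1 b2 ∈ w.O, w.φ ⟨_, h⟩ = E' := by
  obtain ⟨E1, h1, h1', H1⟩ := int_val hf hz ι ha1 hb1
  obtain ⟨E2, h2, h2', H2⟩ := int_val hf hz ι ha2 hb2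
  refine ⟨E1 * E2, mul_ne_zero h1 h2, ?_, ?_⟩
  · rw [map_mul, h1', h2', one_mul]
  · intro w hw
    rw [F2_eq]
    exact phi_mul w (H1 w hw) (H2 w hw)

/-- the entries of the global class are bounded -/
theorem exists_scaleG {p : ℕ} [Fact p.Prime] {κ : GG → ℚ_[p]} (h : Continuous κ) :
    ∃ N : ℕ, ∀ g, ‖(p : ℚ_[p]) ^ N * κ g‖ ≤ 1 := by
  obtain ⟨C, hC⟩ := (isCompact_univ.image h).isBounded.exists_norm_le
  obtain ⟨N, hN⟩ := pow_unbounded_of_one_lt C (by exact_mod_cast (Fact.out : p.Prime).one_lt :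
    (1 : ℝ) < p)
  refine ⟨N, fun γ => ?_⟩
  have h1 : ‖κ γ‖ ≤ C := hC _ ⟨γ, Set.mem_univ _, rfl⟩
  have hp : (0 : ℝ) < p := by exact_mod_cast (Fact.out : p.Prime).pos
  rw [norm_mul, norm_pow, Padic.norm_p, inv_pow]
  rw [inv_mul_le_iff₀ (by positivity), mul_one]
  exact h1.trans hN.le

theorem fix_adj {l : ℕ} [Fact l.Prime] (ι : Qb →+* AlgebraicClosure ℚ_[l]) {a B : Qb}
    (hB : B ∈ IntermediateField.adjoin ℚ ({a} : Set Qb))
    (σ : AlgebraicClosure ℚ_[l] ≃ₐ[ℚ_[l]] AlgebraicClosure ℚ_[l]) (hσ : σ (ι a) = ι a) :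
    σ (ι B) = ι B := by
  induction hB using IntermediateField.adjoin_induction with
  | mem x hx =>
    rw [Set.mem_singleton_iff] at hx
    rw [hx, hσ]
  | algebraMap x =>
    have h1 : ι (algebraMap ℚ Qb x) = ((x : ℚ) : AlgebraicClosure ℚ_[l]) := by
      rw [eq_ratCast, map_ratCast]
    rw [h1, map_ratCast]
  | add x y _ _ hx hy => rw [map_add, map_add, hx, hy]
  | inv x _ hx => rw [map_inv₀, map_inv₀, hx]
  | mul x y _ _ hx hy => rw [map_mul, map_mul, hx, hy]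

theorem vroot {l : ℕ} [Fact l.Prime] {ξ : AlgebraicClosure ℚ_[l]} {m : ℕ} (hm : m ≠ 0)
    (h : ξ ^ m = 1) : (Valued.v : Valuation (PadicAlgCl l) ℝ≥0) ξ = 1 := by
  have h1 : (Valued.v : Valuation (PadicAlgCl l) ℝ≥0) (ξ ^ m) = 1 := by
    rw [h]
    exact map_one _
  rw [map_pow] at h1
  exact (pow_eq_one_iff.1 h1).resolve_right hm

theorem rou (KUM2 : S_KUM2) (UNIT0 : S_UNIT0) {f : ℤ[X]} (hf : f.Monic) {p : ℕ} [Fact p.Prime]
    {n : ℕ} (hn : 1 ≤ n) {z : Option ℚ_[p]}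
    (hz : z ∈ weaklyGlobal (AlgebraicClosure (RatFunc ℚ)) f p n)
    (ι : Qb →+* AlgebraicClosure ℚ_[p]) {a a1 a2 b1 b2 : Qb} (hIQ : IQ a)
    (ha1 : W.IsRoot (f0 f) (some a1)) (ha2 : W.IsRoot (f0 f) (some a2))
    (hb1 : W.IsRoot (f0 f) (some b1)) (hb2 : W.IsRoot (f0 f) (some b2))
    (hFa : ∀ g : GG, g (a : Om) = a → g (F2 a1 a2 b1 b2) = F2 a1 a2 b1 b2) :
    ∃ E' : AlgebraicClosure ℚ_[p],
      (∀ w ∈ above (Om := Om) ι (z.map (algebraMap ℚ_[p] (AlgebraicClosure ℚ_[p]))),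
        ∃ h : F2 a1 a2 b1 b2 ∈ w.O, w.φ ⟨_, h⟩ = E') ∧ ∃ m : ℕ, 0 < m ∧ E' ^ m = 1 := by
  have hp : p.Prime := Fact.out
  obtain ⟨hzp, c, hc, Lp, Ll⟩ := hz
  obtain ⟨E', hE'0, -, hval⟩ := int_val2 hf hzp ι ha1 ha2 hb1 hb2
  refine ⟨E', hval, ?_⟩
  obtain ⟨lam, y, ζ, hadd, hcont, hunr, hy, hζ, hact⟩ := D178.kchar2 p a1 a2 b1 b2
  have H : Unr p f lam := by
    refine ⟨hadd, hcont, fun c hc v hv γ hγ => hunr c ?_ ?_ ?_ ?_ v hv γ hγ⟩
    · rintro rfl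
      exact hc ha1
    · rintro rfl
      exact hc ha2
    · rintro rfl
      exact hc hb1
    · rintro rfl
      exact hc hb2
  obtain ⟨v0, hv0⟩ := W.t_EX none
  have hF1 := cg_F2_inf hv0 a1 a2 b1 b2
  have htw : ∀ g : GG, g (a : Om) = a → ∀ γ : Gam,
      lam (W.cj g γ) = (W.chi p g : ℤ_[p]) * lam γ := fun g hg =>
    D199.tw p _ lam y ζ hF1.a0 hy hζ hact g (hFa g hg)
  have hκc := kap_cont H hn hc hv0
  obtain ⟨N, hN⟩ := exists_scaleG hκc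
  set κ : GG → ℤ_[p] := fun g => ⟨(p : ℚ_[p]) ^ N * ent H (c g) v0 v0, hN g⟩ with hκdef
  have hκ : ∀ g, ((κ g : ℤ_[p]) : ℚ_[p]) = (p : ℚ_[p]) ^ N * ent H (c g) v0 v0 := fun g => rfl
  have hκcont : Continuous κ := Continuous.subtype_mk (continuous_const.mul hκc) _
  have hmul : ∀ g g' : GG, g • v0 = v0 → g (a : Om) = a → g' • v0 = v0 → g' (a : Om) = a →
      κ (g * g') = κ g + (W.chi p g : ℤ_[p]) * κ g' := by
    intro g g' hg hga _ _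
    apply Subtype.ext
    have h1 := kap_mul H hn hc hv0 (g' := g') hg (htw g hga)
    rw [PadicInt.coe_add, PadicInt.coe_mul, hκ, hκ, hκ, h1]
    ring
  have hGam : ∀ γ : Gam, (γ : GG) • v0 = v0 → κ γ = 0 := by
    intro γ _
    apply Subtype.ext
    rw [hκ, kap_Gam H hn hc hv0 γ, mul_zero]
    rfl
  have hζQ : ∀ k, ζ k ∈ Qb := by
    intro k
    rw [mem_algebraicClosure_iff]
    refine IsAlgebraic.of_pow (pow_pos hp.pos k) ?_
    rw [(hζ k).pow_eq_one]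
    exact isAlgebraic_one
  have hK : ∀ k, ∃ α : Qb, α ≠ 0 ∧ α ^ (p ^ k) ∈ IntermediateField.adjoin ℚ ({a} : Set Qb) ∧
      ∀ g : GG, g • v0 = v0 → g (a : Om) = a →
        g (α : Om) = (ζ k) ^ (PadicInt.toZModPow k (κ g)).val * (α : Om) := by
    intro k
    have hζ' : IsPrimitiveRoot (⟨ζ k, hζQ k⟩ : Qb) (p ^ k) := by
      refine IsPrimitiveRoot.of_map_of_injective (f := Qb.subtype) ?_ Subtype.val_injective
      exact hζ k
    exact KUM2 p a v0 hv0 κ hκcont hmul hGam k _ hζ'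
  choose α hα0 hαa hαg using hK
  obtain ⟨M, hM, hU⟩ := UNIT0 a hIQ
  have hAB : ∀ k, ∃ B : Qb, B ∈ IntermediateField.adjoin ℚ ({a} : Set Qb) ∧
      (α k ^ (p ^ k)) ^ M = B ^ (p ^ k) := by
    intro k
    refine hU p k hp _ (pow_ne_zero _ (hα0 k)) (hαa k) ?_
    intro l _ ι'
    have hL : ∃ z' ∈ intPtsAt f l, Lies (p := p) (f := f) (C := AlgebraicClosure ℚ_[l]) ℚ_[l] n c z' := by
      by_cases hlp : l = p
      · subst hlp
        exact ⟨z, hzp, Lp⟩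
      · exact Ll l hlp
    obtain ⟨z', hz', L'⟩ := hL
    obtain ⟨E1, hE10, hE1, hval1⟩ := int_val2 hf hz' ι' ha1 ha2 hb1 hb2
    obtain ⟨s, hs⟩ := local_rel H hn hc hy hζ hact L' ι' htw hFa hv0 hF1 hκ E1 hE10 hval1
    obtain ⟨β, ξ, h1, h2, h3⟩ := hs k (α k) (hα0 k) (hαg k)
    refine ⟨β, h1, ?_⟩
    have h4 := congrArg (Valued.v : Valuation (PadicAlgCl l) ℝ≥0) h3
    rw [map_mul, map_mul, map_pow, map_pow, hE1, one_pow, mul_one,
      vroot (pow_ne_zero s hp.ne_zero) h2, mul_one, ← map_pow ι'] at h4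
    exact h4
  choose B hB hAB' using hAB
  obtain ⟨s, hs⟩ := local_rel H hn hc hy hζ hact Lp ι htw hFa hv0 hF1 hκ E' hE'0 hval
  have key : ∀ k : ℕ, ∃ γ : AlgebraicClosure ℚ_[p], γ ^ (p ^ k) = E' ^ (p ^ N * (M * p ^ s)) ∧
      ∀ σ : AlgebraicClosure ℚ_[p] ≃ₐ[ℚ_[p]] AlgebraicClosure ℚ_[p], σ (ι a) = ι a → σ γ = γ := by
    intro k
    obtain ⟨β, ξ, h1, h2, h3⟩ := hs k (α k) (hα0 k) (hαg k)
    have hβ0 : β ≠ 0 := by
      rintro rfl
      rw [zero_pow (pow_pos hp.pos k).ne', zero_mul, zero_mul] at h3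
      exact pow_ne_zero _ ((map_ne_zero ι).2 (hα0 k)) h3.symm
    refine ⟨(ι (B k) / β ^ M) ^ (p ^ s), ?_, ?_⟩
    · have h5 : (β ^ (p ^ k) * E' ^ (p ^ N) * ξ) ^ (M * p ^ s) = (ι (B k)) ^ (p ^ k * p ^ s) := by
        rw [h3, pow_mul, pow_mul (ι (B k)), ← map_pow, ← map_pow, ← map_pow, ← map_pow, ← map_pow,
          hAB' k]
      have h6 : ξ ^ (M * p ^ s) = 1 := by rw [mul_comm, pow_mul, h2, one_pow]
      rw [mul_pow, mul_pow, h6, mul_one] at h5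
      have h7 : (ι (B k) / β ^ M) ^ (p ^ s * p ^ k) = ι (B k) ^ (p ^ k * p ^ s) /
          (β ^ (p ^ k)) ^ (M * p ^ s) := by
        rw [div_pow, mul_comm (p ^ s) (p ^ k), ← pow_mul, ← pow_mul]
        congr 2
        ring
      rw [← pow_mul, h7, ← h5, mul_div_cancel_left₀ _ (pow_ne_zero _ (pow_ne_zero _ hβ0)),
        ← pow_mul]
    · intro σ hσ
      rw [map_pow, map_div₀, map_pow, h1 σ hσ, fix_adj ι (hB k) σ hσ]
  obtain ⟨m, hm, hm'⟩ := D350.rootu p (ι a) (E' ^ (p ^ N * (M * p ^ s))) (pow_ne_zero _ hE'0) key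
  refine ⟨p ^ N * (M * p ^ s) * m, ?_, ?_⟩
  · have := pow_pos hp.pos N
    have := pow_pos hp.pos s
    positivity
  · rw [pow_mul]
    exact hm'

end Pool.Agent.H577.Kim
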