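import Pool.Agent.H577.Kim.Glob
import Pool.Agent.H577.Kim.Done.GEO

/-!
The weakly global points if all roots of `f` are integers or imaginary quadratic integers.
-/

open scoped Pointwise TensorProduct Topology Polynomial NNReal

noncomputable section

namespace Pool.Agent.H577.Kim

open Y680 Y680.V Polynomial
open Y680.W (GG Gam Qb map_Qb)
open Y680.W.K3 (Cg nu_sub nu_mul nu_neg Qb_zero)

/-- the conjugate root -/
theorem conj_root {f : ℤ[X]} {a : Qb} {u v : ℤ} (h : a ^ 2 + (u : Qb) * a + (v : Qb) = 0)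
    (huv : u ^ 2 ≤ 4 * v) (ha : W.IsRoot (f0 f) (some a)) :
    W.IsRoot (f0 f) (some (-(u : Qb) - a)) := by
  by_cases hb : -(u : Qb) - a = a
  · rw [hb]
    exact ha
  · have : Algebra.IsAlgebraic ℚ Qb := algebraicClosure.isAlgebraic ℚ Om
    have hai : IsIntegral ℚ a := Algebra.IsIntegral.isIntegral a
    set P : ℚ[X] := X ^ 2 + C (u : ℚ) * X + C (v : ℚ) with hP
    have hPm : P.Monic := by
      rw [hP]
      monicity!
    have hPd : P.natDegree = 2 := by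
      rw [hP]
      compute_degree!
    have hev : ∀ c : Qb, Polynomial.aeval c P = c ^ 2 + (u : Qb) * c + (v : Qb) := by
      intro c
      rw [hP, map_add, map_add, map_mul, map_pow, aeval_X, aeval_C, aeval_C, eq_ratCast,
        eq_ratCast, Rat.cast_intCast, Rat.cast_intCast]
    have hdvd : minpoly ℚ a ∣ P := minpoly.dvd ℚ a (by rw [hev, h])
    have hdeg : P.natDegree ≤ (minpoly ℚ a).natDegree := by
      rw [hPd]
      by_contra hlt
      push Not at hlt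
      have h1 : (minpoly ℚ a).natDegree = 1 := by
        have := minpoly.natDegree_pos hai
        omega
      have h2 := (minpoly.natDegree_eq_one_iff).1 h1
      obtain ⟨q, hq⟩ := h2
      have h3 : (q ^ 2 + u * q + v : ℚ) = 0 := by
        have h4 : ((q ^ 2 + u * q + v : ℚ) : Qb) = 0 := by
          push_cast
          rw [← hq] at h
          rw [eq_ratCast] at h
          exact h
        exact_mod_cast h4
      have h5 : (2 * q + u : ℚ) ^ 2 = (u : ℚ) ^ 2 - 4 * v := by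
        linear_combination 4 * h3
      have h6 : ((u : ℚ) ^ 2 - 4 * v) ≤ 0 := by
        have : ((u ^ 2 : ℤ) : ℚ) ≤ ((4 * v : ℤ) : ℚ) := by exact_mod_cast huv
        push_cast at this
        linarith
      have h7 : (2 * q + u : ℚ) = 0 := by
        have : (2 * q + u : ℚ) ^ 2 ≤ 0 := h5 ▸ h6
        have h8 := sq_nonneg (2 * q + u : ℚ)
        exact pow_eq_zero_iff (two_ne_zero) |>.1 (le_antisymm this h8)
      apply hb
      rw [← hq, eq_ratCast]
      have h9 : ((2 * q + u : ℚ) : Qb) = 0 := by rw [h7]; norm_num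
      push_cast at h9
      linear_combination -h9
    have hmP : P = minpoly ℚ a :=
      Polynomial.eq_of_monic_of_dvd_of_natDegree_le (minpoly.monic hai) hPm hdvd hdeg
    have h1 : minpoly ℚ a ∣ f0 f := minpoly.dvd ℚ a ha
    rw [← hmP] at h1
    obtain ⟨Q, hQ⟩ := h1
    change Polynomial.aeval (-(u : Qb) - a) (f0 f) = 0
    rw [hQ, map_mul, hev]
    have : (-(u : Qb) - a) ^ 2 + (u : Qb) * (-(u : Qb) - a) + (v : Qb) = 0 := by
      linear_combination h
    rw [this, zero_mul]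

theorem isRoot_ne {l : ℕ} [Fact l.Prime] {f : ℤ[X]} (hf : f.Monic) {z0 : ℚ_[l]}
    (hz : some z0 ∈ intPtsAt f l) (ι : Qb →+* AlgebraicClosure ℚ_[l]) {a : Qb}
    (ha : W.IsRoot (f0 f) (some a)) :
    algebraMap ℚ_[l] (AlgebraicClosure ℚ_[l]) z0 ≠ ι a := by
  obtain ⟨x, y, hu, hxy⟩ := hz
  have hroot : ∀ c : Qb, W.IsRoot (f0 f) (some c) →
      Polynomial.eval₂ (Int.castRingHom (AlgebraicClosure ℚ_[l])) (ι c) f = 0 := by
    intro c hc
    have h1 : Polynomial.aeval c (f0 f) = 0 := hc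
    rw [eval₂_f0] at h1
    have h2 := congrArg ι h1
    rw [map_zero, Polynomial.hom_eval₂] at h2
    have h3 : ι.comp (Int.castRingHom Qb) = Int.castRingHom (AlgebraicClosure ℚ_[l]) :=
      RingHom.ext_int _ _
    rwa [h3] at h2
  have i1 := D687.int l f hf x y hu (ι a) (hroot a ha)
  rcases hxy with ⟨_, h⟩ | ⟨hy, h⟩
  · exact absurd h (by simp)
  · intro h0
    have hz0 : z0 = (x : ℚ_[l]) / (y : ℚ_[l]) := Option.some.inj h
    have h1 : algebraMap ℚ_[l] (AlgebraicClosure ℚ_[l]) (x : ℚ_[l]) -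
        ι a * algebraMap ℚ_[l] (AlgebraicClosure ℚ_[l]) (y : ℚ_[l]) = 0 := by
      rw [← h0, ← map_mul, hz0, div_mul_cancel₀ _ hy, sub_self]
    have h2 : (Valued.v : Valuation (PadicAlgCl l) ℝ≥0)
        (algebraMap ℚ_[l] (AlgebraicClosure ℚ_[l]) (x : ℚ_[l]) -
        ι a * algebraMap ℚ_[l] (AlgebraicClosure ℚ_[l]) (y : ℚ_[l])) = 0 := by
      rw [h1]
      exact map_zero _
    have h3 := h2.symm.trans i1
    exact zero_ne_one h3

theorem tt_sub_ne (b : Qb) : (W.tt : Om) - (b : Om) ≠ 0 := by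
  obtain ⟨v0, hv0⟩ := W.t_EX none
  have h1 := (cg_FF_inf hv0 b b).a0
  intro h0
  apply h1
  unfold FF
  rw [h0, zero_div]

theorem val_some {l : ℕ} [Fact l.Prime] {z0 : ℚ_[l]} (ι : Qb →+* AlgebraicClosure ℚ_[l])
    {a1 a2 b1 b2 : Qb} {E' : AlgebraicClosure ℚ_[l]}
    (hval : ∀ w ∈ above (Om := Om) ι
        ((some z0 : Option ℚ_[l]).map (algebraMap ℚ_[l] (AlgebraicClosure ℚ_[l]))),
      ∃ h : F2 a1 a2 b1 b2 ∈ w.O, w.φ ⟨_, h⟩ = E') :
    E' * ((algebraMap ℚ_[l] (AlgebraicClosure ℚ_[l]) z0 - ι b1) *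
        (algebraMap ℚ_[l] (AlgebraicClosure ℚ_[l]) z0 - ι b2)) =
      (algebraMap ℚ_[l] (AlgebraicClosure ℚ_[l]) z0 - ι a1) *
        (algebraMap ℚ_[l] (AlgebraicClosure ℚ_[l]) z0 - ι a2) := by
  obtain ⟨w', hw', -⟩ := D215.lift l ι (some z0)
  obtain ⟨ht, ht'⟩ := hw'.2.2 _ rfl
  have key : ∀ c : Qb, ∃ h : W.tt - (c : Om) ∈ w'.O,
      w'.φ ⟨_, h⟩ = algebraMap ℚ_[l] (AlgebraicClosure ℚ_[l]) z0 - ι c := by
    intro c
    obtain ⟨hc, hc'⟩ := hw'.1 c
    refine ⟨sub_mem ht hc, ?_⟩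
    have e2 : (⟨W.tt - (c : Om), sub_mem ht hc⟩ : w'.O) =
      ⟨tt Om, ht⟩ - ⟨(c : Om), hc⟩ := rfl
    rw [e2, map_sub, ht', hc']
  obtain ⟨h1, h1'⟩ := phi_mul w' (hval w' hw') (phi_mul w' (key b1) (key b2))
  obtain ⟨h2, h2'⟩ := phi_mul w' (key a1) (key a2)
  rw [← h1', ← h2']
  congr 1
  apply Subtype.ext
  change F2 a1 a2 b1 b2 * ((W.tt - (b1 : Om)) * (W.tt - (b2 : Om))) =
    (W.tt - (a1 : Om)) * (W.tt - (a2 : Om))
  unfold F2
  exact div_mul_cancel₀ _ (mul_ne_zero (tt_sub_ne b1) (tt_sub_ne b2))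

/-- a quotient of two elements, by the roots of unity -/
theorem rou_ratio {K : Type} [Field K] {A A' B B' : K} (hA : A ≠ 0) (hA' : A' ≠ 0) (hB : B ≠ 0)
    (hB' : B' ≠ 0) {m1 m2 m3 : ℕ} (h1 : 0 < m1) (h2 : 0 < m2) (h3 : 0 < m3)
    (e1 : (A * A / (A' * A')) ^ m1 = 1) (e2 : (A * A' / (B * B')) ^ m2 = 1)
    (e3 : (B * B / (B' * B')) ^ m3 = 1) : ∃ m : ℕ, 0 < m ∧ (A / B) ^ m = 1 := by
  refine ⟨4 * (m1 * m2 * m3), by positivity, ?_⟩
  have e : (A / B) ^ 4 = (A * A / (A' * A')) * (A * A' / (B * B')) ^ 2 *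
      (B * B / (B' * B'))⁻¹ := by
    field_simp
  rw [pow_mul, e, mul_pow, mul_pow, inv_pow]
  have f1 : (A * A / (A' * A')) ^ (m1 * m2 * m3) = 1 := by
    rw [mul_assoc, pow_mul, e1, one_pow]
  have f2 : ((A * A' / (B * B')) ^ 2) ^ (m1 * m2 * m3) = 1 := by
    rw [← pow_mul]
    have : 2 * (m1 * m2 * m3) = m2 * (2 * m1 * m3) := by ring
    rw [this, pow_mul, e2, one_pow]
  have f3 : (B * B / (B' * B')) ^ (m1 * m2 * m3) = 1 := by
    rw [mul_comm (m1 * m2) m3, pow_mul, e3, one_pow]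
  rw [f1, f2, f3]
  simp

theorem ratio_rou (KUM2 : S_KUM2) (UNIT0 : S_UNIT0) {f : ℤ[X]} (hf : f.Monic) {p : ℕ}
    [Fact p.Prime] {n : ℕ} (hn : 1 ≤ n) {z0 : ℚ_[p]}
    (hz : some z0 ∈ weaklyGlobal (AlgebraicClosure (RatFunc ℚ)) f p n)
    (ι : Qb →+* AlgebraicClosure ℚ_[p]) {a b : Qb} (ha : W.IsRoot (f0 f) (some a))
    (hb : W.IsRoot (f0 f) (some b)) (hIQa : IQ a) (hIQb : IQ b) : ∃ m : ℕ, 0 < m ∧
      ((algebraMap ℚ_[p] (AlgebraicClosure ℚ_[p]) z0 - ι a) /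
        (algebraMap ℚ_[p] (AlgebraicClosure ℚ_[p]) z0 - ι b)) ^ m = 1 := by
  obtain ⟨u, v, h1, h2⟩ := hIQa
  obtain ⟨u', v', h1', h2'⟩ := hIQb
  set a' : Qb := -(u : Qb) - a with ha'
  set b' : Qb := -(u' : Qb) - b with hb'
  have hra : W.IsRoot (f0 f) (some a') := conj_root h1 h2 ha
  have hrb : W.IsRoot (f0 f) (some b') := conj_root h1' h2' hb
  set Z := algebraMap ℚ_[p] (AlgebraicClosure ℚ_[p]) z0 with hZ
  have hne : ∀ c : Qb, W.IsRoot (f0 f) (some c) → Z - ι c ≠ 0 := fun c hc =>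
    sub_ne_zero.2 (isRoot_ne hf hz.1 ι hc)
  have htt : ∀ g : GG, g W.tt = W.tt := fun g => g.commutes _
  have gint : ∀ (g : GG) (m : ℤ), g (m : Om) = (m : Om) := fun g m => map_intCast g m
  have hca' : ((a' : Qb) : Om) = -(u : Om) - (a : Om) := by
    rw [ha']
    push_cast
    rfl
  have hcb' : ((b' : Qb) : Om) = -(u' : Om) - (b : Om) := by
    rw [hb']
    push_cast
    rfl
  have hqa : (a : Om) ^ 2 + (u : Om) * a + (v : Om) = 0 := by
    have := congrArg (Subtype.val : Qb → Om) h1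
    push_cast at this
    exact this
  have hqb : (b : Om) ^ 2 + (u' : Om) * b + (v' : Om) = 0 := by
    have := congrArg (Subtype.val : Qb → Om) h1'
    push_cast at this
    exact this
  -- the three functions
  obtain ⟨E1, hv1, m1, hm1, he1⟩ := rou KUM2 UNIT0 hf hn hz ι (a := a) (a1 := a) (a2 := a)
    (b1 := a') (b2 := a') ⟨u, v, h1, h2⟩ ha ha hra hra (by
      intro g hg
      unfold F2
      rw [map_div₀, map_mul, map_mul, map_sub, map_sub, htt, hg, hca', map_sub, map_neg, gint, hg])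
  obtain ⟨E3, hv3, m3, hm3, he3⟩ := rou KUM2 UNIT0 hf hn hz ι (a := b) (a1 := b) (a2 := b)
    (b1 := b') (b2 := b') ⟨u', v', h1', h2'⟩ hb hb hrb hrb (by
      intro g hg
      unfold F2
      rw [map_div₀, map_mul, map_mul, map_sub, map_sub, htt, hg, hcb', map_sub, map_neg, gint, hg])
  have hprod : ∀ g : GG, ∀ (c c' : Om) (s t : ℤ), c' = -(s : Om) - c →
      c ^ 2 + (s : Om) * c + (t : Om) = 0 →
      g ((W.tt - c) * (W.tt - c')) = (W.tt - c) * (W.tt - c') := by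
    intro g c c' s t hc' hq
    have hgq : (g c) ^ 2 + (s : Om) * g c + (t : Om) = 0 := by
      have := congrArg g hq
      rw [map_add, map_add, map_mul, map_pow, gint, gint, map_zero] at this
      exact this
    rw [map_mul, map_sub, map_sub, htt, hc', map_sub, map_neg, gint]
    linear_combination (-1 : Om) * hgq + hq
  obtain ⟨E2, hv2, m2, hm2, he2⟩ := rou KUM2 UNIT0 hf hn hz ι (a := 0) (a1 := a) (a2 := a')
    (b1 := b) (b2 := b') ⟨0, 0, by simp, by norm_num⟩ ha hra hb hrb (by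
      intro g _
      unfold F2
      rw [map_div₀, hprod g _ _ u v hca' hqa, hprod g _ _ u' v' hcb' hqb])
  have w1 := val_some ι hv1
  have w2 := val_some ι hv2
  have w3 := val_some ι hv3
  have A0 := hne a ha
  have A0' := hne a' hra
  have B0 := hne b hb
  have B0' := hne b' hrb
  rw [← eq_div_iff (mul_ne_zero A0' A0')] at w1
  rw [← eq_div_iff (mul_ne_zero B0 B0')] at w2
  rw [← eq_div_iff (mul_ne_zero B0' B0')] at w3
  rw [w1] at he1
  rw [w2] at he2
  rw [w3] at he3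
  exact rou_ratio A0 A0' B0 B0' hm1 hm2 hm3 he1 he2 he3

end Pool.Agent.H577.Kim
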