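import Pool.Agent.H577.Kim.Glob2
import Pool.Agent.H577.Kim.Coro

/-!
The weakly global points if all roots of `f` are integers or imaginary quadratic integers.
-/

open scoped Pointwise TensorProduct Topology Polynomial NNReal

noncomputable section

namespace Pool.Agent.H577.Kim

open Y680 Y680.V Polynomial
open Y680.W (GG Gam Qb map_Qb)

/-- if a rational point is integral at `p`, then the value of the form is prime to `p` -/
theorem not_dvd_of_int {f : ℤ[X]} {p : ℕ} [Fact p.Prime] {x y : ℤ} (hxy : IsCoprime x y)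
    {z : Option ℚ_[p]} (hz : IsPt z (x : ℚ_[p]) (y : ℚ_[p])) (hz' : z ∈ intPtsAt f p) :
    ¬ (p : ℤ) ∣ form f x y := by
  obtain ⟨x', y', hu, hz''⟩ := hz'
  intro hdvd
  have hp : p.Prime := Fact.out
  -- proportionality
  have hprop : (x : ℚ_[p]) * (y' : ℚ_[p]) = (y : ℚ_[p]) * (x' : ℚ_[p]) := by
    rcases hz with ⟨h1, h2⟩ | ⟨h1, h2⟩ <;> rcases hz'' with ⟨h3, h4⟩ | ⟨h3, h4⟩
    · rw [h1, h3, mul_zero, zero_mul]
    · rw [h2] at h4
      exact absurd h4 (by simp)
    · rw [h2] at h4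
      exact absurd h4 (by simp)
    · rw [h2] at h4
      have h5 := Option.some.inj h4
      rw [div_eq_div_iff h1 h3] at h5
      rw [h5]
      ring
  have hprop' : (x : ℤ_[p]) * y' = (y : ℤ_[p]) * x' := by
    apply Subtype.ext
    push_cast
    exact hprop
  obtain ⟨r, s, hrs⟩ := hxy
  -- (x', y') = lam * (x, y)
  set lam : ℤ_[p] := (r : ℤ_[p]) * x' + (s : ℤ_[p]) * y' with hlam
  have hrs' : (r : ℤ_[p]) * (x : ℤ_[p]) + (s : ℤ_[p]) * (y : ℤ_[p]) = 1 := by
    exact_mod_cast congrArg (Int.cast : ℤ → ℤ_[p]) hrs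
  have hx' : x' = lam * (x : ℤ_[p]) := by
    rw [hlam]
    linear_combination (-x') * hrs' - (s : ℤ_[p]) * hprop'
  have hy' : y' = lam * (y : ℤ_[p]) := by
    rw [hlam]
    linear_combination (-y') * hrs' + (r : ℤ_[p]) * hprop'
  have hform : form f x' y' = lam ^ f.natDegree * form f (x : ℤ_[p]) (y : ℤ_[p]) := by
    rw [hx', hy']
    unfold form
    rw [Finset.mul_sum]
    refine Finset.sum_congr rfl fun i hi => ?_
    have hi' : i ≤ f.natDegree := Nat.lt_succ_iff.1 (Finset.mem_range.1 hi)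
    have e : lam ^ f.natDegree = lam ^ i * lam ^ (f.natDegree - i) := by
      rw [← pow_add, Nat.add_sub_cancel' hi']
    rw [e, mul_pow, mul_pow]
    ring
  rw [hform] at hu
  have hu2 := isUnit_of_mul_isUnit_right hu
  have h1 := form_map (Int.castRingHom ℤ_[p]) f x y
  simp only [eq_intCast] at h1
  rw [← h1, PadicInt.isUnit_iff] at hu2
  have h3 := (PadicInt.norm_int_lt_one_iff_dvd (form f x y)).2 hdvd
  rw [hu2] at h3
  exact lt_irrefl _ h3

/-- rational weakly global points: all ratios roots of unity -/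
theorem crit_of_rou {f : ℤ[X]} (hf : f.Monic) {p : ℕ} [Fact p.Prime] {x y : ℤ} (hy : y ≠ 0)
    (hF : ¬ (p : ℤ) ∣ form f x y) (ι : Qb →+* AlgebraicClosure ℚ_[p])
    (h : ∀ a b : Qb, W.IsRoot (f0 f) (some a) → W.IsRoot (f0 f) (some b) → ∃ m : ℕ, 0 < m ∧
      ((algebraMap ℚ_[p] (AlgebraicClosure ℚ_[p]) ((x : ℚ_[p]) / (y : ℚ_[p])) - ι a) /
        (algebraMap ℚ_[p] (AlgebraicClosure ℚ_[p]) ((x : ℚ_[p]) / (y : ℚ_[p])) - ι b)) ^ m = 1) :
    ∀ j ≤ f.natDegree,
      form f x y ^ j ∣ (form f (C x + X) (C y)).coeff (f.natDegree - j) ^ f.natDegree := by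
  refine D696.norm f p x y hf Fact.out hF ?_
  intro l _ hlp a b ha hb
  have : Algebra.IsAlgebraic ℚ Qb := algebraicClosure.isAlgebraic ℚ Om
  let j0 : Qb →ₐ[ℚ] AlgebraicClosure ℚ_[l] := IsAlgClosed.lift
  let κ : Qb →+* AlgebraicClosure ℚ_[l] := j0
  obtain ⟨r, hr, hra⟩ := root_lift hf κ ha
  obtain ⟨s, hs, hsb⟩ := root_lift hf κ hb
  obtain ⟨m, hm, hm'⟩ := h r s hr hs
  have hyQ : (y : Qb) ≠ 0 := by exact_mod_cast hy
  have e1 : ι ((((x : Qb) / (y : Qb)) - r) / (((x : Qb) / (y : Qb)) - s)) =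
      ((algebraMap ℚ_[p] (AlgebraicClosure ℚ_[p]) ((x : ℚ_[p]) / (y : ℚ_[p])) - ι r) /
        (algebraMap ℚ_[p] (AlgebraicClosure ℚ_[p]) ((x : ℚ_[p]) / (y : ℚ_[p])) - ι s)) := by
    rw [map_div₀, map_sub, map_sub, map_div₀, map_div₀, map_intCast, map_intCast, map_intCast,
      map_intCast]
  rw [← e1, ← map_pow, ← map_one ι] at hm'
  have h1 := ι.injective hm'
  have e2 : (((x : Qb) / (y : Qb)) - r) / (((x : Qb) / (y : Qb)) - s) =
      ((x : Qb) - r * y) / ((x : Qb) - s * y) := by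
    have : ∀ c : Qb, (x : Qb) / (y : Qb) - c = ((x : Qb) - c * y) / y := by
      intro c
      field_simp
    rw [this r, this s, div_div_div_cancel_right₀ hyQ]
  rw [e2] at h1
  have h2 := congrArg κ h1
  rw [map_pow, map_one, map_div₀, map_sub, map_sub, map_mul, map_mul, map_intCast, map_intCast,
    hra, hsb] at h2
  have h3 := vroot hm.ne' h2
  rw [map_div₀] at h3
  have hne2 : (Valued.v : Valuation (PadicAlgCl l) ℝ≥0)
      ((x : AlgebraicClosure ℚ_[l]) - b * y) ≠ 0 := by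
    intro h0
    rw [h0, div_zero] at h3
    exact zero_ne_one h3
  exact (div_eq_one_iff_eq hne2).1 h3

theorem form_mul' {g h : ℤ[X]} (hg : g.Monic) (hh : h.Monic) (x y : ℤ) :
    form (g * h) x y = form g x y * form h x y := by
  have hd : (g * h).natDegree = g.natDegree + h.natDegree := hg.natDegree_mul hh
  have key : ∀ y : ℤ[X], y ≠ 0 → ∀ x : ℤ[X],
      form (g * h) x y = form g x y * form h x y := by
    intro y hy x
    let K := FractionRing ℤ[X]
    have hinj : Function.Injective (algebraMap ℤ[X] K) := IsFractionRing.injective _ _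
    apply hinj
    have hyK : algebraMap ℤ[X] K y ≠ 0 := fun h0 => hy (hinj (by rw [h0, map_zero]))
    rw [map_mul, form_map, form_map, form_map, form_eq_eval _ _ _ hyK, form_eq_eval _ _ _ hyK,
      form_eq_eval _ _ _ hyK, hd, Polynomial.eval₂_mul, pow_add]
    ring
  have h1 := key (X + C y) (Polynomial.X_add_C_ne_zero y) (C x)
  have h2 := congrArg (Polynomial.evalRingHom (0 : ℤ)) h1
  rw [map_mul, form_map, form_map, form_map] at h2
  simpa using h2

/-- the roots of `g` in the algebraic numbers -/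
theorem root_C {g : ℤ[X]} (j : Qb →ₐ[ℚ] ℂ) {a : Qb} (ha : W.IsRoot (f0 g) (some a)) :
    Polynomial.aeval (j a) g = 0 := by
  have h1 : Polynomial.aeval a (f0 g) = 0 := ha
  rw [eval₂_f0] at h1
  have h2 := congrArg j h1
  rw [map_zero] at h2
  have h3 : (j : Qb →+* ℂ) (Polynomial.eval₂ (Int.castRingHom Qb) a g) = 0 := h2
  rw [Polynomial.hom_eval₂] at h3
  rw [Polynomial.aeval_def]
  have h4 : (j : Qb →+* ℂ).comp (Int.castRingHom Qb) = algebraMap ℤ ℂ := RingHom.ext_int _ _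
  rw [h4] at h3
  exact h3

theorem root_mul {g h : ℤ[X]} {a : Qb} (ha : W.IsRoot (f0 g) (some a)) :
    W.IsRoot (f0 (g * h)) (some a) := by
  change Polynomial.aeval a (f0 (g * h)) = 0
  have h1 : Polynomial.aeval a (f0 g) = 0 := ha
  unfold f0 at h1 ⊢
  rw [Polynomial.map_mul, map_mul, h1, zero_mul]

theorem upper (KUM2 : S_KUM2) (UNIT0 : S_UNIT0) {f g : ℤ[X]} {p : ℕ} [Fact p.Prime]
    (hf : Admissible f p) (hg : g.Monic) (hgf : g ∣ f) (hd : 3 ≤ g.natDegree)
    (hIQ : ∀ a : ℂ, Polynomial.aeval a g = 0 →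
      ∃ u v : ℤ, a ^ 2 + (u : ℂ) * a + (v : ℂ) = 0 ∧ u ^ 2 ≤ 4 * v)
    {n : ℕ} (hn : 1 ≤ n) {z : Option ℚ_[p]}
    (hz : z ∈ weaklyGlobal (AlgebraicClosure (RatFunc ℚ)) f p n) :
    ∃ x y : ℤ, IsCoprime x y ∧ IsPt z (x : ℚ_[p]) (y : ℚ_[p]) ∧ ¬ (p : ℤ) ∣ form f x y ∧
        ∀ j ≤ g.natDegree, form g x y ^ j ∣
          (form g (C x + X) (C y)).coeff (g.natDegree - j) ^ g.natDegree := by
  have : Algebra.IsAlgebraic ℚ Qb := algebraicClosure.isAlgebraic ℚ Om
  obtain ⟨h, rfl⟩ := hgf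
  have hh : h.Monic := hg.of_mul_monic_left hf.monic
  cases z with
  | none =>
    refine ⟨1, 0, isCoprime_one_left, Or.inl ⟨by simp, rfl⟩, ?_, ?_⟩
    · rw [form_one_zero hf.monic]
      intro h
      have h1 := Int.isUnit_iff.1 (isUnit_of_dvd_one h)
      have h2 := (Fact.out : p.Prime).one_lt
      omega
    · intro j _
      rw [form_one_zero hg, one_pow]
      exact one_dvd _
  | some z0 =>
    have hIQ' : ∀ a : Qb, W.IsRoot (f0 g) (some a) → IQ a := by
      intro a ha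
      let j : Qb →ₐ[ℚ] ℂ := IsAlgClosed.lift
      obtain ⟨u, v, h2, h3⟩ := hIQ (j a) (root_C j ha)
      refine ⟨u, v, ?_, h3⟩
      apply j.injective
      rw [map_add, map_add, map_mul, map_pow, map_intCast, map_intCast, map_zero]
      exact h2
    let j0 : Qb →ₐ[ℚ] AlgebraicClosure ℚ_[p] := IsAlgClosed.lift
    let ι : Qb →+* AlgebraicClosure ℚ_[p] := j0
    have hR : ∀ a b : Qb, W.IsRoot (f0 g) (some a) → W.IsRoot (f0 g) (some b) →
        ∃ m : ℕ, 0 < m ∧ ((algebraMap ℚ_[p] (AlgebraicClosure ℚ_[p]) z0 - ι a) /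
          (algebraMap ℚ_[p] (AlgebraicClosure ℚ_[p]) z0 - ι b)) ^ m = 1 :=
      fun a b ha hb => ratio_rou KUM2 UNIT0 hf.monic hn hz ι (root_mul ha) (root_mul hb)
        (hIQ' a ha) (hIQ' b hb)
    have hsep : (g.map (Int.castRingHom ℚ)).Separable := by
      have h1 := hf.sep
      rw [Polynomial.map_mul] at h1
      exact h1.of_mul_left
    obtain ⟨q, rfl⟩ := D168.geo p ι g hsep hd hg z0
      (fun a ha => isRoot_ne hf.monic hz.1 ι (root_mul ha)) hR
    have hden : q.den ≠ 0 := q.den_nz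
    have hqe : ((q : ℚ) : ℚ_[p]) = ((q.num : ℤ) : ℚ_[p]) / ((q.den : ℤ) : ℚ_[p]) := by
      conv_lhs => rw [← Rat.num_div_den q]
      push_cast
      rfl
    have hcop : IsCoprime q.num (q.den : ℤ) := by
      rw [Int.isCoprime_iff_nat_coprime]
      simpa using q.reduced
    have hpt : IsPt (some ((q : ℚ) : ℚ_[p])) ((q.num : ℤ) : ℚ_[p]) ((q.den : ℤ) : ℚ_[p]) := by
      refine Or.inr ⟨?_, by rw [hqe]⟩
      exact_mod_cast hden
    have hF := not_dvd_of_int hcop hpt hz.1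
    refine ⟨q.num, q.den, hcop, hpt, hF, ?_⟩
    refine crit_of_rou hg (by exact_mod_cast hden) ?_ ι ?_
    · intro h0
      apply hF
      rw [form_mul' hg hh]
      exact h0.mul_right _
    · rw [← hqe]
      exact hR

/-- three integer roots: only the point at infinity -/
theorem y_zero {a b c x y : ℤ} (hab : a ≠ b) (hac : a ≠ c) (hbc : b ≠ c)
    (h : UnitRatios ((X - C a) * ((X - C b) * (X - C c))) x y)
    (h0 : form ((X - C a) * ((X - C b) * (X - C c))) x y ≠ 0) : y = 0 := by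
  have hr : ∀ t : ℤ, t = a ∨ t = b ∨ t = c →
      Polynomial.aeval ((t : ℤ) : ℂ) ((X - C a) * ((X - C b) * (X - C c)) : ℤ[X]) = 0 := by
    rintro t (rfl | rfl | rfl) <;> simp
  have key : ∀ s t : ℤ, (s = a ∨ s = b ∨ s = c) → (t = a ∨ t = b ∨ t = c) →
      x - t * y ≠ 0 → ∃ k : ℤ, x - s * y = k * (x - t * y) := by
    intro s t hs ht ht0
    have h1 := h (s : ℂ) (t : ℂ) (hr s hs) (hr t ht)
    have h2 : (((x : ℂ) - (s : ℂ) * y) / ((x : ℂ) - (t : ℂ) * y)) =
        algebraMap ℚ ℂ (((x - s * y : ℤ) : ℚ) / ((x - t * y : ℤ) : ℚ)) := by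
      rw [eq_ratCast]
      push_cast
      rfl
    rw [h2, isIntegral_algebraMap_iff (algebraMap ℚ ℂ).injective] at h1
    obtain ⟨k, hk⟩ := IsIntegrallyClosed.isIntegral_iff.1 h1
    refine ⟨k, ?_⟩
    have h3 : ((x - t * y : ℤ) : ℚ) ≠ 0 := by exact_mod_cast ht0
    rw [eq_div_iff h3] at hk
    have h4 : (((k * (x - t * y) : ℤ)) : ℚ) = ((x - s * y : ℤ) : ℚ) := by
      rw [← hk]
      push_cast
      simp
    exact_mod_cast h4.symm
  have hlin : ∀ t : ℤ, form (X - C t) x y = x - t * y := by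
    intro t
    unfold form
    rw [natDegree_X_sub_C, Finset.sum_range_succ, Finset.sum_range_one, coeff_sub, coeff_sub,
      coeff_X_zero, coeff_C_zero, coeff_X_one, coeff_C_of_ne_zero one_ne_zero]
    simp
    ring
  have hm : ∀ t : ℤ, (X - C t : ℤ[X]).Monic := fun t => monic_X_sub_C t
  rw [form_mul' (hm a) ((hm b).mul (hm c)), form_mul' (hm b) (hm c), hlin, hlin, hlin] at h0
  have ha0 : x - a * y ≠ 0 := left_ne_zero_of_mul h0
  have hb0 : x - b * y ≠ 0 := left_ne_zero_of_mul (right_ne_zero_of_mul h0)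
  have hc0 : x - c * y ≠ 0 := right_ne_zero_of_mul (right_ne_zero_of_mul h0)
  have pm : ∀ s t : ℤ, (s = a ∨ s = b ∨ s = c) → (t = a ∨ t = b ∨ t = c) →
      x - s * y ≠ 0 → x - t * y ≠ 0 → x - s * y = x - t * y ∨ x - s * y = -(x - t * y) := by
    intro s t hs ht hs0 ht0
    obtain ⟨k, hk⟩ := key s t hs ht ht0
    obtain ⟨k', hk'⟩ := key t s ht hs hs0
    have h1 : k * k' = 1 := by
      have : (x - s * y) * (k * k') = (x - s * y) * 1 := by
        calc (x - s * y) * (k * k') = k * (k' * (x - s * y)) := by ring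
          _ = k * (x - t * y) := by rw [← hk']
          _ = _ := by rw [← hk, mul_one]
      exact mul_left_cancel₀ hs0 this
    rcases Int.eq_one_or_neg_one_of_mul_eq_one h1 with rfl | rfl
    · left
      rw [hk, one_mul]
    · right
      rw [hk]
      ring
  have q1 := pm a b (by tauto) (by tauto) ha0 hb0
  have q2 := pm a c (by tauto) (by tauto) ha0 hc0
  have q3 := pm b c (by tauto) (by tauto) hb0 hc0
  have z1 : ∀ s t : ℤ, s ≠ t → x - s * y = x - t * y → y = 0 := by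
    intro s t hst h
    have : (s - t) * y = 0 := by linear_combination -h
    exact (mul_eq_zero.1 this).resolve_left (sub_ne_zero.2 hst)
  rcases q1 with q1 | q1
  · exact z1 _ _ hab q1
  · rcases q2 with q2 | q2
    · exact z1 _ _ hac q2
    · refine z1 _ _ hbc ?_
      linear_combination q1 - q2

end Pool.Agent.H577.Kim
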