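import Pool.Agent.H577.Kim.Glob3

/-!
The finite point which is weakly global is the centre of the circle through the roots.
-/

open scoped Polynomial

noncomputable section

namespace Pool.Agent.H577.Kim

open Y680 Y680.V Polynomial

theorem re_root {a : ℂ} {u v : ℤ} (h : a ^ 2 + (u : ℂ) * a + (v : ℂ) = 0)
    (huv : u ^ 2 ≤ 4 * v) : 2 * a.re + u = 0 ∧ a.re ^ 2 + a.im ^ 2 = v := by
  have h1 := congrArg Complex.re h
  have h2 := congrArg Complex.im h
  simp only [pow_two, Complex.add_re, Complex.mul_re, Complex.intCast_re, Complex.intCast_im,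
    Complex.add_im, Complex.mul_im, Complex.zero_re, Complex.zero_im, zero_mul, sub_zero,
    add_zero] at h1 h2
  have huv' : (u : ℝ) ^ 2 ≤ 4 * v := by exact_mod_cast huv
  have h3 : a.im * (2 * a.re + u) = 0 := by linear_combination h2
  have h4 : 2 * a.re + u = 0 := by
    rcases mul_eq_zero.1 h3 with h5 | h5
    · rw [h5] at h1
      have h6 : (2 * a.re + u) ^ 2 = (u : ℝ) ^ 2 - 4 * v := by linear_combination 4 * h1
      have h7 := sq_nonneg (2 * a.re + u)
      have h8 : (2 * a.re + u) ^ 2 = 0 := by linarith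
      exact pow_eq_zero_iff two_ne_zero |>.1 h8
    · exact h5
  refine ⟨h4, ?_⟩
  linear_combination -h1 + a.re * h4

theorem norm_sq_root {a : ℂ} {u v : ℤ} (h : a ^ 2 + (u : ℂ) * a + (v : ℂ) = 0)
    (huv : u ^ 2 ≤ 4 * v) (x y : ℤ) :
    Complex.normSq ((x : ℂ) - a * y) = ((x ^ 2 + u * x * y + v * y ^ 2 : ℤ) : ℝ) := by
  obtain ⟨h1, h2⟩ := re_root h huv
  rw [Complex.normSq_apply]
  simp only [Complex.sub_re, Complex.mul_re, Complex.intCast_re, Complex.intCast_im,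
    Complex.sub_im, Complex.mul_im, mul_zero, sub_zero, zero_add, zero_sub]
  push_cast
  linear_combination (y : ℝ) ^ 2 * h2 - (x : ℝ) * y * h1

theorem conj_root_C {g : ℤ[X]} {a : ℂ} (h : aeval a g = 0) :
    aeval ((starRingEnd ℂ) a) g = 0 := by
  have h1 := congrArg (starRingEnd ℂ) h
  rw [map_zero, aeval_def, Polynomial.hom_eval₂] at h1
  rw [aeval_def]
  have h2 : (starRingEnd ℂ).comp (algebraMap ℤ ℂ) = algebraMap ℤ ℂ := RingHom.ext_int _ _
  rwa [h2] at h1

theorem sub_ne_of_form {g : ℤ[X]} {x y : ℤ} (hg : form g x y ≠ 0) {a : ℂ} (h : aeval a g = 0) :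
    (x : ℂ) - a * y ≠ 0 := by
  intro h0
  have h1 : (x : ℂ) = a * y := sub_eq_zero.1 h0
  have h2 := form_map (Int.castRingHom ℂ) g x y
  simp only [eq_intCast] at h2
  have h3 : Polynomial.eval₂ (Int.castRingHom ℂ) a g = 0 := h
  rw [h1, form_root, h3, mul_zero] at h2
  exact hg (by exact_mod_cast h2)

theorem equal_abs {g : ℤ[X]} {x y : ℤ} (hU : UnitRatios g x y) (hg : form g x y ≠ 0)
    (hIQ : ∀ a : ℂ, aeval a g = 0 → ∃ u v : ℤ, a ^ 2 + (u : ℂ) * a + (v : ℂ) = 0 ∧ u ^ 2 ≤ 4 * v)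
    {a b : ℂ} (ha : aeval a g = 0) (hb : aeval b g = 0) :
    ‖(x : ℂ) - a * y‖ = ‖(x : ℂ) - b * y‖ := by
  have key : ∀ a b : ℂ, aeval a g = 0 → aeval b g = 0 → ∀ u v u' v' : ℤ,
      a ^ 2 + (u : ℂ) * a + (v : ℂ) = 0 → u ^ 2 ≤ 4 * v →
      b ^ 2 + (u' : ℂ) * b + (v' : ℂ) = 0 → u' ^ 2 ≤ 4 * v' →
      ∃ k : ℤ, x ^ 2 + u * x * y + v * y ^ 2 = k * (x ^ 2 + u' * x * y + v' * y ^ 2) := by
    intro a b ha hb u v u' v' h1 h2 h3 h4
    have i1 := hU a b ha hb
    have i2 := hU _ _ (conj_root_C ha) (conj_root_C hb)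
    have i3 := i1.mul i2
    have e1 : ∀ c : ℂ, ((x : ℂ) - c * y) * ((x : ℂ) - (starRingEnd ℂ) c * y) =
        ((Complex.normSq ((x : ℂ) - c * y) : ℝ) : ℂ) := by
      intro c
      rw [← Complex.mul_conj]
      congr 1
      simp
    rw [div_mul_div_comm, e1, e1, norm_sq_root h1 h2, norm_sq_root h3 h4] at i3
    set A : ℤ := x ^ 2 + u * x * y + v * y ^ 2 with hA
    set B : ℤ := x ^ 2 + u' * x * y + v' * y ^ 2 with hB
    have hB0 : (B : ℚ) ≠ 0 := by
      intro h0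
      have h5 := norm_sq_root h3 h4 x y
      rw [← hB] at h5
      have h6 : (B : ℝ) = 0 := by exact_mod_cast h0
      rw [h6, Complex.normSq_eq_zero] at h5
      exact sub_ne_of_form hg hb h5
    have e2 : (((A : ℤ) : ℝ) : ℂ) / (((B : ℤ) : ℝ) : ℂ) =
        algebraMap ℚ ℂ ((A : ℚ) / (B : ℚ)) := by
      rw [eq_ratCast]
      push_cast
      rfl
    rw [e2, isIntegral_algebraMap_iff (algebraMap ℚ ℂ).injective] at i3
    obtain ⟨k, hk⟩ := IsIntegrallyClosed.isIntegral_iff.1 i3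
    refine ⟨k, ?_⟩
    rw [eq_div_iff hB0] at hk
    have h7 : (((k * B : ℤ)) : ℚ) = ((A : ℤ) : ℚ) := by
      rw [← hk]
      push_cast
      simp
    exact_mod_cast h7.symm
  obtain ⟨u, v, h1, h2⟩ := hIQ a ha
  obtain ⟨u', v', h3, h4⟩ := hIQ b hb
  obtain ⟨k, hk⟩ := key a b ha hb u v u' v' h1 h2 h3 h4
  obtain ⟨k', hk'⟩ := key b a hb ha u' v' u v h3 h4 h1 h2
  have pos : ∀ (c : ℂ) (s t : ℤ), aeval c g = 0 → c ^ 2 + (s : ℂ) * c + (t : ℂ) = 0 →
      s ^ 2 ≤ 4 * t → 0 < x ^ 2 + s * x * y + t * y ^ 2 := by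
    intro c s t hc h5 h6
    have h7 := norm_sq_root h5 h6 x y
    have h8 : 0 < Complex.normSq ((x : ℂ) - c * y) :=
      Complex.normSq_pos.2 (sub_ne_of_form hg hc)
    rw [h7] at h8
    exact_mod_cast h8
  have pA := pos a u v ha h1 h2
  have pB := pos b u' v' hb h3 h4
  have e3 := norm_sq_root h1 h2 x y
  have e4 := norm_sq_root h3 h4 x y
  set A : ℤ := x ^ 2 + u * x * y + v * y ^ 2 with hA
  set B : ℤ := x ^ 2 + u' * x * y + v' * y ^ 2 with hB
  have hAB : A = B := by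
    have h5 : k * k' = 1 := by
      have : A * (k * k') = A * 1 := by
        calc A * (k * k') = k * (k' * A) := by ring
          _ = k * B := by rw [← hk']
          _ = A * 1 := by rw [← hk, mul_one]
      exact mul_left_cancel₀ pA.ne' this
    rcases Int.eq_one_or_neg_one_of_mul_eq_one h5 with h6 | h6
    · rw [hk, h6, one_mul]
    · rw [h6] at hk
      omega
  rw [Complex.normSq_eq_norm_sq] at e3 e4
  rw [← hAB, ← e3] at e4
  exact (pow_left_inj₀ (norm_nonneg _) (norm_nonneg _) two_ne_zero).1 e4.symm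

theorem centre_unique {g : ℤ[X]} (hsep : (g.map (Int.castRingHom ℚ)).Separable)
    (hd : 3 ≤ g.natDegree) {q q' : ℂ}
    (h : ∀ a b : ℂ, aeval a g = 0 → aeval b g = 0 → ‖q - a‖ = ‖q - b‖)
    (h' : ∀ a b : ℂ, aeval a g = 0 → aeval b g = 0 → ‖q' - a‖ = ‖q' - b‖) : q = q' := by
  classical
  have hg0 : g ≠ 0 := by
    rintro rfl
    simp at hd
  have hinj : Function.Injective (Int.castRingHom ℂ) := Int.cast_injective
  have hG0 : g.map (Int.castRingHom ℂ) ≠ 0 := (Polynomial.map_ne_zero_iff hinj).2 hg0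
  have hGs : (g.map (Int.castRingHom ℂ)).Separable := by
    have h1 := hsep.map (f := algebraMap ℚ ℂ)
    rw [Polynomial.map_map] at h1
    have h2 : (algebraMap ℚ ℂ).comp (Int.castRingHom ℚ) = Int.castRingHom ℂ := RingHom.ext_int _ _
    rwa [h2] at h1
  set R := (g.map (Int.castRingHom ℂ)).roots.toFinset with hR
  have hmem : ∀ a : ℂ, a ∈ R → aeval a g = 0 := by
    intro a ha
    rw [hR, Multiset.mem_toFinset, mem_roots hG0, IsRoot.def, eval_map] at ha
    exact ha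
  have hcard : R.card = g.natDegree := by
    rw [hR, Multiset.toFinset_card_of_nodup (nodup_roots hGs),
      ← (IsAlgClosed.splits (g.map (Int.castRingHom ℂ))).natDegree_eq_card_roots,
      natDegree_map_eq_of_injective hinj]
  have h3 : 2 < R.card := by omega
  obtain ⟨r1, r2, r3, m1, m2, m3, n12, n13, n23⟩ := Finset.two_lt_card_iff.1 h3
  exact D168.centre n12 n13 n23 (h _ _ (hmem _ m1) (hmem _ m2)) (h _ _ (hmem _ m1) (hmem _ m3))
    (h' _ _ (hmem _ m1) (hmem _ m2)) (h' _ _ (hmem _ m1) (hmem _ m3))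

end Pool.Agent.H577.Kim
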