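import Pool.Graph.R_seed8.Y680.V.P5

/-!
The class of the path from infinity to a rational point is trivial at level one on the inertia
group if the ratios of the differences of the point and the roots are units.
-/

open scoped Pointwise TensorProduct Topology
open Polynomial

noncomputable section

namespace Pool.Agent.H577.Kim

open Y680.W Y680.W.K3

/-- a rational point which is not a root, and whose distances from the roots have the same
valuation -/
structure Even (f : ℚ[X]) (A : ValuationSubring Qb) (q : ℚ) : Prop where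
  root : ¬ Y680.W.IsRoot f (some (q : Qb))
  ratio : ∀ a b : Qb, Y680.W.IsRoot f (some a) → Y680.W.IsRoot f (some b) → ((q : Qb) - a) / ((q : Qb) - b) ∈ A

theorem coe_q (q : ℚ) : (((q : ℚ) : Qb) : Om) = ((q : ℚ) : Om) := by
  push_cast
  rfl

theorem gq (g : GG) (q : ℚ) : g (q : Om) = (q : Om) := by
  rw [map_ratCast]

theorem Qb_val_prod {ι : Type*} (s : Finset ι) (a : ι → Qb) (n : ι → ℤ) :
    ((∏ i ∈ s, (a i) ^ (n i) : Qb) : Om) = ∏ i ∈ s, (a i : Om) ^ (n i) := by
  push_cast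
  rfl

theorem mem_zpow {A : ValuationSubring Qb} {x : Qb} (h1 : x ∈ A) (h2 : x⁻¹ ∈ A) (n : ℤ) :
    x ^ n ∈ A := by
  cases n with
  | ofNat n =>
    rw [Int.ofNat_eq_natCast, zpow_natCast]
    exact pow_mem h1 _
  | negSucc n =>
    rw [zpow_negSucc, ← inv_pow]
    exact pow_mem h2 _

theorem zpow_fs {K ι : Type*} [Field K] (s : Finset ι) (c : K) (hc : c ≠ 0) (n : ι → ℤ) :
    ∏ x ∈ s, c ^ (n x) = c ^ (∑ x ∈ s, n x) := by
  classical
  induction s using Finset.induction_on with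
  | empty => simp
  | insert i s hi ih => rw [Finset.prod_insert hi, Finset.sum_insert hi, ih, zpow_add₀ hc]

/-- the product of the distances with exponents of sum zero is a unit -/
theorem unit_prod {f : ℚ[X]} {A : ValuationSubring Qb} {q : ℚ} (h : Even f A q) (s : Finset Qb)
    (n : Qb → ℤ) (hs : ∀ x ∈ s, Y680.W.IsRoot f (some x)) (hn : ∑ x ∈ s, n x = 0) :
    (∏ x ∈ s, ((q : Qb) - x) ^ (n x) : Qb) ∈ A := by
  have hne : ∀ x ∈ s, ((q : Qb) - x) ≠ 0 := by
    intro x hx h0
    apply h.root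
    have : (q : Qb) = x := sub_eq_zero.1 h0
    rw [this]
    exact hs x hx
  rcases s.eq_empty_or_nonempty with rfl | ⟨x0, hx0⟩
  · rw [Finset.prod_empty]
    exact one_mem _
  · have h0 := hne x0 hx0
    have e1 : (∏ x ∈ s, ((q : Qb) - x) ^ (n x) : Qb) =
        ∏ x ∈ s, (((q : Qb) - x) / ((q : Qb) - x0)) ^ (n x) := by
      have : ∀ x ∈ s, ((q : Qb) - x) ^ (n x) =
          (((q : Qb) - x) / ((q : Qb) - x0)) ^ (n x) * ((q : Qb) - x0) ^ (n x) := by
        intro x _
        rw [div_zpow, div_mul_cancel₀ _ (zpow_ne_zero _ h0)]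
      rw [Finset.prod_congr rfl this, Finset.prod_mul_distrib]
      have e2 : ∏ x ∈ s, ((q : Qb) - x0) ^ (n x) = 1 := by
        rw [zpow_fs s _ h0, hn, zpow_zero]
      rw [e2, mul_one]
    rw [e1]
    refine prod_mem fun x hx => mem_zpow (h.ratio _ _ (hs x hx) (hs x0 hx0)) ?_ _
    rw [inv_div]
    exact h.ratio _ _ (hs x0 hx0) (hs x hx)

/-- an element whose `p ^ k`-th power is a unit fixed by `τ` is fixed by `τ`, if `τ` is in the
inertia group of a valuation ring whose residue characteristic is not `p` -/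
theorem fix_of_unit {p l : ℕ} [Fact p.Prime] (hl : l.Prime) (hlp : l ≠ p)
    {A : ValuationSubring Qb} (hA : (l : Qb) ∈ A.nonunits) {τ : GG} (hτ : Iner A τ) (k : ℕ)
    (E e : Qb) (h1 : E ∈ A) (h2 : E⁻¹ ∈ A) (hE0 : E ≠ 0) (he : e ^ (p ^ k) = E)
    (hτE : τ (E : Om) = E) : τ (e : Om) = e := by
  have hp : p.Prime := Fact.out
  have hpk : p ^ k ≠ 0 := pow_ne_zero _ hp.ne_zero
  have he0 : e ≠ 0 := by
    rintro rfl
    rw [zero_pow hpk] at he
    exact hE0 he.symm
  have heA : e ∈ A := by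
    rw [← A.valuation_le_one_iff] at h1 ⊢
    rw [← he, map_pow] at h1
    exact (pow_le_one_iff hpk).1 h1
  have heA' : e⁻¹ ∈ A := by
    rw [← A.valuation_le_one_iff] at h2 ⊢
    rw [← he, ← inv_pow, map_pow] at h2
    exact (pow_le_one_iff hpk).1 h2
  have h3 := hτ e heA
  set e' : Qb := ⟨τ (e : Om), map_Qb τ e.2⟩ with he'
  have h4 : e' ^ (p ^ k) = E := by
    apply Subtype.ext
    change (τ (e : Om)) ^ (p ^ k) = (E : Om)
    rw [← map_pow]
    have : (e : Om) ^ (p ^ k) = (E : Om) := congrArg Subtype.val he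
    rw [this, hτE]
  have h5 : e' / e = 1 := by
    refine T1.eq_of_val A hpk (T1.val_nat A hp hl hlp (A.mem_nonunits_iff.1 hA) k) ?_
      (one_pow _) ?_
    · rw [div_pow, h4, he, div_self hE0]
    · have : e' / e - 1 = e⁻¹ * (e' - e) := by
        field_simp
      rw [this, map_mul]
      calc A.valuation e⁻¹ * A.valuation (e' - e) ≤ 1 * A.valuation (e' - e) :=
            mul_le_mul_left ((A.valuation_le_one_iff _).2 heA') _
        _ < 1 := by
            rw [one_mul]
            exact A.mem_nonunits_iff.1 h3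
  have h6 : e' = e := by
    rw [div_eq_one_iff_eq he0] at h5
    exact h5
  exact congrArg Subtype.val h6

/-- The class of the path from infinity to `q` is trivial at level one on the inertia group. -/
theorem K3' {p l : ℕ} [Fact p.Prime] (hl : l.Prime) (hlp : l ≠ p)
    {A : ValuationSubring Qb} (hA : (l : Qb) ∈ A.nonunits) {f : ℚ[X]} {q : ℚ} (hq : Even f A q)
    (lam : Gam → ℚ_[p]) (hlam : IsUnr p f lam) (v w : ValuationSubring Om) (hv : IsPlace none v)
    (hw : IsPlace (some (q : Qb)) w) (τ : GG) (γ : Gam) (hτw : τ • w = w)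
    (hτv : ((γ : GG)⁻¹ * τ) • v = v) (hτr : FixR f τ) (hτi : Iner A τ) : lam γ = 0 := by
  have hp : Fact p.Prime := inferInstance
  have h5 : S_VAL := t_VAL
  obtain ⟨N, hN⟩ := exists_scale hlam.cont
  let lam' : Gam → ℤ_[p] := fun γ => ⟨(p : ℚ_[p]) ^ N * lam γ, hN γ⟩
  have hp0 : (p : ℚ_[p]) ^ N ≠ 0 := pow_ne_zero _ (by exact_mod_cast hp.out.ne_zero)
  have hadd : ∀ γ δ, lam' (γ * δ) = lam' γ + lam' δ := by
    intro γ δ
    apply Subtype.ext
    change (p : ℚ_[p]) ^ N * lam (γ * δ) = (p : ℚ_[p]) ^ N * lam γ + (p : ℚ_[p]) ^ N * lam δ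
    rw [hlam.add, mul_add]
  have hcont : Continuous lam' :=
    Continuous.subtype_mk (continuous_const.mul hlam.cont) _
  have hunr : ∀ a : Option Qb, ¬ Y680.W.IsRoot f a → ∀ v : ValuationSubring Om, IsPlace a v →
      ∀ γ : Gam, γ • v = v → lam' γ = 0 := by
    intro a ha v hv γ hγ
    apply Subtype.ext
    change (p : ℚ_[p]) ^ N * lam γ = 0
    rw [hlam.unr a ha v hv γ hγ, mul_zero]
  suffices hs : lam' γ = 0 by
    have h1 : (p : ℚ_[p]) ^ N * lam γ = 0 := congrArg Subtype.val hs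
    exact (mul_eq_zero.1 h1).resolve_left hp0
  rw [← PadicInt.ext_of_toZModPow]
  intro k
  rw [map_zero]
  obtain ⟨y, ζ, s, n, hy, hζ, hsr, hsum, hyq, hact⟩ := f_KUM p f lam' hadd hcont hunr k
  have hq0 : 0 < p ^ k := pow_pos hp.out.pos k
  suffices hγy : (γ : GG) y = y by
    have h1 := hact γ
    rw [hγy] at h1
    have h2 : ζ ^ (PadicInt.toZModPow k (lam' γ)).val = 1 := by
      have : (1 : Om) * y = ζ ^ (PadicInt.toZModPow k (lam' γ)).val * y := by
        rw [one_mul]; exact h1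
      exact (mul_right_cancel₀ hy this).symm
    have h3 := (hζ.pow_eq_one_iff_dvd _).1 h2
    have : NeZero (p ^ k) := ⟨hq0.ne'⟩
    have h4 := Nat.eq_zero_of_dvd_of_lt h3 (ZMod.val_lt _)
    exact (ZMod.val_eq_zero _).1 h4
  set τ' : GG := (γ : GG)⁻¹ * τ with hτ'
  have hγ' : ∀ z ∈ Qb, (γ : GG)⁻¹ z = z := fun z hz => (inv_mem γ.2 : (γ : GG)⁻¹ ∈ Gam) z hz
  have hQ : ∀ z ∈ Qb, τ' z = τ z := by
    intro z hz
    rw [hτ', AlgEquiv.mul_apply]
    exact hγ' _ (map_Qb τ hz)
  have htt : ∀ g : GG, g tt = tt := fun g => g.commutes _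
  set F : Om := ∏ x ∈ s, (tt - (x : Om)) ^ (n x) with hF
  have hτF : τ F = F := by
    rw [hF, map_prod]
    refine Finset.prod_congr rfl fun x hx => ?_
    rw [map_zpow₀, map_sub, htt, hτr x (hsr x hx)]
  have hτ'F : τ' F = F := by
    rw [hF, map_prod]
    refine Finset.prod_congr rfl fun x hx => ?_
    rw [map_zpow₀, map_sub, htt, hQ _ x.2, hτr x (hsr x hx)]
  have hx0 : ∀ x ∈ s, (q : Om) - (x : Om) ≠ 0 := by
    intro x hx h0
    apply hq.root
    have h1 : (q : Qb) = x := by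
      apply Subtype.ext
      rw [coe_q]
      exact sub_eq_zero.1 h0
    rw [h1]
    exact hsr x hx
  -- at infinity
  have htt0 : tt ≠ 0 := by
    intro h0
    have h1 := (map_eq_zero (algebraMap (RatFunc ℚ) Om)).1 h0
    exact RatFunc.X_ne_zero h1
  have hA1 : Cg v F 1 := by
    have h1 : F = ∏ x ∈ s, (1 - (x : Om) * tt⁻¹) ^ (n x) := by
      have h2 : F = (∏ x ∈ s, tt ^ (n x)) * ∏ x ∈ s, (1 - (x : Om) * tt⁻¹) ^ (n x) := by
        rw [← Finset.prod_mul_distrib]
        refine Finset.prod_congr rfl fun x hx => ?_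
        rw [← mul_zpow]
        congr 1
        field_simp
      rw [h2, zpow_finsum s tt htt0, hsum, zpow_zero, one_mul]
    have h3 : Cg v F (∏ x ∈ s, (1 : Om) ^ (n x)) := by
      rw [h1]
      refine Cg.prod s _ _ fun x hx => Cg.zpow ?_ _
      refine Cg.mk' hv.1 (one_mem _) one_ne_zero ?_
      have : 1 - (x : Om) * tt⁻¹ - 1 = -((x : Om) * tt⁻¹) := by ring
      rw [this]
      exact nu_neg (nu_mul (Y680.W.K3.Qb_le hv.1 x.2) hv.2)
    simpa using h3
  have h1 : τ' y = y := by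
    refine fix_root h5 hv hq0 hy hyq (one_mem _) hA1 hτv hτ'F ?_
    intro e he
    have he' : e ∈ Qb := by
      rw [mem_algebraicClosure_iff]
      refine IsAlgebraic.of_pow hq0 ?_
      rw [he]
      exact isAlgebraic_one
    rw [hQ e he']
    exact iner_fix hl hlp hA hτi e k he
  -- at the point
  set Eq : Qb := ∏ x ∈ s, ((q : Qb) - x) ^ (n x) with hEq
  set E : Om := ∏ x ∈ s, ((q : Om) - (x : Om)) ^ (n x) with hE
  have hEE : (Eq : Om) = E := by
    rw [hEq, Qb_val_prod]
    refine Finset.prod_congr rfl fun x _ => ?_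
    rw [AddSubgroupClass.coe_sub, coe_q]
  have hEQ : E ∈ Qb := by
    rw [← hEE]
    exact Eq.2
  have hB : Cg w F E := by
    refine Cg.prod s _ _ fun x hx => Cg.zpow ?_ _
    refine Cg.mk' hw.1 ?_ (hx0 x hx) ?_
    · rw [← coe_q]
      exact sub_mem (Subtype.mem _) x.2
    · have h2 : tt - (x : Om) - ((q : Om) - (x : Om)) = loc (some (q : Qb)) := by
        change tt - (x : Om) - ((q : Om) - (x : Om)) = tt - ((q : Qb) : Om)
        rw [coe_q]
        ring
      rw [h2]
      exact hw.2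
  have hEA : Eq ∈ A := unit_prod hq s n hsr hsum
  have hEA' : Eq⁻¹ ∈ A := by
    have h2 : Eq⁻¹ = ∏ x ∈ s, ((q : Qb) - x) ^ (- n x) := by
      rw [hEq, ← Finset.prod_inv_distrib]
      refine Finset.prod_congr rfl fun x _ => ?_
      rw [zpow_neg]
    rw [h2]
    refine unit_prod hq s (fun x => - n x) hsr ?_
    rw [Finset.sum_neg_distrib, hsum, neg_zero]
  have hE0 : Eq ≠ 0 := by
    intro h0
    rw [h0] at hEE
    exact hB.b0 (by rw [← hEE]; rfl)
  have hτE : τ E = E := by
    rw [hE, map_prod]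
    refine Finset.prod_congr rfl fun x hx => ?_
    rw [map_zpow₀, map_sub, gq, hτr x (hsr x hx)]
  have h2 : τ y = y := by
    refine fix_root h5 hw hq0 hy hyq hEQ hB hτw hτF ?_
    intro e he
    have he' : e ∈ Qb := by
      rw [mem_algebraicClosure_iff]
      refine IsAlgebraic.of_pow hq0 ?_
      rw [he]
      exact mem_algebraicClosure_iff.1 hEQ
    refine fix_of_unit (p := p) hl hlp hA hτi k Eq ⟨e, he'⟩ hEA hEA' hE0 ?_ ?_
    · apply Subtype.ext
      change e ^ (p ^ k) = (Eq : Om)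
      rw [he, hEE]
    · rw [hEE, hτE]
  calc (γ : GG) y = (γ : GG) (τ' y) := by rw [h1]
    _ = ((γ : GG) * τ') y := rfl
    _ = τ y := by rw [hτ', mul_inv_cancel_left]
    _ = y := h2

end Pool.Agent.H577.Kim
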