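import Pool.Agent.H577.Kim.Stm

/-!
Interfaces for the determination of the weakly global points when all roots of `f` are integers or
imaginary quadratic integers (MP_fd87b4_nt).
-/

open scoped Pointwise TensorProduct Topology Polynomial NNReal

noncomputable section

namespace Pool.Agent.H577.Kim

open Y680 Y680.V Polynomial
open Y680.W (GG Gam Qb map_Qb)

/-- `a` is an integer or an imaginary quadratic integer -/
def IQ (a : Qb) : Prop := ∃ u v : ℤ, a ^ 2 + (u : Qb) * a + (v : Qb) = 0 ∧ u ^ 2 ≤ 4 * v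

/-- the function with divisor `a1 + a2 - b1 - b2` -/
def F2 (a1 a2 b1 b2 : Qb) : Om :=
  (W.tt - (a1 : Om)) * (W.tt - (a2 : Om)) / ((W.tt - (b1 : Om)) * (W.tt - (b2 : Om)))

/-- KCHAR2.  The `p`-adic Kummer character of the function `F2`.

Proof: as KCHAR in Pool/Agent/H577/Kim/Stm.lean (proved by helper79 in
team-store helper79_Kim_KCHAR_done.lean, which should be easy to adapt; the `a`, `b` need not be
different). -/
def S_KCHAR2 : Prop :=
  ∀ (p : ℕ) [Fact p.Prime] (a1 a2 b1 b2 : Qb), ∃ (lam : Gam → ℤ_[p]) (y ζ : ℕ → Om),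
    (∀ γ δ, lam (γ * δ) = lam γ + lam δ) ∧ Continuous lam ∧
    (∀ c : Option Qb, c ≠ some a1 → c ≠ some a2 → c ≠ some b1 → c ≠ some b2 →
      ∀ v : ValuationSubring Om, W.IsPlace c v → ∀ γ : Gam, γ • v = v → lam γ = 0) ∧
    (∀ k, y k ^ (p ^ k) = F2 a1 a2 b1 b2) ∧
    (∀ k, IsPrimitiveRoot (ζ k) (p ^ k)) ∧
    ∀ (γ : Gam) (k : ℕ), (γ : GG) (y k) = ζ k ^ (PadicInt.toZModPow k (lam γ)).val * y k

/-- TW.  Conjugation by elements fixing the function multiplies the Kummer character by the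
cyclotomic character.

Proof: as in Y680/W/T_K2.lean.  `g (y k) = η * y k` with `η ^ (p ^ k) = 1`, `η ∈ Qb`; so
`g γ g⁻¹ (y k) = (g (ζ k)) ^ (lam γ mod p ^ k) * y k` and
`g (ζ k) = (ζ k) ^ (W.chi p g mod p ^ k)` (`cyclotomicCharacter.spec`). -/
def S_TW : Prop :=
  ∀ (p : ℕ) [Fact p.Prime] (F : Om) (lam : Gam → ℤ_[p]) (y ζ : ℕ → Om), F ≠ 0 →
    (∀ k, y k ^ (p ^ k) = F) → (∀ k, IsPrimitiveRoot (ζ k) (p ^ k)) →
    (∀ (γ : Gam) (k : ℕ), (γ : GG) (y k) = ζ k ^ (PadicInt.toZModPow k (lam γ)).val * y k) →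
    ∀ g : GG, g F = F → ∀ γ : Gam, lam (W.cj g γ) = (W.chi p g : ℤ_[p]) * lam γ

/-- KUM2.  Kummer theory for a cocycle on the stabiliser of a place above infinity.

Proof.  Let `St` be the group of the `g` with `g • v0 = v0` and `g a = a`.  Every automorphism of
`Qb` fixing `a` is the restriction of an element of `St` (`W.t_SURJ` and `W.f_PLACE` for
`none`).  `κ` vanishes on `Gam ∩ St`, so by `hmul` it is a function of the restriction to `Qb`.
`g ↦ ζ ^ κ(g)` is a continuous 1-cocycle of the Galois group of `Qb` over `ℚ(a)` with values in the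
multiplicative group (`g ζ = ζ ^ (W.chi p g)`), so it is a coboundary by Hilbert's theorem 90
(finite level: `κ` modulo `p ^ k` is locally constant on the compact group; choose a finite Galois
extension of `ℚ(a)` containing `ζ` over which it is trivial;
`groupCohomology.isMulCoboundary₁_of_isMulCocycle₁_of_aut_to_units`).  Finally
`α ^ (p ^ k)` is fixed by all automorphisms fixing `a`. -/
def S_KUM2 : Prop :=
  ∀ (p : ℕ) [Fact p.Prime] (a : Qb) (v0 : ValuationSubring Om), W.IsPlace none v0 →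
    ∀ κ : GG → ℤ_[p], Continuous κ →
    (∀ g g' : GG, g • v0 = v0 → g (a : Om) = a → g' • v0 = v0 → g' (a : Om) = a →
      κ (g * g') = κ g + (W.chi p g : ℤ_[p]) * κ g') →
    (∀ γ : Gam, (γ : GG) • v0 = v0 → κ γ = 0) →
    ∀ (k : ℕ) (ζ : Qb), IsPrimitiveRoot ζ (p ^ k) →
    ∃ α : Qb, α ≠ 0 ∧ α ^ (p ^ k) ∈ IntermediateField.adjoin ℚ ({a} : Set Qb) ∧
      ∀ g : GG, g • v0 = v0 → g (a : Om) = a →
        g (α : Om) = (ζ : Om) ^ (PadicInt.toZModPow k (κ g)).val * (α : Om)

/-- UNIT0.  An element of a number field `ℚ(a)` without units of infinite order, all whose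
valuations are divisible by `p ^ k`, has a fixed power which is a `p ^ k`-th power.

Proof.  `K = ℚ(a)` is `ℚ` or an imaginary quadratic field.  Every prime ideal `P` of its ring of
integers comes from an embedding `ι` of `Qb` in the algebraic closure `C` of some `ℚ_[l]`.  The
element `β` is in `ℚ_[l](ι a)` (Galois theory), so it is a polynomial in `ι a` with `l`-adic
coefficients; by approximating them by rationals there is `b` in `K` with `|ι b| = |β|`.  Hence
the `P`-adic valuation of `A` is `p ^ k` times that of `b`.  So the fractional ideal of `A` is the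
`p ^ k`-th power of a fractional ideal; with the class number `h` and the number `w` of roots of
unity (all units are roots of unity: the unit rank of `K` is zero) we get `A ^ (h w) = B ^ (p ^ k)`;
`M = h w` depends only on `a`. -/
def S_UNIT0 : Prop :=
  ∀ a : Qb, IQ a → ∃ M : ℕ, 0 < M ∧ ∀ p k : ℕ, p.Prime → ∀ A : Qb, A ≠ 0 →
    A ∈ IntermediateField.adjoin ℚ ({a} : Set Qb) →
    (∀ (l : ℕ) [Fact l.Prime] (ι : Qb →+* AlgebraicClosure ℚ_[l]),
      ∃ β : AlgebraicClosure ℚ_[l],
        (∀ σ : AlgebraicClosure ℚ_[l] ≃ₐ[ℚ_[l]] AlgebraicClosure ℚ_[l], σ (ι a) = ι a → σ β = β) ∧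
        (Valued.v : Valuation (PadicAlgCl l) ℝ≥0) β ^ (p ^ k) =
          (Valued.v : Valuation (PadicAlgCl l) ℝ≥0) (ι A)) →
    ∃ B : Qb, B ∈ IntermediateField.adjoin ℚ ({a} : Set Qb) ∧ A ^ M = B ^ (p ^ k)

/-- ROOTU.  An element of a finite extension of the field of `p`-adic numbers which has
`p ^ k`-th roots for all `k` is a root of unity.

Proof.  By `S_DISC` (proved: team-store helper161_Kim_DISC_done.lean) `E` is a unit, so its roots
`γ` are units of the finite extension `L = ℚ_[p](a)` of `ℚ_[p]`.  Let `q` be the number of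
elements of the residue field and `π` an element of maximal absolute value below one
(`|x| < 1` implies `|x| ≤ ρ` for a constant `ρ < 1`, by discreteness).  Then
`|γ ^ (q - 1) - 1| ≤ ρ`, and `|(1 + y) ^ p - 1| ≤ max (|p|, ρ ^ (p - 1)) |y|` for `|y| ≤ ρ`; so
`E ^ (q - 1) = γ ^ ((q - 1) p ^ k)` is arbitrarily close to one, for all `k`.  (The residue field
is finite because `L` is a finite extension; any proof is fine, e.g. compactness of the unit
ball of `L` instead.) -/
def S_ROOTU : Prop :=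
  ∀ (p : ℕ) [Fact p.Prime] (a E : AlgebraicClosure ℚ_[p]), E ≠ 0 →
    (∀ k : ℕ, ∃ γ : AlgebraicClosure ℚ_[p], γ ^ (p ^ k) = E ∧
      ∀ σ : AlgebraicClosure ℚ_[p] ≃ₐ[ℚ_[p]] AlgebraicClosure ℚ_[p], σ a = a → σ γ = γ) →
    ∃ m : ℕ, 0 < m ∧ E ^ m = 1

/-- GEO.  A point whose differences from the roots of `f` differ by roots of unity is rational.

Proof.  Let `a ≠ b` be roots of `f` (there are at least three), `z0 - ι a = ζ (z0 - ι b)`; then
`ζ ≠ 1` and `z0 = ι z1` with `z1` in `Qb` (`ζ` is in the image of `ι`).  For every embedding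
`τ : Qb → ℂ` all `|τ z1 - τ a|` are equal, so `τ z1` is the centre of a circle through all roots
of `f` in `ℂ`; the centre is unique because there are at least three (noncollinear, being on a
circle) points.  So `τ z1` does not depend on `τ`, and `z1` is rational (it is fixed by all
automorphisms of `Qb`; `Qb` is Galois over `ℚ`). -/
def S_GEO : Prop :=
  ∀ (p : ℕ) [Fact p.Prime] (ι : Qb →+* AlgebraicClosure ℚ_[p]) (f : ℤ[X]),
    (f.map (Int.castRingHom ℚ)).Separable → 3 ≤ f.natDegree → f.Monic → ∀ z0 : ℚ_[p],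
    (∀ a : Qb, W.IsRoot (f0 f) (some a) →
      algebraMap ℚ_[p] (AlgebraicClosure ℚ_[p]) z0 ≠ ι a) →
    (∀ a b : Qb, W.IsRoot (f0 f) (some a) → W.IsRoot (f0 f) (some b) → ∃ m : ℕ, 0 < m ∧
      ((algebraMap ℚ_[p] (AlgebraicClosure ℚ_[p]) z0 - ι a) /
        (algebraMap ℚ_[p] (AlgebraicClosure ℚ_[p]) z0 - ι b)) ^ m = 1) →
    ∃ q : ℚ, z0 = (q : ℚ_[p])

end Pool.Agent.H577.Kim
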