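import Pool.Agent.H577.Kim.Core2
import Pool.Agent.H577.Kim.Stm3

/-!
The restriction of a global class to the decomposition groups, on the local system of rank two of a
function, and Kummer theory.
-/

open scoped Pointwise TensorProduct Topology Polynomial NNReal

noncomputable section

namespace Pool.Agent.H577.Kim

open Y680 Y680.V Polynomial
open Y680.W (GG Gam Qb map_Qb)
open Y680.W.K3 (Cg nu_sub nu_mul Qb_zero)

variable {p : ℕ} [Fact p.Prime] {f : ℤ[X]}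

theorem ss_one : ss (1 : ℚ_[p]) = 1 := by
  unfold ss
  ext i j
  fin_cases i <;> fin_cases j <;> simp

theorem um_ss_inj {a b x : ℚ_[p]} (h : um a * ss x = um b * ss x) : a = b := by
  have h3 := congrFun (congrFun h 0) 1
  simp [um, ss, Matrix.mul_apply, Fin.sum_univ_two] at h3
  exact h3

theorem lam_cj_Gam {lam : Gam → ℤ_[p]} (H : Unr p f lam) (δ γ : Gam) :
    lam (W.cj (δ : GG) γ) = ((1 : ℤ_[p])) * lam γ := by
  have h1 : W.cj (δ : GG) γ = δ * γ * δ⁻¹ := by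
    apply Subtype.ext
    rw [W.cj_coe]
    rfl
  rw [h1, H.add, H.add, H.inv, one_mul]
  ring

variable {lam : Gam → ℤ_[p]} {n : ℕ}
  {c : GG → Trans p (geo Om) (inert Om f) (ValuationSubring Om) (ValuationSubring Om)}

theorem kap_mul (H : Unr p f lam) (hn : 1 ≤ n) (hc : IsCocycle n (infPlaces Om) c)
    {v0 : ValuationSubring Om} (hv0 : W.IsPlace none v0) {g g' : GG} (hg : g • v0 = v0)
    {x : ℤ_[p]} (hx : ∀ γ : Gam, lam (W.cj g γ) = x * lam γ) :
    ent H (c (g * g')) v0 v0 = ent H (c g) v0 v0 + x * ent H (c g') v0 v0 := by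
  have hv0' : v0 ∈ infPlaces Om := hv0
  have hlv := ksys_level H hn
  have h1 := hc.mul g g' (ksys H) (ksys H) hlv hlv (ss (x : ℚ_[p])) (semi_ss H hx) v0 hv0' v0
    hv0' v0 hv0'
  have h2 : km H (c (g * g') (ksys H) (g • v0) v0) * ss (x : ℚ_[p]) =
      km H (c g (ksys H) (g • v0) v0) * ss (x : ℚ_[p]) * km H (c g' (ksys H) v0 v0) := h1
  rw [hg, path_um H hn (hc.path (g * g')) hv0' hv0', path_um H hn (hc.path g) hv0' hv0',
    path_um H hn (hc.path g') hv0' hv0', Matrix.mul_assoc, ss_um, ← Matrix.mul_assoc, um_mul] at h2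
  exact um_ss_inj h2

theorem kap_Gam (H : Unr p f lam) (hn : 1 ≤ n) (hc : IsCocycle n (infPlaces Om) c)
    {v0 : ValuationSubring Om} (hv0 : W.IsPlace none v0) (γ : Gam) :
    ent H (c (γ : GG)) v0 v0 = 0 := by
  have h1 := hc.infl (jj γ) (ksys H) (ksys_level H hn) v0 hv0
  have h2 : km H (c (γ : GG) (ksys H) v0 v0) = 1 := h1
  unfold ent
  rw [h2]
  simp

theorem kap_decomp (H : Unr p f lam) (hn : 1 ≤ n) (hc : IsCocycle n (infPlaces Om) c)
    {v0 : ValuationSubring Om} (hv0 : W.IsPlace none v0) (δ : Gam) (g : GG) :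
    ent H (c ((δ : GG) * g)) ((δ : GG) • v0) v0 =
      ent H (c g) v0 v0 - ((lam δ : ℤ_[p]) : ℚ_[p]) := by
  have hv0' : v0 ∈ infPlaces Om := hv0
  have hδv0 : (δ : GG) • v0 ∈ infPlaces Om := W.isPlace_smul (δ : GG) (a := none) hv0
  have hlv := ksys_level H hn
  have h1 := hc.mul (δ : GG) g (ksys H) (ksys H) hlv hlv (ss ((1 : ℤ_[p]) : ℚ_[p]))
    (semi_ss H (lam_cj_Gam H δ)) v0 hv0' v0 hv0' v0 hv0'
  have h2 : km H (c ((δ : GG) * g) (ksys H) ((δ : GG) • v0) v0) * ss ((1 : ℤ_[p]) : ℚ_[p]) =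
      km H (c (δ : GG) (ksys H) ((δ : GG) • v0) v0) * ss ((1 : ℤ_[p]) : ℚ_[p]) *
        km H (c g (ksys H) v0 v0) := h1
  rw [path_um H hn (hc.path ((δ : GG) * g)) hδv0 hv0', path_um H hn (hc.path (δ : GG)) hδv0 hv0',
    path_um H hn (hc.path g) hv0' hv0', Matrix.mul_assoc, ss_um, ← Matrix.mul_assoc,
    um_mul] at h2
  have h3 := um_ss_inj h2
  have h4 := ent_equiv H hn (hc.path (δ : GG)) hv0' hv0' (jj δ) 1 hδv0 (by
    change ((1 : geo Om) : GG) • v0 ∈ infPlaces Om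
    rw [Subgroup.coe_one, one_smul]
    exact hv0')
  have h5 : ent H (c (δ : GG)) ((δ : GG) • v0) (((1 : geo Om) : GG) • v0) +
      ((lam δ : ℤ_[p]) : ℚ_[p]) = ((lam (ii 1) : ℤ_[p]) : ℚ_[p]) + ent H (c (δ : GG)) v0 v0 := h4
  have e3 : lam (ii 1) = 0 := H.one
  rw [e3, PadicInt.coe_zero, Subgroup.coe_one, one_smul, kap_Gam H hn hc hv0 δ] at h5
  have h6 : ent H (c ((δ : GG) * g)) ((δ : GG) • v0) v0 =
      ent H (c (δ : GG)) ((δ : GG) • v0) v0 + ((1 : ℤ_[p]) : ℚ_[p]) * ent H (c g) v0 v0 := h3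
  rw [PadicInt.coe_one, one_mul] at h6
  linear_combination h6 + h5

theorem kap_cont (H : Unr p f lam) (hn : 1 ≤ n) (hc : IsCocycle n (infPlaces Om) c)
    {v0 : ValuationSubring Om} (hv0 : W.IsPlace none v0) :
    Continuous fun g : GG => ent H (c g) v0 v0 :=
  hc.cont (ksys H) (ksys_level H hn) v0 hv0 v0 hv0 (0 : Fin 2) (1 : Fin 2)

theorem val_cong (k s : ℕ) (x : ℤ_[p]) :
    ((p ^ s * (PadicInt.toZModPow k x).val : ℕ) : ZMod (p ^ (k + s))) =
      PadicInt.toZModPow (k + s) ((p : ℤ_[p]) ^ s * x) := by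
  have hp : p.Prime := Fact.out
  have : NeZero (p ^ k) := ⟨pow_ne_zero _ hp.ne_zero⟩
  have h1 : x - ((PadicInt.toZModPow k x).val : ℤ_[p]) ∈
      (Ideal.span {(p : ℤ_[p]) ^ k} : Ideal ℤ_[p]) := by
    rw [← PadicInt.ker_toZModPow, RingHom.mem_ker, map_sub, map_natCast, ZMod.natCast_zmod_val,
      sub_self]
  obtain ⟨y, hy⟩ := Ideal.mem_span_singleton'.1 h1
  have h2 : (p : ℤ_[p]) ^ s * x - ((p ^ s * (PadicInt.toZModPow k x).val : ℕ) : ℤ_[p]) ∈
      RingHom.ker (PadicInt.toZModPow (p := p) (k + s)) := by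
    rw [PadicInt.ker_toZModPow, Ideal.mem_span_singleton']
    refine ⟨y, ?_⟩
    push_cast
    rw [pow_add]
    linear_combination (p : ℤ_[p]) ^ s * hy
  rw [RingHom.mem_ker, map_sub, sub_eq_zero] at h2
  rw [h2, map_natCast]

end Pool.Agent.H577.Kim
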