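import Pool.Agent.H577.Kim.Loc

/-!
The restriction of a global class to the decomposition groups, on the local system of rank two of a
function, and Kummer theory.
-/

open scoped Pointwise TensorProduct Topology Polynomial NNReal

noncomputable section

namespace Pool.Agent.H577.Kim

open Y680 Y680.V Polynomial
open Y680.W (GG Gam Qb map_Qb)
open Y680.W.K3 (Cg nu_sub nu_mul Qb_zero)

variable {p l : ℕ} [Fact p.Prime] [Fact l.Prime] {f : ℤ[X]} {lam : Gam → ℤ_[p]} {n : ℕ}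
  {c : GG → Trans p (geo Om) (inert Om f) (ValuationSubring Om) (ValuationSubring Om)}

theorem exists_scale' (D : ℚ_[p]) : ∃ N : ℕ, ‖(p : ℚ_[p]) ^ N * D‖ ≤ 1 := by
  have hp : p.Prime := Fact.out
  obtain ⟨N, hN⟩ := pow_unbounded_of_one_lt ‖D‖ (by exact_mod_cast hp.one_lt : (1 : ℝ) < p)
  refine ⟨N, ?_⟩
  have hp0 : (0 : ℝ) < p := by exact_mod_cast hp.pos
  rw [norm_mul, norm_pow, Padic.norm_p, inv_pow]
  rw [inv_mul_le_iff₀ (by positivity), mul_one]
  exact hN.le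

theorem chi_Gam_mul (δ : Gam) (g : GG) : W.chi p ((δ : GG) * g) = W.chi p g := by
  have h1 : W.chi p ((δ : GG) * g) = W.chi p (δ : GG) * W.chi p g :=
    map_mul (cyclotomicCharacter Om p) _ _
  have h2 : W.chi p (δ : GG) = 1 := by
    have hp : p.Prime := Fact.out
    apply Units.ext
    rw [← PadicInt.ext_of_toZModPow]
    intro k
    rw [Units.val_one, map_one]
    obtain ⟨ζ, hζ⟩ : ∃ ζ : Om, IsPrimitiveRoot ζ (p ^ k) := by
      have : NeZero ((p ^ k : ℕ) : Om) := by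
        constructor
        exact_mod_cast pow_ne_zero k hp.ne_zero
      exact HasEnoughRootsOfUnity.exists_primitiveRoot Om (p ^ k)
    have h3 := cyclotomicCharacter.spec p (((δ : GG)) : Om ≃+* Om) ζ (n := k) hζ.pow_eq_one
    have hζQ : ζ ∈ Qb := by
      rw [mem_algebraicClosure_iff]
      refine IsAlgebraic.of_pow (pow_pos hp.pos k) ?_
      rw [hζ.pow_eq_one]
      exact isAlgebraic_one
    have h4 : (δ : GG) ζ = ζ := δ.2 ζ hζQ
    have h5 : ζ = ζ ^ (PadicInt.toZModPow k (W.chi p (δ : GG) : ℤ_[p])).val := by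
      have h6 : ((δ : GG) : Om ≃+* Om) ζ = ζ := h4
      rw [h6] at h3
      exact h3
    have h7 : NeZero (p ^ k) := ⟨pow_ne_zero k hp.ne_zero⟩
    rcases Nat.eq_zero_or_pos k with rfl | hk
    · have : Subsingleton (ZMod (p ^ 0)) := by
        rw [pow_zero]
        exact inferInstanceAs (Subsingleton (Fin 1))
      exact Subsingleton.elim _ _
    · have h8 : 1 < p ^ k := Nat.one_lt_pow hk.ne' hp.one_lt
      have h9 := hζ.pow_inj (i := 1)
        (j := (PadicInt.toZModPow k (W.chi p (δ : GG) : ℤ_[p])).val) h8 (ZMod.val_lt _)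
        (by rw [pow_one]; exact h5)
      have h10 : ((1 : ℕ) : ZMod (p ^ k)) =
          (((PadicInt.toZModPow k (W.chi p (δ : GG) : ℤ_[p])).val : ℕ) : ZMod (p ^ k)) := by
        rw [h9]
      rw [ZMod.natCast_zmod_val, Nat.cast_one] at h10
      exact h10.symm
  rw [h1, h2, one_mul]

theorem local_rel (H : Unr p f lam) (hn : 1 ≤ n) (hc : IsCocycle n (infPlaces Om) c)
    {F : Om} {y ζ : ℕ → Om} (hy : ∀ k, y k ^ (p ^ k) = F)
    (hζ : ∀ k, IsPrimitiveRoot (ζ k) (p ^ k))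
    (hact : ∀ (γ : Gam) (k : ℕ),
      (γ : GG) (y k) = ζ k ^ (PadicInt.toZModPow k (lam γ)).val * y k)
    {z : Option ℚ_[l]}
    (L1 : Lies (p := p) (f := f) (C := AlgebraicClosure ℚ_[l]) ℚ_[l] n c z)
    (ι : Qb →+* AlgebraicClosure ℚ_[l]) {a : Qb}
    (htw : ∀ g : GG, g (a : Om) = a → ∀ γ : Gam,
      lam (W.cj g γ) = (W.chi p g : ℤ_[p]) * lam γ)
    (hFa : ∀ g : GG, g (a : Om) = a → g F = F)
    {v0 : ValuationSubring Om} (hv0 : W.IsPlace none v0) (hF1 : Cg v0 F ((1 : Qb) : Om))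
    {N : ℕ} {κ : GG → ℤ_[p]}
    (hκ : ∀ g, ((κ g : ℤ_[p]) : ℚ_[p]) = (p : ℚ_[p]) ^ N * ent H (c g) v0 v0)
    (E' : AlgebraicClosure ℚ_[l]) (hE' : E' ≠ 0)
    (hval : ∀ w ∈ above (Om := Om) ι (z.map (algebraMap ℚ_[l] (AlgebraicClosure ℚ_[l]))),
      ∃ h : F ∈ w.O, w.φ ⟨_, h⟩ = E') :
    ∃ s : ℕ, ∀ (k : ℕ) (α : Qb), α ≠ 0 →
      (∀ g : GG, g • v0 = v0 → g (a : Om) = a →
        g (α : Om) = (ζ k) ^ (PadicInt.toZModPow k (κ g)).val * (α : Om)) →
      ∃ β ξ : AlgebraicClosure ℚ_[l],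
        (∀ σ : AlgebraicClosure ℚ_[l] ≃ₐ[ℚ_[l]] AlgebraicClosure ℚ_[l],
          σ (ι a) = ι a → σ β = β) ∧ ξ ^ (p ^ s) = 1 ∧
        β ^ (p ^ k) * E' ^ (p ^ N) * ξ = (ι α) ^ (p ^ k) := by
  have hp : p.Prime := Fact.out
  have hv0' : v0 ∈ infPlaces Om := hv0
  obtain ⟨h1, hP1, R1⟩ := L1 ι
  obtain ⟨w', hw', hwg'⟩ := D215.lift l ι z
  obtain ⟨hF', hφF⟩ := hval w' hw'
  set D1 := ent H h1 v0 w' with hD1
  obtain ⟨s, hs⟩ := exists_scale' ((p : ℚ_[p]) ^ N * D1)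
  set D2 : ℤ_[p] := ⟨(p : ℚ_[p]) ^ s * ((p : ℚ_[p]) ^ N * D1), hs⟩ with hD2
  refine ⟨s, fun k α hα0 hα => ?_⟩
  have hpk : 0 < p ^ k := pow_pos hp.pos k
  have hpk0 : p ^ k ≠ 0 := hpk.ne'
  have hpks : 0 < p ^ (k + s) := pow_pos hp.pos _
  set yk := y k with hyk
  have hyF : yk ^ (p ^ k) = F := hy k
  have hy0 : yk ≠ 0 := by
    intro h
    rw [h, zero_pow hpk0] at hyF
    exact hF1.a0 hyF.symm
  have hζQ : ζ k ∈ Qb := by
    rw [mem_algebraicClosure_iff]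
    refine IsAlgebraic.of_pow hpk ?_
    rw [(hζ k).pow_eq_one]
    exact isAlgebraic_one
  set ζk : Qb := ⟨ζ k, hζQ⟩ with hζk
  have hζk1 : ζk ^ (p ^ k) = 1 := by
    apply Subtype.ext
    change (ζ k) ^ (p ^ k) = 1
    exact (hζ k).pow_eq_one
  have hac : IsAlgClosed Qb := W.T1G.isAlgClosed_Qb
  obtain ⟨ζ', hζ'⟩ := IsAlgClosed.exists_pow_nat_eq ζk (pow_pos hp.pos s)
  have hζ'1 : ζ' ^ (p ^ (k + s)) = 1 := by
    rw [pow_add, mul_comm, pow_mul, hζ', hζk1]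
  have hζ'0 : ι ζ' ≠ 0 := by
    intro h
    have h1 := congrArg ι hζ'1
    rw [map_pow, h, zero_pow hpks.ne', map_one] at h1
    exact zero_ne_one h1
  obtain ⟨e, he, heE⟩ := resid hv0 hpk hyF hF1
  have hyw' : yk ∈ w'.O := mem_of_pow hpk (by rw [hyF]; exact hF')
  set e' : AlgebraicClosure ℚ_[l] := w'.φ ⟨yk, hyw'⟩ with he'
  have he'E : e' ^ (p ^ k) = E' := by
    rw [he', ← map_pow, ← hφF]
    congr 1
    apply Subtype.ext
    exact hyF
  have he'0 : e' ≠ 0 := by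
    intro h
    rw [h, zero_pow hpk0] at he'E
    exact hE' he'E.symm
  have hιe : (ι e) ^ (p ^ k) = 1 := by rw [← map_pow, heE, map_one]
  set R : AlgebraicClosure ℚ_[l] := ι e / e' with hR
  set d2 := (PadicInt.toZModPow (k + s) D2).val with hd2
  refine ⟨ι α * R ^ (p ^ N) / (ι ζ') ^ d2, (ι ζ') ^ (d2 * p ^ k), ?_, ?_, ?_⟩
  · intro σ hσ
    obtain ⟨g1, hg1, hg2⟩ := hwg' σ
    have hg1a : g1 (a : Om) = a := by
      have e1 := hg1 a ⟨g1 a, map_Qb g1 a.2⟩ rfl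
      rw [hσ] at e1
      exact (congrArg Subtype.val (ι.injective e1)).symm
    have hgv0 : W.IsPlace none (g1 • v0) := W.isPlace_smul g1 (a := none) hv0
    obtain ⟨δ0, hδ0, _, hδ1⟩ := W.f_PLACE none 1 (W.loc none) one_pos (pow_one _) v0 (g1 • v0)
      hv0 hgv0
    set δ : Gam := ⟨δ0, hδ0⟩ with hδ
    have hδ1' : (δ : GG) • v0 = g1 • v0 := hδ1
    set g : GG := (δ : GG)⁻¹ * g1 with hg
    have hgg1 : (δ : GG) * g = g1 := by rw [hg, mul_inv_cancel_left]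
    have hgv : g • v0 = v0 := by rw [hg, mul_smul, ← hδ1', inv_smul_smul]
    have hδi : ∀ x : Qb, (δ : GG)⁻¹ (x : Om) = x := fun x => (inv_mem δ.2 : (δ : GG)⁻¹ ∈ Gam) _ x.2
    have hga : g (a : Om) = a := by
      rw [hg, AlgEquiv.mul_apply, hg1a]
      exact hδi a
    have hχ : W.chi p g1 = W.chi p g := by
      rw [← hgg1]
      exact chi_Gam_mul δ g
    have hlv := ksys_level H hn
    have rel1 := ent_rel H hn hc hP1 (g := g1)
      (σ := (σ : AlgebraicClosure ℚ_[l] →+* AlgebraicClosure ℚ_[l]))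
      (x := (W.chi p g1 : ℤ_[p])) hv0' hgv0 hv0' hw' (by rw [hg2]; exact hw')
      (R1 g1 σ hg1 (ksys H) (ksys H) hlv hlv (ss _) (semi_ss H (htw g1 hg1a)) v0 hv0' v0 hv0' w'
        hw')
    rw [hg2] at rel1
    have rel2 := kap_decomp H hn hc hv0 δ g
    rw [hgg1, hδ1'] at rel2
    rw [rel2] at rel1
    -- the relation in the p-adic integers
    have relZ : (p : ℤ_[p]) ^ s * κ g + D2 =
        (p : ℤ_[p]) ^ s * (lam δ * (p : ℤ_[p]) ^ N) + (W.chi p g1 : ℤ_[p]) * D2 := by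
      apply Subtype.ext
      push_cast
      rw [hκ g]
      change (p : ℚ_[p]) ^ s * ((p : ℚ_[p]) ^ N * ent H (c g) v0 v0) +
        (p : ℚ_[p]) ^ s * ((p : ℚ_[p]) ^ N * D1) = _ +
        ((W.chi p g1 : ℤ_[p]) : ℚ_[p]) * ((p : ℚ_[p]) ^ s * ((p : ℚ_[p]) ^ N * D1))
      linear_combination (p : ℚ_[p]) ^ s * (p : ℚ_[p]) ^ N * rel1
    -- the root of unity
    set η0 : Om := g1 yk / yk with hη0
    have hgy : g1 yk = η0 * yk := by rw [hη0, div_mul_cancel₀ _ hy0]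
    have hη1 : η0 ^ (p ^ k) = 1 := by
      rw [hη0, div_pow, ← map_pow, hyF, hFa g1 hg1a, div_self hF1.a0]
    have hηQ : η0 ∈ Qb := by
      rw [mem_algebraicClosure_iff]
      refine IsAlgebraic.of_pow hpk ?_
      rw [hη1]
      exact isAlgebraic_one
    set η : Qb := ⟨η0, hηQ⟩ with hη
    have hη0' : ι η ≠ 0 := by
      have h1 : η ^ (p ^ k) = 1 := Subtype.ext hη1
      intro h
      have h2 := congrArg ι h1
      rw [map_pow, h, zero_pow hpk0, map_one] at h2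
      exact zero_ne_one h2
    set m := (PadicInt.toZModPow k (lam δ)).val with hm
    have r1 := resid_move hv0 (e := e) (ζ := ζk) (η := η) he hδ1' (m := m) (hact δ k) hgy
    have r2 : (ι ζk) ^ m * ι (⟨g1 e, map_Qb g1 e.2⟩ : Qb) = ι η * ι e := by
      rw [← map_pow, ← map_mul, r1, map_mul]
    have r3 : σ (ι e) = ι (⟨g1 e, map_Qb g1 e.2⟩ : Qb) := hg1 e _ rfl
    have r4 : σ e' = ι η * e' := by
      obtain ⟨h2, h3⟩ := move_val (g := g1)
        (σ := (σ : AlgebraicClosure ℚ_[l] →+* AlgebraicClosure ℚ_[l])) hg2 hyw'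
      have h4 : w'.φ ⟨g1 yk, h2⟩ = ι η * e' := by
        obtain ⟨m1, m2⟩ := hw'.1 η
        rw [← m2, he', ← map_mul]
        congr 1
        apply Subtype.ext
        exact hgy
      rw [h4] at h3
      exact h3.symm
    have r5 : (ι ζk) ^ m * σ R = R := by
      rw [hR, map_div₀, r3, r4]
      rw [mul_div_assoc', r2, mul_div_mul_left _ _ hη0']
    set x := (PadicInt.toZModPow (k + s) (W.chi p g1 : ℤ_[p])).val with hx
    have r6 : σ (ι ζ') = (ι ζ') ^ x := by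
      rw [hg1 ζ' (ζ' ^ x) ?_, map_pow]
      have h1 := cyclotomicCharacter.spec p (g1 : Om ≃+* Om) (ζ' : Om) (n := k + s)
        (congrArg Subtype.val hζ'1)
      change (ζ' : Om) ^ _ = g1 (ζ' : Om)
      exact h1.symm
    set t := (PadicInt.toZModPow k (κ g)).val with ht
    have r7 : σ (ι α) = (ι ζk) ^ t * ι α := by
      rw [hg1 α (ζk ^ t * α) ?_, map_mul, map_pow]
      change (ζ k) ^ t * (α : Om) = g1 (α : Om)
      have h2 := hα g hgv hga
      have h3 : g1 (α : Om) = (δ : GG) (g (α : Om)) := by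
        rw [← AlgEquiv.mul_apply, hgg1]
      rw [h3, h2]
      exact (δ.2 _ (mul_mem (pow_mem hζQ t) α.2)).symm
    have r8 : ι ζk = (ι ζ') ^ (p ^ s) := by rw [← map_pow, hζ']
    -- the exponents
    have r9 : ((p ^ s * t + d2 : ℕ) : ZMod (p ^ (k + s))) =
        ((p ^ s * m * p ^ N + x * d2 : ℕ) : ZMod (p ^ (k + s))) := by
      have : NeZero (p ^ (k + s)) := ⟨hpks.ne'⟩
      have c1 := val_cong (p := p) k s (κ g)
      have c2 := val_cong (p := p) k s (lam δ)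
      have c3 := congrArg (PadicInt.toZModPow (p := p) (k + s)) relZ
      rw [map_add, map_add, map_mul (PadicInt.toZModPow (k + s)) (W.chi p g1 : ℤ_[p]) D2] at c3
      have c4 : PadicInt.toZModPow (p := p) (k + s) ((p : ℤ_[p]) ^ s * (lam δ * (p : ℤ_[p]) ^ N)) =
          PadicInt.toZModPow (p := p) (k + s) ((p : ℤ_[p]) ^ s * lam δ) *
            ((p ^ N : ℕ) : ZMod (p ^ (k + s))) := by
        rw [← mul_assoc, map_mul]
        congr 1
        rw [map_pow, map_natCast]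
        push_cast
        rfl
      rw [c4, ← c1, ← c2] at c3
      push_cast at c3 ⊢
      rw [hd2, hx, ZMod.natCast_zmod_val, ZMod.natCast_zmod_val]
      exact c3
    have r10 := zeta_pow_eq (ζ := ι ζ') (m := p ^ (k + s)) (by rw [← map_pow, hζ'1, map_one]) r9
    have r11 : σ (ι α) * (σ R) ^ (p ^ N) * (ι ζ') ^ d2 * (ι ζk) ^ (m * p ^ N) =
        ι α * R ^ (p ^ N) * ((ι ζ') ^ x) ^ d2 * (ι ζk) ^ (m * p ^ N) := by
      have q1 : (ι ζk) ^ (m * p ^ N) * (σ R) ^ (p ^ N) = R ^ (p ^ N) := by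
        rw [pow_mul, ← mul_pow, r5]
      have q2 : (ι ζk) ^ t * (ι ζ') ^ d2 = (ι ζk) ^ (m * p ^ N) * ((ι ζ') ^ x) ^ d2 := by
        rw [r8, ← pow_mul, ← pow_mul, ← pow_mul, ← pow_add, ← pow_add, ← mul_assoc]
        exact r10
      calc σ (ι α) * (σ R) ^ (p ^ N) * (ι ζ') ^ d2 * (ι ζk) ^ (m * p ^ N)
          = ι α * ((ι ζk) ^ t * (ι ζ') ^ d2) * ((ι ζk) ^ (m * p ^ N) * (σ R) ^ (p ^ N)) := by
            rw [r7]
            ring
        _ = _ := by
            rw [q1, q2]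
            ring
    have hζk0 : (ι ζk) ^ (m * p ^ N) ≠ 0 := by
      rw [r8]
      exact pow_ne_zero _ (pow_ne_zero _ hζ'0)
    have r12 := mul_right_cancel₀ hζk0 r11
    rw [map_div₀, map_mul, map_pow, map_pow, r6]
    rw [div_eq_div_iff (pow_ne_zero _ (pow_ne_zero _ hζ'0)) (pow_ne_zero _ hζ'0)]
    exact r12
  · rw [← pow_mul, mul_assoc, ← pow_add, mul_comm d2, pow_mul, ← map_pow, hζ'1, map_one, one_pow]
  · have hd0 : (ι ζ') ^ (d2 * p ^ k) ≠ 0 := pow_ne_zero _ hζ'0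
    rw [div_pow, mul_pow, ← pow_mul R, mul_comm (p ^ N), pow_mul R, hR, div_pow, hιe, he'E,
      ← pow_mul (ι ζ')]
    rw [one_div, inv_pow]
    have hEN : E' ^ (p ^ N) ≠ 0 := pow_ne_zero _ hE'
    field_simp

end Pool.Agent.H577.Kim
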