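import Pool.Agent.H577.Kim.Path

/-!
Rational points with unit ratios are weakly global of all levels.
-/

open scoped Pointwise TensorProduct Topology Polynomial NNReal

noncomputable section

namespace Pool.Agent.H577.Kim

open Y680 Y680.V
open Y680.W (GG Gam Qb map_Qb Dec Invt)

theorem int_mem (A : ValuationSubring Qb) {x : Qb} (hx : IsIntegral ℤ x) : x ∈ A := by
  have h1 : IsIntegral A x := hx.tower_top
  obtain ⟨y, hy⟩ := IsIntegrallyClosed.isIntegral_iff.1 h1
  rw [← hy]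
  exact y.2

/-- The ratios of the differences `x - a * y`, for `a` the roots of `f`, are algebraic integers
(hence units). -/
def UnitRatios (f : ℤ[X]) (x y : ℤ) : Prop :=
  ∀ a b : ℂ, Polynomial.aeval a f = 0 → Polynomial.aeval b f = 0 →
    IsIntegral ℤ (((x : ℂ) - a * y) / ((x : ℂ) - b * y))

theorem form_eq_eval {K : Type} [Field K] (f : ℤ[X]) (x y : K) (hy : y ≠ 0) :
    form f x y = y ^ f.natDegree * Polynomial.eval₂ (Int.castRingHom K) (x / y) f := by
  rw [Polynomial.eval₂_eq_sum_range, Finset.mul_sum]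
  unfold form
  refine Finset.sum_congr rfl fun i hi => ?_
  have hi' : i ≤ f.natDegree := Nat.lt_succ_iff.1 (Finset.mem_range.1 hi)
  have e : y ^ f.natDegree = y ^ (f.natDegree - i) * y ^ i := by
    rw [← pow_add, Nat.sub_add_cancel hi']
  rw [e, div_pow]
  have hyi : y ^ i ≠ 0 := pow_ne_zero _ hy
  field_simp
  rw [eq_intCast, mul_comm]

theorem form_map {R S : Type} [CommRing R] [CommRing S] (φ : R →+* S) (f : ℤ[X]) (x y : R) :
    φ (form f x y) = form f (φ x) (φ y) := by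
  unfold form
  rw [map_sum]
  refine Finset.sum_congr rfl fun i _ => ?_
  rw [map_mul, map_mul, map_pow, map_pow, map_intCast]

theorem eval₂_f0 (f : ℤ[X]) (z : Qb) :
    Polynomial.aeval z (f0 f) = Polynomial.eval₂ (Int.castRingHom Qb) z f := by
  unfold f0
  rw [Polynomial.aeval_def, Polynomial.eval₂_map]
  congr 1
  exact RingHom.ext_int _ _

theorem not_isRoot {f : ℤ[X]} {x y : ℤ} (hF : form f x y ≠ 0) : ¬ Y680.W.IsRoot (f0 f) (W.pt x y) := by
  unfold W.pt
  split_ifs with hy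
  · exact fun h => h
  · intro h
    have h1 : Polynomial.aeval ((x : Qb) / (y : Qb)) (f0 f) = 0 := h
    rw [eval₂_f0] at h1
    have hy' : (y : Qb) ≠ 0 := by exact_mod_cast hy
    have h2 := form_eq_eval f (x : Qb) (y : Qb) hy'
    rw [h1, mul_zero] at h2
    have h3 := form_map (Int.castRingHom Qb) f x y
    simp only [eq_intCast] at h3
    rw [h2] at h3
    exact hF (by exact_mod_cast h3)

theorem even_of {f : ℤ[X]} {x y : ℤ} (hF : form f x y ≠ 0) (hy : y ≠ 0) (h : UnitRatios f x y)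
    (A : ValuationSubring Qb) : Even (f0 f) A ((x : ℚ) / (y : ℚ)) := by
  have hy' : (y : Qb) ≠ 0 := by exact_mod_cast hy
  have hq : (((x : ℚ) / (y : ℚ) : ℚ) : Qb) = (x : Qb) / (y : Qb) := by push_cast; rfl
  refine ⟨?_, ?_⟩
  · have h1 := not_isRoot hF
    unfold W.pt at h1
    rw [if_neg hy] at h1
    rw [hq]
    exact h1
  · intro a b ha hb
    rw [hq]
    apply int_mem
    have : Algebra.IsAlgebraic ℚ Qb := algebraicClosure.isAlgebraic ℚ Om
    let j : Qb →ₐ[ℚ] ℂ := IsAlgClosed.lift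
    let j' : Qb →ₐ[ℤ] ℂ := (j : Qb →+* ℂ).toIntAlgHom
    rw [← isIntegral_algHom_iff j' j.injective]
    have e1 : j' (((x : Qb) / (y : Qb) - a) / ((x : Qb) / (y : Qb) - b)) =
        ((x : ℂ) - j a * y) / ((x : ℂ) - j b * y) := by
      have e2 : ((x : Qb) / (y : Qb) - a) / ((x : Qb) / (y : Qb) - b) =
          ((x : Qb) - a * y) / ((x : Qb) - b * y) := by
        have : ∀ c : Qb, (x : Qb) / (y : Qb) - c = ((x : Qb) - c * y) / y := by
          intro c
          field_simp
        rw [this a, this b, div_div_div_cancel_right₀ hy']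
      rw [e2]
      change j (((x : Qb) - a * y) / ((x : Qb) - b * y)) = _
      rw [map_div₀, map_sub, map_sub, map_mul, map_mul, map_intCast, map_intCast]
    rw [e1]
    have hr : ∀ c : Qb, W.IsRoot (f0 f) (some c) → Polynomial.aeval (j c) f = 0 := by
      intro c hc
      have h1 : Polynomial.aeval c (f0 f) = 0 := hc
      rw [eval₂_f0] at h1
      have h2 := congrArg j h1
      rw [map_zero] at h2
      have h3 : (j : Qb →+* ℂ) (Polynomial.eval₂ (Int.castRingHom Qb) c f) = 0 := h2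
      rw [Polynomial.hom_eval₂] at h3
      rw [Polynomial.aeval_def]
      have h4 : (j : Qb →+* ℂ).comp (Int.castRingHom Qb) = algebraMap ℤ ℂ := RingHom.ext_int _ _
      rw [h4] at h3
      exact h3
    exact h _ _ (hr a ha) (hr b hb)

section main

variable {x y : ℤ} {v0 w0 : ValuationSubring Om} {cv cw : ValuationSubring Om → geo Om}

theorem lies_hl' {p : ℕ} [Fact p.Prime] {f : ℤ[X]} (hf : f0 f ≠ 0) (hF : form f x y ≠ 0)
    (hU : UnitRatios f x y)
    (H : Pts (geo Om) (inert Om f) (infPlaces Om) (Pl (W.pt x y)) v0 w0 cv cw)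
    (n l : ℕ) [Fact l.Prime] (hlp : l ≠ p) {z : Option ℚ_[l]}
    (hz : IsPt z ((1 : ℤ) : ℚ_[l]) ((0 : ℤ) : ℚ_[l])) :
    Lies (p := p) (f := f) (C := AlgebraicClosure ℚ_[l]) ℚ_[l] n (co v0 w0 cv cw) z := by
  intro ι
  obtain ⟨h, hh⟩ : ∃ h : W.Trans p (f0 f), ∀ n, W.IsPath n none (W.pt x y) h ∧
      Invt n (AA l ι) none (W.pt x y) h := by
    by_cases hy : y = 0
    · have e : W.pt x y = none := by rw [W.pt, if_pos hy]
      rw [e]
      obtain ⟨h, hh⟩ := W.id_path (p := p) (f := f0 f) none (fun h => h) (fun g => rfl)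
      exact ⟨h, fun n => ⟨(hh n).1, (hh n).2 _⟩⟩
    · have e : W.pt x y = some ((((x : ℚ) / (y : ℚ) : ℚ)) : Qb) := by
        rw [W.pt, if_neg hy]
        push_cast
        rfl
      rw [e]
      exact exists_path' p l Fact.out hlp (f0 f) hf _ (AA l ι) (AA_nonunits ι)
        (even_of hF hy hU _)
  obtain ⟨h1, h2⟩ := hh n
  have e2 : W.pt 1 0 = none := W.pt_one_zero
  have h3 : IsPath n (fun γ v => (γ : GG) • v) (fun γ v => (γ : GG) • v) (infPlaces Om)
      (Pl (W.pt x y)) (tr h) := isPath_tr h1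
  have hab : ∀ w ∈ above ι (z.map (algebraMap ℚ_[l] (AlgebraicClosure ℚ_[l]))),
      w.O ∈ infPlaces Om := by
    intro w hw
    have := above_place hz hw
    rw [e2] at this
    exact this
  refine ⟨fun S v w => hl (tr h) w0 cv cw S v w.O, toPlace (isPath_hl H h3) hab, ?_⟩
  intro g σ hσ S T hS hT s hs u hu v hv w hw
  refine hl_co H h3 g S T hS hT s hs ?_ hu hv (hab w hw)
  intro v hv w hw
  refine invt_tr h1 h2 (fun g => rfl) (fun g => ?_) g (AA_dec ι g σ hσ) S T hS hT s hs hv hw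
  rw [W.gpt_pt]

theorem f0_ne_zero {f : ℤ[X]} {p : ℕ} (hf : Admissible f p) : f0 f ≠ 0 := by
  unfold f0
  exact (hf.monic.map _).ne_zero

theorem form_one_zero {f : ℤ[X]} (hf : f.Monic) (R : Type) [CommRing R] :
    form f (1 : R) 0 = 1 := by
  unfold form
  rw [Finset.sum_range_succ, Finset.sum_eq_zero, zero_add, Nat.sub_self, pow_zero, one_pow,
    hf.coeff_natDegree]
  · simp
  · intro i hi
    rw [Finset.mem_range] at hi
    rw [zero_pow (by omega), mul_zero]

/-- rational points with unit ratios are weakly global -/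
theorem inclusion {f : ℤ[X]} {p : ℕ} [Fact p.Prime] (hf : Admissible f p) {x y : ℤ}
    (hF : ¬ (p : ℤ) ∣ form f x y) (hU : UnitRatios f x y) (n : ℕ) (z : Option ℚ_[p])
    (hz : IsPt z (x : ℚ_[p]) (y : ℚ_[p])) :
    z ∈ weaklyGlobal (AlgebraicClosure (RatFunc ℚ)) f p n := by
  have hF0 : form f x y ≠ 0 := by
    intro h
    exact hF (h ▸ dvd_zero _)
  obtain ⟨v0, w0, cv, cw, H⟩ := exists_Pts (f := f) x y (not_isRoot hF0)
  refine ⟨⟨x, y, ?_, ?_⟩, co v0 w0 cv cw, cocycle_main H n, lies_et H n p hz, ?_⟩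
  · have h1 := form_map (Int.castRingHom ℤ_[p]) f x y
    simp only [eq_intCast] at h1
    rw [← h1, PadicInt.isUnit_iff, PadicInt.norm_intCast_eq_one_iff]
    exact ((Nat.prime_iff_prime_int.1 Fact.out).coprime_iff_not_dvd.2 hF).symm
  · push_cast
    exact hz
  · intro l _ hlp
    refine ⟨none, ⟨1, 0, ?_, Or.inl ⟨by simp, rfl⟩⟩,
      lies_hl' (f0_ne_zero hf) hF0 hU H n l hlp (Or.inl ⟨by simp, rfl⟩)⟩
    rw [form_one_zero hf.monic]
    exact isUnit_one

/-- integral points are weakly global -/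
theorem intPts_subset {f : ℤ[X]} {p : ℕ} [Fact p.Prime] (n : ℕ) :
    intPts f p ⊆ weaklyGlobal (AlgebraicClosure (RatFunc ℚ)) f p n := by
  rintro z ⟨x, y, hu, hz⟩
  have hl : ∀ (l : ℕ) [Fact l.Prime], IsUnit (form f (x : ℤ_[l]) (y : ℤ_[l])) := by
    intro l _
    have h1 := form_map (Int.castRingHom ℤ_[l]) f x y
    simp only [eq_intCast] at h1
    rw [← h1]
    have := hu.map (Int.castRingHom ℤ_[l])
    simpa using this
  obtain ⟨v0, w0, cv, cw, H⟩ := exists_Pts (f := f) x y (not_isRoot hu.ne_zero)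
  refine ⟨⟨x, y, hl p, ?_⟩, co v0 w0 cv cw, cocycle_main H n, lies_et H n p hz, ?_⟩
  · push_cast
    exact hz
  · intro l _ _
    by_cases hy : y = 0
    · refine ⟨none, ⟨x, y, hl l, Or.inl ⟨by simp [hy], rfl⟩⟩,
        lies_et H n l (Or.inl ⟨by simp [hy], rfl⟩)⟩
    · have hy' : (y : ℚ_[l]) ≠ 0 := by exact_mod_cast hy
      refine ⟨some ((x : ℚ_[l]) / (y : ℚ_[l])), ⟨x, y, hl l, Or.inr ⟨?_, ?_⟩⟩,
        lies_et H n l (Or.inr ⟨hy', rfl⟩)⟩
      · push_cast
        exact hy'
      · push_cast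
        rfl

end main

end Pool.Agent.H577.Kim
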