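import Pool.Agent.H577.Kim.K3

/-!
Invariant unipotent paths from infinity to a rational point whose distances from the roots have
the same valuation.
-/

open scoped Pointwise TensorProduct Topology Polynomial

noncomputable section

namespace Pool.Agent.H577.Kim

open Y680.W

theorem exists_path' (p l : ℕ) [Fact p.Prime] (hl : l.Prime) (hlp : l ≠ p) (f : ℚ[X])
    (hf : f ≠ 0) (q : ℚ) (A : ValuationSubring Qb) (hA : (l : Qb) ∈ A.nonunits)
    (hq : Even f A q) :
    ∃ h : Trans p f, ∀ n, IsPath n none (some (q : Qb)) h ∧ Invt n A none (some (q : Qb)) h := by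
  obtain ⟨v, hv⟩ := t_EX none
  obtain ⟨w, hw⟩ := t_EX (some (q : Qb))
  have hga : ∀ g : GG, gpt g none = none := fun g => rfl
  have hgb : ∀ g : GG, gpt g (some (q : Qb)) = some (q : Qb) := by
    intro g
    change some (⟨g ((q : Qb) : Om), _⟩ : Qb) = some (q : Qb)
    congr 1
    apply Subtype.ext
    change g ((q : Qb) : Om) = ((q : Qb) : Om)
    rw [coe_q]
    exact gq g q
  have hcv : ∀ v' : ValuationSubring Om, ∃ γ : Gam, IsPlace none v' → (γ : GG) • v = v' := by
    intro v'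
    by_cases h : IsPlace none v'
    · obtain ⟨δ, h1, _, h3⟩ := f_PLACE none 1 (loc none) one_pos (pow_one _) v v' hv h
      exact ⟨⟨δ, h1⟩, fun _ => h3⟩
    · exact ⟨1, fun h' => absurd h' h⟩
  have hcw : ∀ w' : ValuationSubring Om, ∃ γ : Gam, IsPlace (some (q : Qb)) w' →
      (γ : GG) • w = w' := by
    intro w'
    by_cases h : IsPlace (some (q : Qb)) w'
    · obtain ⟨δ, h1, _, h3⟩ := f_PLACE (some (q : Qb)) 1 (loc (some (q : Qb))) one_pos (pow_one _)
        w w' hw h
      exact ⟨⟨δ, h1⟩, fun _ => h3⟩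
    · exact ⟨1, fun h' => absurd h' h⟩
  choose cv hcv using hcv
  choose cw hcw using hcw
  obtain ⟨φ, hφ1, hφ2, hφ3, hφ4⟩ := f_FROBG p l hl hlp A hA (some (q : Qb)) hgb w hw f hf
  let gm : GG → Gam := fun g => cv (g • v)
  have hgm : ∀ g : GG, (gm g : GG) • v = g • v := by
    intro g
    apply hcv
    exact isPlace_smul g hv
  have D : Dat p l f none (some (q : Qb)) A v w gm :=
    { hl := hl
      hlp := hlp
      hA := hA
      ha := fun h => h
      hb := hq.root
      hv := hv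
      hw := hw
      hgm := hgm
      hφ := ⟨φ, ⟨⟨hφ1, hφ2⟩, hφ3⟩, fun i hi => ch_pow_ne (hφ4 i hi)⟩ }
  have hV : Van1 p f A w gm := by
    intro lam hlam τ hτ
    refine K3' hl hlp hA hq lam hlam v w hv hw τ (gm τ) hτ.1.1.2 ?_ hτ.1.2 hτ.2
    rw [mul_smul, ← hgm τ, inv_smul_smul]
  obtain ⟨S0, al, F⟩ := D.exists_fam hf f_FIN f_K2 f_T1G f_T2G hV
  exact ⟨hp cv cw al, fun n => ⟨isPath_hp hcv hcw hga hgb F D f_K2 n,
    invt_hp hcv hcw hga hgb F D f_K2 n⟩⟩

end Pool.Agent.H577.Kim
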