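import Pool.Agent.H577.Kim.Stm

/-!
The local system of rank two attached to a character, and the entries of unipotent paths.
-/

open scoped Pointwise TensorProduct Topology Polynomial NNReal

noncomputable section

namespace Pool.Agent.H577.Kim

open Y680 Y680.V Polynomial
open Y680.W (GG Gam Qb map_Qb)

variable {p : ℕ} [Fact p.Prime]

/-- the identification of the geometric groups -/
def ii (γ : geo Om) : Gam := ⟨γ, by rw [← geo_eq]; exact γ.2⟩

theorem ii_coe (γ : geo Om) : ((ii γ : Gam) : GG) = γ := rfl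

theorem ii_mul (γ δ : geo Om) : ii (γ * δ) = ii γ * ii δ := rfl

theorem ii_jj (γ : Gam) : ii (jj γ) = γ := rfl

/-- a unipotent matrix -/
def um (c : ℚ_[p]) : Matrix (Fin 2) (Fin 2) ℚ_[p] := !![1, c; 0, 1]

theorem um_mul (c d : ℚ_[p]) : um c * um d = um (c + d) := by
  unfold um
  ext i j
  fin_cases i <;> fin_cases j <;> simp [Matrix.mul_apply, Fin.sum_univ_two, add_comm]

theorem um_zero : um (0 : ℚ_[p]) = 1 := by
  unfold um
  ext i j
  fin_cases i <;> fin_cases j <;> simp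

theorem um_inj {c d : ℚ_[p]} (h : um c = um d) : c = d := by
  have := congrFun (congrFun h 0) 1
  simpa [um] using this

/-- unramified characters -/
structure Unr (p : ℕ) [Fact p.Prime] (f : ℤ[X]) (lam : Gam → ℤ_[p]) : Prop where
  add : ∀ γ δ, lam (γ * δ) = lam γ + lam δ
  cont : Continuous lam
  unr : ∀ c : Option Qb, ¬ W.IsRoot (f0 f) c → ∀ v : ValuationSubring Om, W.IsPlace c v →
      ∀ γ : Gam, γ • v = v → lam γ = 0

theorem Unr.one {f : ℤ[X]} {lam : Gam → ℤ_[p]} (h : Unr p f lam) : lam 1 = 0 := by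
  have := h.add 1 1
  rw [one_mul] at this
  simpa using this

theorem Unr.inv {f : ℤ[X]} {lam : Gam → ℤ_[p]} (h : Unr p f lam) (γ : Gam) :
    lam γ⁻¹ = - lam γ := by
  have := h.add γ γ⁻¹
  rw [mul_inv_cancel, h.one] at this
  linear_combination -this

theorem continuous_ii : Continuous ii := by
  apply Continuous.subtype_mk
  exact continuous_subtype_val

theorem root_of {f : ℤ[X]} {a : Om} (ha : IsAlgebraic ℚ a)
    (h : @Polynomial.aeval ℤ Om _ _ (Ring.toIntAlgebra Om) a f ≠ 0) :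
    ¬ W.IsRoot (f0 f) (some ⟨a, mem_algebraicClosure_iff.2 ha⟩) := by
  intro h1
  apply h
  have h2 : Polynomial.aeval (⟨a, mem_algebraicClosure_iff.2 ha⟩ : Qb) (f0 f) = 0 := h1
  unfold f0 at h2
  rw [Polynomial.aeval_def, Polynomial.eval₂_map] at h2
  change Polynomial.eval₂ (Int.castRingHom Om) a f = 0
  have h3 : ((Polynomial.eval₂ ((algebraMap ℚ Qb).comp (Int.castRingHom ℚ))
      (⟨a, mem_algebraicClosure_iff.2 ha⟩ : Qb) f : Qb) : Om) =
      Polynomial.eval₂ (Int.castRingHom Om) a f := by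
    rw [Polynomial.eval₂_eq_sum_range, Polynomial.eval₂_eq_sum_range]
    push_cast
    simp
  rw [← h3, h2]
  rfl

/-- the local system of rank two -/
def ksys {f : ℤ[X]} {lam : Gam → ℤ_[p]} (h : Unr p f lam) : LocSys p (geo Om) (inert Om f) where
  r := 2
  rho :=
    { toFun := fun γ => um ((lam (ii γ) : ℤ_[p]) : ℚ_[p])
      map_one' := by
        have : lam (ii 1) = 0 := h.one
        rw [this, PadicInt.coe_zero, um_zero]
      map_mul' := by
        intro γ δ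
        rw [ii_mul, h.add, PadicInt.coe_add, um_mul] }
  cont := by
    intro i j
    have h1 : Continuous fun γ : geo Om => ((lam (ii γ) : ℤ_[p]) : ℚ_[p]) :=
      continuous_subtype_val.comp (h.cont.comp continuous_ii)
    change Continuous fun γ : geo Om => um ((lam (ii γ) : ℤ_[p]) : ℚ_[p]) i j
    unfold um
    fin_cases i <;> fin_cases j
    · simpa using continuous_const
    · simpa using h1
    · simpa using continuous_const
    · simpa using continuous_const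
  diag := by
    intro γ i
    change um ((lam (ii γ) : ℤ_[p]) : ℚ_[p]) i i = 1
    unfold um
    fin_cases i <;> simp
  low := by
    intro γ i j hij
    change um ((lam (ii γ) : ℤ_[p]) : ℚ_[p]) i j = 0
    unfold um
    fin_cases i <;> fin_cases j <;> simp_all
  unram := by
    intro γ hγ
    change um ((lam (ii γ) : ℤ_[p]) : ℚ_[p]) = 1
    have h1 : lam (ii γ) = 0 := by
      obtain ⟨v, hv, h2 | ⟨a, ha, ha', h2⟩⟩ := hγ
      · exact h.unr none (fun h => h) v h2 _ hv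
      · exact h.unr _ (root_of ha ha') v h2 _ hv
    rw [h1, PadicInt.coe_zero, um_zero]

theorem ksys_rho {f : ℤ[X]} {lam : Gam → ℤ_[p]} (h : Unr p f lam) (γ : geo Om) :
    (ksys h).rho γ = um ((lam (ii γ) : ℤ_[p]) : ℚ_[p]) := rfl

/-- the kernel of a character as a subgroup of the big group -/
def kerG {f : ℤ[X]} {lam : Gam → ℤ_[p]} (h : Unr p f lam) : Subgroup GG where
  carrier := {g | ∃ hg : g ∈ Gam, lam ⟨g, hg⟩ = 0}
  mul_mem' := by
    rintro a b ⟨ha, ha'⟩ ⟨hb, hb'⟩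
    refine ⟨mul_mem ha hb, ?_⟩
    have := h.add ⟨a, ha⟩ ⟨b, hb⟩
    rw [ha', hb', add_zero] at this
    exact this
  one_mem' := ⟨one_mem _, h.one⟩
  inv_mem' := by
    rintro a ⟨ha, ha'⟩
    refine ⟨inv_mem ha, ?_⟩
    have := h.inv ⟨a, ha⟩
    rw [ha', neg_zero] at this
    exact this

theorem ksys_level {f : ℤ[X]} {lam : Gam → ℤ_[p]} (h : Unr p f lam) {n : ℕ} (hn : 1 ≤ n) :
    (ksys h).Level n := by
  intro γ hγ
  have h1 : (γ : GG) ∈ (geo Om).lowerCentralSeries 1 :=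
    Subgroup.lowerCentralSeries_antitone _ hn hγ
  rw [ksys_rho]
  have h2 : (geo Om).lowerCentralSeries 1 ≤ kerG h := by
    change ⁅(geo Om).lowerCentralSeries 0, geo Om⁆ ≤ kerG h
    rw [Subgroup.commutator_le]
    intro a ha b hb
    have ha' : a ∈ Gam := by rw [← geo_eq]; exact ha
    have hb' : b ∈ Gam := by rw [← geo_eq]; exact hb
    refine ⟨?_, ?_⟩
    · rw [commutatorElement_def]
      exact mul_mem (mul_mem (mul_mem ha' hb') (inv_mem ha')) (inv_mem hb')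
    · have h5 := h.add ⟨a, ha'⟩ ⟨b, hb'⟩
      have h4 : lam (⟨a, ha'⟩ * ⟨b, hb'⟩ * ⟨a, ha'⟩⁻¹ * ⟨b, hb'⟩⁻¹) = 0 := by
        rw [h.add, h.add, h.inv, h.inv, h5]
        ring
      exact h4
  obtain ⟨h3, h4⟩ := h2 h1
  have h5 : lam (ii γ) = 0 := h4
  rw [h5, PadicInt.coe_zero, um_zero]
  rfl

/-- a matrix of the local system, as a matrix of size two -/
def km {f : ℤ[X]} {lam : Gam → ℤ_[p]} (H : Unr p f lam)
    (A : Matrix (Fin (ksys H).r) (Fin (ksys H).r) ℚ_[p]) : Matrix (Fin 2) (Fin 2) ℚ_[p] := A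

/-- the inclusion of the first vector -/
def s1 : Matrix (Fin 2) (Fin 1) ℚ_[p] := fun i _ => if i = 0 then 1 else 0

/-- the projection to the last coordinate -/
def s2 : Matrix (Fin 1) (Fin 2) ℚ_[p] := fun _ i => if i = 1 then 1 else 0

theorem s1_um (c : ℚ_[p]) :
    (s1 : Matrix (Fin 2) (Fin 1) ℚ_[p]) * (1 : Matrix (Fin 1) (Fin 1) ℚ_[p]) = um c * s1 := by
  ext i j
  change ∑ k : Fin 1, s1 i k * (1 : Matrix (Fin 1) (Fin 1) ℚ_[p]) k j =
    ∑ k : Fin 2, um c i k * s1 k j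
  rw [Fin.sum_univ_two, Fin.sum_univ_one]
  have hj : j = 0 := Subsingleton.elim _ _
  subst hj
  rw [Matrix.one_apply_eq]
  fin_cases i <;> simp [s1, um]

theorem s2_um (c : ℚ_[p]) :
    (s2 : Matrix (Fin 1) (Fin 2) ℚ_[p]) * um c = (1 : Matrix (Fin 1) (Fin 1) ℚ_[p]) * s2 := by
  ext i j
  change ∑ k : Fin 2, s2 i k * um c k j =
    ∑ k : Fin 1, (1 : Matrix (Fin 1) (Fin 1) ℚ_[p]) i k * s2 k j
  rw [Fin.sum_univ_two, Fin.sum_univ_one]
  have hi : i = 0 := Subsingleton.elim _ _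
  subst hi
  rw [Matrix.one_apply_eq]
  fin_cases j <;> simp [s2, um]

/-- the semilinear map -/
def ss (x : ℚ_[p]) : Matrix (Fin 2) (Fin 2) ℚ_[p] := !![x, 0; 0, 1]

theorem ss_um (x c : ℚ_[p]) : ss x * um c = um (x * c) * ss x := by
  unfold ss um
  ext i j
  fin_cases i <;> fin_cases j <;> simp [Matrix.mul_apply, Fin.sum_univ_two]

theorem um_of (A : Matrix (Fin 2) (Fin 2) ℚ_[p])
    (h1 : (s1 : Matrix (Fin 2) (Fin 1) ℚ_[p]) * (1 : Matrix (Fin 1) (Fin 1) ℚ_[p]) = A * s1)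
    (h2 : s2 * A = (1 : Matrix (Fin 1) (Fin 1) ℚ_[p]) * s2) : A = um (A 0 1) := by
  have a1 : ∑ k : Fin 1, s1 0 k * (1 : Matrix (Fin 1) (Fin 1) ℚ_[p]) k 0 =
    ∑ k : Fin 2, A 0 k * s1 k 0 := congrFun (congrFun h1 0) 0
  have a2 : ∑ k : Fin 1, s1 1 k * (1 : Matrix (Fin 1) (Fin 1) ℚ_[p]) k 0 =
    ∑ k : Fin 2, A 1 k * s1 k 0 := congrFun (congrFun h1 1) 0
  have a3 : ∑ k : Fin 2, s2 0 k * A k 1 =
    ∑ k : Fin 1, (1 : Matrix (Fin 1) (Fin 1) ℚ_[p]) 0 k * s2 k 1 := congrFun (congrFun h2 0) 1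
  rw [Fin.sum_univ_two, Fin.sum_univ_one] at a1 a2 a3
  simp [s1] at a1 a2
  simp [s2] at a3
  unfold um
  ext i j
  fin_cases i <;> fin_cases j
  · simpa using a1.symm
  · simp
  · simpa using a2.symm
  · simpa using a3

theorem rel_of (B C D : Matrix (Fin 2) (Fin 2) ℚ_[p]) (hB : B = um (B 0 1)) (hC : C = um (C 0 1))
    (hD : D = um (D 0 1)) (x : ℚ_[p]) (h : B * (C * ss x) = ss x * D) :
    B 0 1 + C 0 1 = x * D 0 1 := by
  rw [hB, hC, hD] at h
  have h3 := congrFun (congrFun h 0) 1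
  simp [um, ss, Matrix.mul_apply, Fin.sum_univ_two] at h3
  linear_combination h3

/-- the entry of a path -/
theorem path_um {f : ℤ[X]} {lam : Gam → ℤ_[p]} (H : Unr p f lam) {n : ℕ} (hn : 1 ≤ n)
    {E E' : Type} {a : geo Om → E → E} {a' : geo Om → E' → E'} {X : Set E} {X' : Set E'}
    {h : Trans p (geo Om) (inert Om f) E E'} (hh : IsPath n a a' X X' h) {v : E} (hv : v ∈ X)
    {w : E'} (hw : w ∈ X') :
    km H (h (ksys H) v w) = um (km H (h (ksys H) v w) 0 1) := by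
  have hl : (LocSys.unit (p := p) (Γ := geo Om) (J := inert Om f)).Level n := fun _ _ => rfl
  have hk := ksys_level H hn
  have hu := hh.unit v hv w hw
  set A := km H (h (ksys H) v w) with hA
  have hs1 : LocSys.Semi 1 LocSys.unit (ksys H) (s1 (p := p)) := by
    intro γ δ _
    exact s1_um _
  have hs2 : LocSys.Semi 1 (ksys H) LocSys.unit (s2 (p := p)) := by
    intro γ δ _
    exact s2_um _
  have h1 : s1 * (1 : Matrix (Fin 1) (Fin 1) ℚ_[p]) = A * s1 := by
    have := hh.nat LocSys.unit (ksys H) hl hk s1 hs1 v hv w hw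
    rw [hu] at this
    exact this
  have h2 : s2 * A = (1 : Matrix (Fin 1) (Fin 1) ℚ_[p]) * s2 := by
    have := hh.nat (ksys H) LocSys.unit hk hl s2 hs2 v hv w hw
    rw [hu] at this
    exact this
  exact um_of A h1 h2

/-- the entry -/
def ent {f : ℤ[X]} {lam : Gam → ℤ_[p]} (H : Unr p f lam) {E E' : Type}
    (h : Trans p (geo Om) (inert Om f) E E') (v : E) (w : E') : ℚ_[p] :=
  km H (h (ksys H) v w) 0 1

theorem ent_equiv {f : ℤ[X]} {lam : Gam → ℤ_[p]} (H : Unr p f lam) {n : ℕ} (hn : 1 ≤ n)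
    {E E' : Type} {a : geo Om → E → E} {a' : geo Om → E' → E'} {X : Set E} {X' : Set E'}
    {h : Trans p (geo Om) (inert Om f) E E'} (hh : IsPath n a a' X X' h) {v : E} (hv : v ∈ X)
    {w : E'} (hw : w ∈ X') (γ δ : geo Om) (hv' : a γ v ∈ X) (hw' : a' δ w ∈ X') :
    ent H h (a γ v) (a' δ w) + ((lam (ii γ) : ℤ_[p]) : ℚ_[p]) =
      ((lam (ii δ) : ℤ_[p]) : ℚ_[p]) + ent H h v w := by
  have h1 := hh.equiv (ksys H) (ksys_level H hn) v hv w hw γ δ
  have h2 : km H (h (ksys H) (a γ v) (a' δ w)) * um ((lam (ii γ) : ℤ_[p]) : ℚ_[p]) =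
      um ((lam (ii δ) : ℤ_[p]) : ℚ_[p]) * km H (h (ksys H) v w) := h1
  rw [path_um H hn hh hv hw, path_um H hn hh hv' hw', um_mul, um_mul] at h2
  exact um_inj h2

theorem semi_ss {f : ℤ[X]} {lam : Gam → ℤ_[p]} (H : Unr p f lam) {g : GG} {x : ℤ_[p]}
    (hg : ∀ γ : Gam, lam (W.cj g γ) = x * lam γ) :
    LocSys.Semi g (ksys H) (ksys H) (ss (x : ℚ_[p])) := by
  intro γ δ hδ
  have h1 : ii δ = W.cj g (ii γ) := by
    apply Subtype.ext
    rw [W.cj_coe, ii_coe, ii_coe, hδ]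
  change ss (x : ℚ_[p]) * um ((lam (ii γ) : ℤ_[p]) : ℚ_[p]) =
    um ((lam (ii δ) : ℤ_[p]) : ℚ_[p]) * ss (x : ℚ_[p])
  rw [h1, hg, PadicInt.coe_mul]
  exact ss_um _ _

/-- the relation between the entries of the path and of the cocycle -/
theorem ent_rel {f : ℤ[X]} {lam : Gam → ℤ_[p]} (H : Unr p f lam) {n : ℕ} (hn : 1 ≤ n)
    {c : GG → Trans p (geo Om) (inert Om f) (ValuationSubring Om) (ValuationSubring Om)}
    (hc : IsCocycle n (infPlaces Om) c) {C : Type} [Field C] {ι : Qb →+* C} {z : Option C}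
    {h : Trans p (geo Om) (inert Om f) (ValuationSubring Om) (Place Om C)}
    (hh : IsPathTo n ι z h) {g : GG} {σ : C →+* C} {x : ℤ_[p]} {u v : ValuationSubring Om} {w : Place Om C}
    (hu : u ∈ infPlaces Om) (hgu : g • u ∈ infPlaces Om) (hv : v ∈ infPlaces Om)
    (hw : w ∈ above ι z) (hgw : w.move g σ ∈ above ι z)
    (hrel : km H (h (ksys H) v (w.move g σ)) *
      (km H (c g (ksys H) (g • u) v) * ss (x : ℚ_[p])) =
      ss (x : ℚ_[p]) * km H (h (ksys H) u w)) :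
    ent H h v (w.move g σ) + ent H (c g) (g • u) v = x * ent H h u w := by
  exact rel_of _ _ _ (path_um H hn hh hv hgw) (path_um H hn (hc.path g) hgu hv)
    (path_um H hn hh hu hw) _ hrel

end Pool.Agent.H577.Kim
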