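import Pool.Graph.R_seed8.Y680.V.P5

/-!
Interfaces for the exact criterion on MP_fd87b4_nt: the class of a rational point is, at a prime
`l`, the class of an integral point if and only if the ratios of the differences of the point and
the removed points are units at `l`.
-/

open scoped Pointwise TensorProduct Topology Polynomial NNReal

noncomputable section

namespace Pool.Agent.H577.Kim

open Y680 Y680.V Polynomial
open Y680.W (GG Gam Qb map_Qb)

/-- KCHAR.  The `p`-adic Kummer character of `(t - a) / (t - b)` on the geometric Galois group.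

Proof.  Choose `y 0 = (tt - a) / (tt - b)`, `y (k + 1) ^ p = y k` and `ζ 0 = 1`,
`ζ (k + 1) ^ p = ζ k` with `ζ k` a primitive `p ^ k`-th root of unity (all in `Om`, algebraically
closed of characteristic zero; the `ζ k` are in `Qb`, so fixed by `Gam`).  `γ (y k) / y k` is a
`p ^ k`-th root of unity (`γ` fixes `tt`, `a`, `b`), hence `ζ k ^ m k`, and `m (k + 1) = m k` modulo
`p ^ k`; let `lam γ` be the limit (`PadicInt.ofIntSeq`, `PadicInt.toZModPow_ofIntSeq_of_pow_dvd_sub`).
Additive: check modulo `p ^ k` (`PadicInt.ext_of_toZModPow`).  Continuous: modulo `p ^ k` it is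
locally constant, since `γ ↦ γ (y k)` is (stabilisers of elements of `Om` are open in `GG`; see
`Y680.V.isOpen_eval`).  Unramified at `c ≠ a, b`: `(tt - a) / (tt - b)` is congruent modulo the
maximal ideal of `v` to a nonzero constant `E` in `Qb` (`1` if `c` is infinity), use
`Y680.W.K3.fix_root` (file W/T_K3.lean; see the use of `Cg`, `Cg.mk'`, `Cg.prod`, `fix_root` in
`Y680.W.t_K3` and in Pool/Agent/H577/Kim/K3.lean) with `τ = γ`: `γ` fixes all algebraic numbers, so
`γ (y k) = y k`. -/
def S_KCHAR : Prop :=
  ∀ (p : ℕ) [Fact p.Prime] (a b : Qb), ∃ (lam : Gam → ℤ_[p]) (y ζ : ℕ → Om),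
    (∀ γ δ, lam (γ * δ) = lam γ + lam δ) ∧ Continuous lam ∧
    (∀ c : Option Qb, c ≠ some a → c ≠ some b → ∀ v : ValuationSubring Om, W.IsPlace c v →
      ∀ γ : Gam, γ • v = v → lam γ = 0) ∧
    (∀ k, y k ^ (p ^ k) = (W.tt - (a : Om)) / (W.tt - (b : Om))) ∧
    (∀ k, IsPrimitiveRoot (ζ k) (p ^ k)) ∧
    ∀ (γ : Gam) (k : ℕ), (γ : GG) (y k) = ζ k ^ (PadicInt.toZModPow k (lam γ)).val * y k

/-- DISC.  The values of a finite extension of the field of `l`-adic numbers are discrete.

Proof.  Let `L` be the field generated by `S` over `ℚ_[l]`, a finite extension; by Galois theory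
(the algebraic closure is Galois over `L`) the elements `M` are in `L`.  Let `r = [L : ℚ_[l]]`.  For
`M ≠ 0` in `L` the norm satisfies `‖M‖ ^ (deg minpoly) = ‖minpoly.coeff 0‖` (all roots of the
minimal polynomial have the same norm; or the formula for the spectral norm), so
`‖M‖ ^ (r !) = l ^ m` with an integer `m`.  With `M ^ (p ^ k) = W` we get
`‖W‖ ^ (r !) = l ^ (m_k * p ^ k)` for all `k`; so the integer `m_0` is divisible by all `p ^ k`, and
is zero. -/
def S_DISC : Prop :=
  ∀ (l p : ℕ) [Fact l.Prime] [Fact p.Prime] (S : Finset (AlgebraicClosure ℚ_[l]))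
    (W : AlgebraicClosure ℚ_[l]), W ≠ 0 →
    (∀ k : ℕ, ∃ M : AlgebraicClosure ℚ_[l], M ^ (p ^ k) = W ∧
      ∀ σ : AlgebraicClosure ℚ_[l] ≃ₐ[ℚ_[l]] AlgebraicClosure ℚ_[l], (∀ s ∈ S, σ s = s) →
        σ M = M) →
    (Valued.v : Valuation (PadicAlgCl l) ℝ≥0) W = 1

/-- LIFT.  There is a place `w` of `Om` with values in the algebraic closure `C` of `ℚ_[l]`, above
the given point `z` (over `ℚ_[l]`) and extending the given embedding `ι`, which is fixed by a lift
of every automorphism of `C`.

Proof.  Case A: `z` is infinity, or the image of `z` in `C` is `ι a'` with `a' : Qb`.  Let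
`c = none` or `c = some a'`, `O` a valuation ring with `W.IsPlace c O` (`W.t_EX`), its residue map
`O →+* Qb` (`W.t_VAL`: for every `z` in `O` there is a (unique) `c : Qb` with `z - c` in
`O.nonunits`; `Y680.W.K3.Qb_le`: `Qb` is in `O`) composed with `ι` gives the place `w`.  Given `σ`,
there is an automorphism `s` of `Qb` over `ℚ` with `ι (s a) = σ (ι a)` (`AlgEquiv.restrictNormal`
for the algebra structure `ι.toAlgebra`, `Qb` is normal over `ℚ`), an extension `g0 : GG` of `s`
(`W.t_SURJ`), `gpt g0 c = c` because `σ` fixes `z`, so `g0 • O` is again above `c`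
(`W.isPlace_smul`) and by `W.f_PLACE` there is `δ ∈ Gam` with `δ • g0 • O = O`; put `g = δ * g0`.
Then `w.move g σ = w`: the valuation rings are equal, and the two maps agree since for `x` in `O`
there is `c : Qb` with `x - c` in `O.nonunits`, and both maps send it to zero and `c` to `ι c`.

Case B: `z = some z0` and the image of `z0` is not in the range of `ι`; then it is transcendental
over `ℚ`, and there is a ring homomorphism `φ : Om →+* C` which extends `ι` and sends `tt` to `z0`
(`IsAlgClosed.lift` over the base ring `Polynomial Qb`, which acts on `Om` by evaluation at `tt`, on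
`C` by `eval₂ ι z0`; `Om` is algebraic over it).  `w = (⊤, φ)`.  Given `σ`, it fixes `z0`, and by
normality of `Om` over `RatFunc ℚ` there is `g` with `φ (g x) = σ (φ x)`
(`AlgEquiv.restrictNormal`). -/
def S_LIFT : Prop :=
  ∀ (l : ℕ) [Fact l.Prime] (ι : Qb →+* AlgebraicClosure ℚ_[l]) (z : Option ℚ_[l]),
    ∃ w ∈ above (Om := Om) ι (z.map (algebraMap ℚ_[l] (AlgebraicClosure ℚ_[l]))),
      ∀ σ : AlgebraicClosure ℚ_[l] ≃ₐ[ℚ_[l]] AlgebraicClosure ℚ_[l], ∃ g : GG,
        (∀ a b : Qb, (b : Om) = g (a : Om) → σ (ι a) = ι b) ∧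
        w.move g (σ : AlgebraicClosure ℚ_[l] →+* AlgebraicClosure ℚ_[l]) = w

/-- RAT.  The same for a rational point over the algebraic closure of the rationals: there is a
place `w` above the point, and every element `g` of the big Galois group moves it (together with
the automorphism `σ` of the algebraic numbers induced by `g`) to the translate by an element of the
geometric group.

Proof.  `ι` is bijective (both fields are algebraic closures of `ℚ`).  `w` as in case A of LIFT.
Given `g`, let `σ = ι g ι⁻¹`; `g • w.O` is above `q` because `g` fixes `q`, by `W.f_PLACE` there is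
`δ ∈ Gam` with `δ • w.O = g • w.O`; the two places have the same valuation ring and both extend
`ι` on `Qb`, so they are equal by `W.t_VAL`. -/
def S_RAT : Prop :=
  ∀ (ι : Qb →+* AlgebraicClosure ℚ) (q : ℚ),
    ∃ w ∈ above (Om := Om) ι ((some q : Option ℚ).map (algebraMap ℚ (AlgebraicClosure ℚ))),
      W.IsPlace (some (q : Qb)) w.O ∧
      ∀ g : GG, ∃ (σ : AlgebraicClosure ℚ ≃ₐ[ℚ] AlgebraicClosure ℚ) (δ : Gam),
        (∀ a b : Qb, (b : Om) = g (a : Om) → σ (ι a) = ι b) ∧ (δ : GG) • w.O = g • w.O ∧
        w.move g (σ : AlgebraicClosure ℚ →+* AlgebraicClosure ℚ) =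
          w.move (δ : GG) (RingHom.id (AlgebraicClosure ℚ))

/-- NORM.  An elementary form of the condition that the `x - a * y`, for `a` the roots of `f`, have
the same absolute value at all places not above `p`.

Proof.  Over the algebraic closure `C` of `ℚ_[l]`, `form f u v = ∏ (u - a * v)` over the roots `a`
of `f` (with multiplicities; for `v ≠ 0` it is `v ^ d * f (u / v)`).  So
`form f x y = ∏ (x - a * y)` and `form f (C x + X) (C y) = ∏ (X + (x - a * y))`.  At `l ≠ p` let `ρ`
be the common value of `|x - a * y|`; the coefficient of `X ^ (d - j)` has value at most `ρ ^ j`,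
and the value of `form f x y` is `ρ ^ d`; so the divisibility holds at `l`.  At `l = p` it is clear
because `form f x y` is not divisible by `p`.  (All integers; compare valuations at all primes.) -/
def S_NORM : Prop :=
  ∀ (f : ℤ[X]) (p : ℕ) (x y : ℤ), f.Monic → p.Prime → ¬ (p : ℤ) ∣ form f x y →
    (∀ (l : ℕ) [Fact l.Prime], l ≠ p → ∀ a b : AlgebraicClosure ℚ_[l],
      Polynomial.eval₂ (Int.castRingHom (AlgebraicClosure ℚ_[l])) a f = 0 →
      Polynomial.eval₂ (Int.castRingHom (AlgebraicClosure ℚ_[l])) b f = 0 →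
      (Valued.v : Valuation (PadicAlgCl l) ℝ≥0) ((x : AlgebraicClosure ℚ_[l]) - a * y) =
        (Valued.v : Valuation (PadicAlgCl l) ℝ≥0) ((x : AlgebraicClosure ℚ_[l]) - b * y)) →
    ∀ j ≤ f.natDegree,
      form f x y ^ j ∣ (form f (C x + X) (C y)).coeff (f.natDegree - j) ^ f.natDegree

/-- INT.  For an `l`-adic integral point the differences are units.

Proof.  `form f x y = ∏ (x - a * y)` over the roots `a` of `f` in the algebraic closure, the
factors have value at most one (`f` is monic) and the product has value one. -/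
def S_INT : Prop :=
  ∀ (l : ℕ) [Fact l.Prime] (f : ℤ[X]), f.Monic → ∀ x y : ℤ_[l], IsUnit (form f x y) →
    ∀ a : AlgebraicClosure ℚ_[l],
      Polynomial.eval₂ (Int.castRingHom (AlgebraicClosure ℚ_[l])) a f = 0 →
      (Valued.v : Valuation (PadicAlgCl l) ℝ≥0)
        (algebraMap ℚ_[l] (AlgebraicClosure ℚ_[l]) (x : ℚ_[l]) -
          a * algebraMap ℚ_[l] (AlgebraicClosure ℚ_[l]) (y : ℚ_[l])) = 1

end Pool.Agent.H577.Kim
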